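import Pool.Agent.Work.MP_2dff99_ag.Defs

open MvPolynomial

namespace Pool.Agent.Work.MP_2dff99_ag

/-- binary forms -/
abbrev R2 (k : Type) [CommRing k] := MvPolynomial (Fin 2) k

/-- `p` is homogeneous of degree `n : ℤ` (only `0` if `n < 0`). -/
def HomZ {k : Type} [CommRing k] (p : R2 k) (n : ℤ) : Prop :=
  ∀ m : Fin 2 →₀ ℕ, coeff m p ≠ 0 → (m 0 : ℤ) + (m 1 : ℤ) = n

/-- The binary form with coefficient `a i` at `s ^ (n - i) t ^ i`. -/
noncomputable def form {k : Type} [CommRing k] (n : ℕ) (a : ℕ → k) : R2 k :=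
  ∑ i ∈ Finset.range (n + 1), C (a i) * X 0 ^ (n - i) * X 1 ^ i

/-- the monomials of degree 3 -/
def cub {k : Type*} [CommRing k] (s t : k) : Fin 4 → k := ![s ^ 3, s ^ 2 * t, s * t ^ 2, t ^ 3]

/-- generic point of the line through `P` and `Q` -/
noncomputable def lineVec {k : Type} [CommRing k] (P Q : Fin 3 → k) : Fin 3 → R2 k :=
  fun i => C (P i) * X 0 + C (Q i) * X 1

def SplitProp (L : Type) [Field L] : Prop :=
  ∀ P Q : Fin 3 → L, LinearIndependent L ![P, Q] →
    ∀ β : Matrix (Fin 4) (Fin 4) L, β.IsSymm →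
    (∀ s t : L, dotProduct (cub s t) (β.mulVec (cub s t)) =
      - sextic (fun i => s * P i + t * Q i)) →
    ∃ (c : Fin 4 → L) (r : L), dotProduct c (β.mulVec c) = r ^ 2 ∧ β.mulVec c ≠ 0

/-- The data of a sheaf on `C_ℓ`, `ℓ` the line through `P`, `Q`, as the cokernel-type module
`k[s,t](-(1-e)) ⊕ k[s,t](-(1+e))` on which `w` acts by `(A, D; C, -A)`. -/
structure Datum (k : Type) [Field k] where
  P : Fin 3 → k
  Q : Fin 3 → k
  ind : LinearIndependent k ![P, Q]
  e : ℕ
  he : e ≤ 1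
  fa : R2 k
  fc : R2 k
  fd : R2 k
  ha : HomZ fa 3
  hc : HomZ fc (3 - 2 * e)
  hd : HomZ fd (3 + 2 * e)
  rel : fa ^ 2 + fc * fd = - sextic (lineVec P Q)

/-- the matrix by which `w` acts -/
noncomputable def Datum.phi {k : Type} [Field k] (D : Datum k) : Matrix (Fin 2) (Fin 2) (R2 k) :=
  !![D.fa, D.fd; D.fc, - D.fa]

/-- the action of `k[x,y,z,w]` on `k[s,t] ^ 2` -/
noncomputable def Datum.rho {k : Type} [Field k] (D : Datum k) :
    MvPolynomial (Fin 4) k →+* Module.End (R2 k) (Fin 2 → R2 k) :=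
  ((Polynomial.aeval (R := R2 k) (Matrix.toLin' D.phi)).toRingHom).comp
    (aeval (R := k) ((fun i : Fin 4 =>
      (if h : i.val < 3 then Polynomial.C (lineVec D.P D.Q ⟨i.val, h⟩) else
        (Polynomial.X : Polynomial (R2 k)))))).toRingHom

/-- the grading of `k[s,t](-(1-e)) ⊕ k[s,t](-(1+e))` -/
def grM (k : Type) [Field k] (e : ℕ) (n : ℤ) : Submodule k (Fin 2 → R2 k) where
  carrier := {p | HomZ (p 0) (n - (1 - e)) ∧ HomZ (p 1) (n - (1 + e))}
  zero_mem' := ⟨fun m h => by simp at h, fun m h => by simp at h⟩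
  add_mem' := by
    intro a b ha hb
    refine ⟨fun m h => ?_, fun m h => ?_⟩
    · by_cases h1 : coeff m (a 0) ≠ 0
      · exact ha.1 m h1
      · refine hb.1 m fun h2 => h ?_
        rw [not_not] at h1
        simp [h1, h2]
    · by_cases h1 : coeff m (a 1) ≠ 0
      · exact ha.2 m h1
      · refine hb.2 m fun h2 => h ?_
        rw [not_not] at h1
        simp [h1, h2]
  smul_mem' := by
    intro c a ha
    refine ⟨fun m h => ha.1 m fun h2 => h ?_, fun m h => ha.2 m fun h2 => h ?_⟩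
    · simp [h2]
    · simp [h2]

/-- isomorphism of sheaves -/
def Sheaf.Iso {k : Type} [Field k] (S T : Sheaf k) : Prop :=
  ∃ θ : S.M ≃ₗ[k] T.M, (∀ (i : Fin 4) (m : S.M), θ ((X i : MvPolynomial (Fin 4) k) • m) =
      (X i : MvPolynomial (Fin 4) k) • θ m) ∧
    ∀ (n : ℤ) (m : S.M), m ∈ S.gr n → θ m ∈ T.gr n


theorem rho_X {k : Type} [Field k] (D : Datum k) (i : Fin 3) (p : Fin 2 → R2 k) :
    D.rho (X i.castSucc) p = fun j => lineVec D.P D.Q i * p j := by
  have h : (i.castSucc : Fin 4).val < 3 := i.isLt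
  simp only [Datum.rho, RingHom.comp_apply, AlgHom.toRingHom_eq_coe, RingHom.coe_coe, aeval_X,
    dif_pos h, Polynomial.aeval_C, Fin.val_castSucc, Fin.eta]
  funext j
  simp [Module.algebraMap_end_apply]

theorem rho_X3 {k : Type} [Field k] (D : Datum k) (p : Fin 2 → R2 k) :
    D.rho (X 3) p = D.phi.mulVec p := by
  have h : ¬ (3 : Fin 4).val < 3 := by decide
  simp only [Datum.rho, RingHom.comp_apply, AlgHom.toRingHom_eq_coe, RingHom.coe_coe, aeval_X,
    dif_neg h, Polynomial.aeval_X, Matrix.toLin'_apply]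

theorem rho_C {k : Type} [Field k] (D : Datum k) (c : k) (p : Fin 2 → R2 k) :
    D.rho (C c) p = c • p := by
  simp only [Datum.rho, RingHom.comp_apply, AlgHom.toRingHom_eq_coe, RingHom.coe_coe]
  rw [← algebraMap_eq, AlgHom.commutes, IsScalarTower.algebraMap_apply k (R2 k)
    (Polynomial (R2 k)), AlgHom.commutes]
  funext j
  simp [Module.algebraMap_end_apply, algebraMap_eq, MvPolynomial.smul_eq_C_mul]

end Pool.Agent.Work.MP_2dff99_ag
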