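import Pool.Agent.Work.MP_2dff99_ag.Sx

open MvPolynomial

namespace Pool.Agent.Work.MP_2dff99_ag

/-- independence of two vectors through the minors -/
theorem ind_iff {k : Type} [Field k] (P Q : Fin 3 → k) :
    LinearIndependent k ![P, Q] ↔ ∃ i j, P i * Q j ≠ P j * Q i := by
  rw [LinearIndependent.pair_iff]
  constructor
  · intro h
    by_contra hn
    push Not at hn
    have hQ : ∀ j, Q j = 0 := by
      intro j
      by_contra hj
      have h1 := h (Q j) (-(P j)) (by
        ext i
        simp only [Pi.add_apply, Pi.smul_apply, smul_eq_mul, Pi.zero_apply]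
        linear_combination hn i j)
      exact hj h1.1
    have h1 := h 0 1 (by
      ext i
      simp [hQ i])
    exact one_ne_zero h1.2
  · rintro ⟨i, j, hij⟩ s t h
    have hi : s * P i + t * Q i = 0 := by simpa using congrFun h i
    have hj : s * P j + t * Q j = 0 := by simpa using congrFun h j
    have hd : P i * Q j - P j * Q i ≠ 0 := sub_ne_zero.mpr hij
    constructor
    · have : s * (P i * Q j - P j * Q i) = 0 := by linear_combination Q j * hi - Q i * hj
      exact (mul_eq_zero.mp this).resolve_right hd
    · have : t * (P i * Q j - P j * Q i) = 0 := by linear_combination P i * hj - P j * hi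
      exact (mul_eq_zero.mp this).resolve_right hd

/-- linear independence of two vectors is preserved by field extensions -/
theorem ind_map {L K : Type} [Field L] [Field K] (f : L →+* K) (P Q : Fin 3 → L)
    (h : LinearIndependent L ![P, Q]) :
    LinearIndependent K ![fun i => f (P i), fun i => f (Q i)] := by
  rw [ind_iff] at h ⊢
  obtain ⟨i, j, hij⟩ := h
  refine ⟨i, j, fun h => hij ?_⟩
  apply f.injective
  simpa using h

/-- extension of scalars of a datum -/
noncomputable def Datum.map {L K : Type} [Field L] [Field K] (f : L →+* K) (D : Datum L) :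
    Datum K where
  P := fun i => f (D.P i)
  Q := fun i => f (D.Q i)
  ind := ind_map f D.P D.Q D.ind
  e := D.e
  he := D.he
  fa := MvPolynomial.map f D.fa
  fc := MvPolynomial.map f D.fc
  fd := MvPolynomial.map f D.fd
  ha := homZ_map f D.ha
  hc := homZ_map f D.hc
  hd := homZ_map f D.hd
  rel := by
    rw [← map_sextic_line, ← map_pow, ← map_mul, ← map_add, D.rel, map_neg]

theorem phi_map {L K : Type} [Field L] [Field K] (f : L →+* K) (D : Datum L) :
    (D.map f).phi = D.phi.map (MvPolynomial.map f) := by
  ext i j
  fin_cases i <;> fin_cases j <;> simp [Datum.phi, Datum.map]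

end Pool.Agent.Work.MP_2dff99_ag
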