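import Pool.Agent.Work.MP_2dff99_ag.Final

open MvPolynomial Pool.Agent.Work.MP_2dff99_ag

namespace Pool.Agent.Results.MP_2dff99_ag.BrauerObstruction

/-- The sum of the local invariants of the Brauer class is nonzero at every adelic point, for all
local invariants that vanish exactly at the trivial classes. -/
def NoAdelicPoint : Prop :=
  ∀ (invR : RatPoint ℝ → AddCircle (1 : ℚ))
    (inv : ∀ p : Nat.Primes, (letI : Fact (p : ℕ).Prime := ⟨p.2⟩; RatPoint ℚ_[p]) → AddCircle (1 : ℚ)),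
    (∀ x, invR x = 0 ↔ x.Descends) →
    (∀ p x, inv p x = 0 ↔ (letI : Fact (p : ℕ).Prime := ⟨p.2⟩; x.Descends)) →
    ∀ (xR : RatPoint ℝ) (x : ∀ p : Nat.Primes, (letI : Fact (p : ℕ).Prime := ⟨p.2⟩; RatPoint ℚ_[p])),
      invR xR + ∑ᶠ p : Nat.Primes, inv p (x p) ≠ 0

theorem result :
    (∀ (k : Type) [Field k] [CharZero k] (v : Fin 3 → k), v ≠ 0 → ∃ i : Fin 3,
      eval v (pderiv i (sextic (fun j : Fin 3 => (X j : MvPolynomial (Fin 3) k)))) ≠ 0) ∧
    (∀ (k : Type) [Field k] [CharZero k] (S : Sheaf k), S.OfClass → S.Stable) ∧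
    (∀ (p : ℕ) [Fact p.Prime], Nonempty (RatPoint ℚ_[p])) ∧
    Nonempty (RatPoint ℝ) ∧
    (∀ (p : ℕ) [Fact p.Prime] (x : RatPoint ℚ_[p]), x.Descends) ∧
    (∀ x : RatPoint ℝ, ¬ x.Descends) ∧
    NoAdelicPoint := by
  have hp : ∀ (p : ℕ) [Fact p.Prime] (x : RatPoint ℚ_[p]), x.Descends := fun p _ x =>
    descends_of_split ℚ_[p] (split_all p) x
  refine ⟨fun k _ _ v hv => smooth_sextic k v hv, fun k _ _ S h => stable_of_class k S h,
    fun p _ => ?_, real_point, hp, real_not_descends, ?_⟩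
  · obtain ⟨D⟩ := exists_datum p
    exact ratPoint_of_datum _ D
  · intro invR inv h1 h2 xR x
    have h3 : ∑ᶠ p : Nat.Primes, inv p (x p) = 0 := by
      rw [← finsum_zero]
      congr 1
      ext p
      have : Fact (p : ℕ).Prime := ⟨p.2⟩
      exact (h2 p (x p)).2 (hp p (x p))
    rw [h3, add_zero]
    exact fun h => real_not_descends xR ((h1 xR).1 h)

end Pool.Agent.Results.MP_2dff99_ag.BrauerObstruction
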