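import Mathlib

open MvPolynomial

namespace Pool.Agent.Work.MP_2dff99_ag

/-- The matrix of multiplication by `x + y θ + z θ ^ 2` in the basis `1, θ, θ ^ 2`,
where `θ ^ 3 = 3 θ - 1`. -/
def mulMat {R : Type*} [CommRing R] (v : Fin 3 → R) : Matrix (Fin 3) (Fin 3) R :=
  !![v 0, -v 2, -v 1; v 1, v 0 + 3 * v 2, 3 * v 1 - v 2; v 2, v 1, v 0 + 3 * v 2]

/-- The ternary sextic form `Tr (4 (1 - θ) ^ 2 ξ ^ 6) + 11 N(ξ) ^ 2`, `ξ = x + y θ + z θ ^ 2`. -/
def sextic {R : Type*} [CommRing R] (v : Fin 3 → R) : R :=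
  4 * (mulMat ![1, -1, 0] ^ 2 * mulMat v ^ 6).trace + 11 * (mulMat v).det ^ 2

/-- A graded module `Γ_*(F)` for a coherent sheaf `F` without `0`-dimensional subsheaf on the
surface `w ^ 2 = - sextic (x, y, z)` in `P(1, 1, 1, 3)`. The variables `x, y, z, w` are
`X 0, X 1, X 2, X 3`. -/
structure Sheaf (k : Type) [Field k] where
  M : Type
  [grp : AddCommGroup M]
  [modk : Module k M]
  [modA : Module (MvPolynomial (Fin 4) k) M]
  [tower : IsScalarTower k (MvPolynomial (Fin 4) k) M]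
  gr : ℤ → Submodule k M
  internal : DirectSum.IsInternal gr
  deg1 : ∀ (i : Fin 3) (n : ℤ) (m : M), m ∈ gr n →
    (X i.castSucc : MvPolynomial (Fin 4) k) • m ∈ gr (n + 1)
  deg3 : ∀ (n : ℤ) (m : M), m ∈ gr n → (X 3 : MvPolynomial (Fin 4) k) • m ∈ gr (n + 3)
  fin : Module.Finite (MvPolynomial (Fin 4) k) M
  rel : ∀ m : M, ((X 3 : MvPolynomial (Fin 4) k) ^ 2 +
    sextic (fun i : Fin 3 => (X i.castSucc : MvPolynomial (Fin 4) k))) • m = 0
  sat0 : ∀ m : M, (∀ i : Fin 3, (X i.castSucc : MvPolynomial (Fin 4) k) • m = 0) → m = 0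
  sat1 : ∀ u : Fin 3 → M, (∀ i j : Fin 3, (X i.castSucc : MvPolynomial (Fin 4) k) • u j =
    (X j.castSucc : MvPolynomial (Fin 4) k) • u i) →
    ∃ m : M, ∀ i : Fin 3, u i = (X i.castSucc : MvPolynomial (Fin 4) k) • m

attribute [instance] Sheaf.grp Sheaf.modk Sheaf.modA Sheaf.tower

variable {k : Type} [Field k]

/-- The linear form with coefficients `c` kills the sheaf. -/
def Sheaf.Killed (S : Sheaf k) (c : Fin 3 → k) : Prop :=
  ∀ m : S.M, (∑ i : Fin 3, C (c i) * (X i.castSucc : MvPolynomial (Fin 4) k)) • m = 0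

/-- Mukai vector `(0, h, 0)`: the sheaf lives on a curve `C_ℓ` of the linear system `|h|`
(the preimage of a line `ℓ`) and has Hilbert polynomial `2 n`. -/
def Sheaf.OfClass (S : Sheaf k) : Prop :=
  (∃ c : Fin 3 → k, c ≠ 0 ∧ S.Killed c) ∧
  ∀ᶠ n : ℤ in Filter.atTop, (Module.finrank k (S.gr n) : ℤ) = 2 * n

/-- Stability with respect to `h` of a sheaf with Hilbert polynomial `2 n`: every nonzero
subsheaf different from the sheaf has Hilbert polynomial `a n + b` with `a > 0`, `b < 0`. -/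
def Sheaf.Stable (S : Sheaf k) : Prop :=
  ∀ N : Submodule (MvPolynomial (Fin 4) k) S.M,
    (N.restrictScalars k = ⨆ n : ℤ, N.restrictScalars k ⊓ S.gr n) → N ≠ ⊥ →
    (¬ ∀ᶠ n : ℤ in Filter.atTop, S.gr n ≤ N.restrictScalars k) →
    ∃ a b : ℤ, 0 < a ∧ b < 0 ∧ ∀ᶠ n : ℤ in Filter.atTop,
      (Module.finrank k (N.restrictScalars k ⊓ S.gr n : Submodule k S.M) : ℤ) = a * n + b

/-- The sheaf is isomorphic to its conjugate by `σ`: it has a graded `σ`-semilinear
automorphism commuting with the four variables. -/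
def Sheaf.Twist (S : Sheaf k) (σ : k →+* k) : Prop :=
  ∃ θ : S.M ≃+ S.M, (∀ (a : k) (m : S.M), θ (a • m) = σ a • θ m) ∧
    (∀ (i : Fin 4) (m : S.M), θ ((X i : MvPolynomial (Fin 4) k) • m) =
      (X i : MvPolynomial (Fin 4) k) • θ m) ∧
    ∀ (n : ℤ) (m : S.M), m ∈ S.gr n → θ m ∈ S.gr n

/-- `S` is the base change of `T` along the field extension `K / L`. -/
def BaseChange {L K : Type} [Field L] [Field K] [Algebra L K] (T : Sheaf L) (S : Sheaf K) :
    Prop :=
  ∃ ι : T.M →+ S.M, (∀ (a : L) (m : T.M), ι (a • m) = algebraMap L K a • ι m) ∧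
    (∀ (i : Fin 4) (m : T.M), ι ((X i : MvPolynomial (Fin 4) L) • m) =
      (X i : MvPolynomial (Fin 4) K) • ι m) ∧
    (∀ (n : ℤ) (m : T.M), m ∈ T.gr n → ι m ∈ S.gr n) ∧
    ∃ (J : Type) (b : Module.Basis J L T.M), LinearIndependent K (fun j => ι (b j)) ∧
      Submodule.span K (Set.range fun j => ι (b j)) = ⊤

/-- An `L`-rational point of the coarse moduli space: a stable sheaf of class `(0, h, 0)` over
the algebraic closure, isomorphic to all its Galois conjugates. -/
structure RatPoint (L : Type) [Field L] where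
  S : Sheaf (AlgebraicClosure L)
  ofClass : S.OfClass
  stable : S.Stable
  galois : ∀ σ : AlgebraicClosure L ≃ₐ[L] AlgebraicClosure L,
    S.Twist (σ : AlgebraicClosure L →+* AlgebraicClosure L)

/-- The Brauer class vanishes at the point: the isomorphism class is that of a sheaf
defined over `L`. -/
def RatPoint.Descends {L : Type} [Field L] (x : RatPoint L) : Prop :=
  ∃ T : Sheaf L, BaseChange T x.S

end Pool.Agent.Work.MP_2dff99_ag
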