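import Pool.Agent.Work.MP_2dff99_ag.Base

open MvPolynomial TensorProduct

namespace Pool.Agent.Work.MP_2dff99_ag

private theorem indep_eq {K M : Type} [Field K] [AddCommGroup M] [Module K M]
    (A B : ℤ → Submodule K M) (hB : iSupIndep B) (hle : ∀ j, A j ≤ B j) (htop : (⨆ j, A j) = ⊤)
    (n : ℤ) : A n = B n := by
  refine le_antisymm (hle n) ?_
  have h1 : A n ⊔ (⨆ (j) (_ : j ≠ n), A j) = ⊤ := by
    rw [eq_top_iff, ← htop]
    refine iSup_le fun j => ?_
    by_cases hj : j = n
    · subst hj
      exact le_sup_left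
    · refine le_trans ?_ le_sup_right
      exact le_iSup₂_of_le j hj le_rfl
  have h2 : (⨆ (j) (_ : j ≠ n), A j) ⊓ B n = ⊥ := by
    rw [eq_bot_iff]
    refine le_trans (inf_le_inf_right _ (iSup₂_mono fun j _ => hle j)) ?_
    rw [inf_comm]
    exact (hB n).le_bot
  have h3 := sup_inf_assoc_of_le (⨆ (j) (_ : j ≠ n), A j) (hle n)
  rw [h1, h2, top_inf_eq, sup_bot_eq] at h3
  exact h3.le

section
variable {L K : Type} [Field L] [Field K] [Algebra L K]
  {V W : Type} [AddCommGroup V] [Module L V] [AddCommGroup W] [Module K W]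

/-- any basis goes to a basis -/
private theorem basis_transport (ι : V →ₛₗ[algebraMap L K] W) {J : Type} (b : Module.Basis J L V)
    (h1 : LinearIndependent K (fun j => ι (b j)))
    (h2 : Submodule.span K (Set.range fun j => ι (b j)) = ⊤) {I : Type}
    (c : Module.Basis I L V) : ∃ c' : Module.Basis I K W, ∀ i, c' i = ι (c i) := by
  let bS : Module.Basis J K W := Module.Basis.mk h1 h2.ge
  let Φ : K ⊗[L] V ≃ₗ[K] W := (b.baseChange K).equiv bS (Equiv.refl J)
  have hΦb : ∀ j, Φ (1 ⊗ₜ b j) = ι (b j) := by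
    intro j
    have e1 : (1 : K) ⊗ₜ[L] b j = b.baseChange K j := by
      rw [Module.Basis.baseChange_apply]
    rw [e1, Module.Basis.equiv_apply, Equiv.refl_apply, Module.Basis.mk_apply]
  let g : V →ₛₗ[algebraMap L K] W :=
    { toFun := fun v => Φ (1 ⊗ₜ v)
      map_add' := fun v w => by rw [TensorProduct.tmul_add, map_add]
      map_smul' := fun a v => by
        rw [TensorProduct.tmul_smul, ← algebraMap_smul K a, map_smul] }
  have hg : g = ι := b.ext (fun j => hΦb j)
  refine ⟨(c.baseChange K).map Φ, fun i => ?_⟩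
  rw [Module.Basis.map_apply, Module.Basis.baseChange_apply]
  exact congrArg (fun f : V →ₛₗ[algebraMap L K] W => f (c i)) hg

private theorem coord_transport (ι : V →ₛₗ[algebraMap L K] W) {J : Type}
    (b : Module.Basis J L V) (bS : Module.Basis J K W) (h : ∀ j, bS j = ι (b j)) (l : J) (v : V) :
    bS.coord l (ι v) = algebraMap L K (b.coord l v) := by
  classical
  let f : V →ₛₗ[algebraMap L K] K :=
    { toFun := fun v => bS.coord l (ι v)
      map_add' := fun v w => by rw [map_add, map_add]
      map_smul' := fun a v => by rw [LinearMap.map_smulₛₗ, map_smul] }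
  let g : V →ₛₗ[algebraMap L K] K :=
    { toFun := fun v => algebraMap L K (b.coord l v)
      map_add' := fun v w => by rw [map_add, map_add]
      map_smul' := fun a v => by rw [map_smul, smul_eq_mul, map_mul, smul_eq_mul] }
  have hfg : f = g := by
    refine b.ext (fun j => ?_)
    change bS.coord l (ι (b j)) = algebraMap L K (b.coord l (b j))
    rw [← h j, Module.Basis.coord_apply, Module.Basis.coord_apply, Module.Basis.repr_self,
      Module.Basis.repr_self, Finsupp.single_apply, Finsupp.single_apply]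
    split_ifs <;> simp
  exact congrArg (fun f : V →ₛₗ[algebraMap L K] K => f v) hfg

end

/-- the Hilbert function does not change under base change -/
theorem finrank_of_baseChange {L K : Type} [Field L] [Field K] [Algebra L K] (T : Sheaf L)
    (S : Sheaf K) (h : BaseChange T S) (n : ℤ) :
    Module.finrank L (T.gr n) = Module.finrank K (S.gr n) := by
  classical
  obtain ⟨ι₀, h1, h2, h3, J, b, h4, h5⟩ := h
  let ι : T.M →ₛₗ[algebraMap L K] S.M :=
    { toFun := ι₀, map_add' := ι₀.map_add, map_smul' := fun a m => h1 a m }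
  let v : ∀ n, Module.Basis _ L (T.gr n) := fun n => Module.Basis.ofVectorSpace L (T.gr n)
  let c := T.internal.collectedBasis v
  obtain ⟨c', hc'⟩ := basis_transport ι b h4 h5 c
  have hcv : ∀ x, c x = (v x.1 x.2 : T.M) := by
    intro x
    exact congrFun (T.internal.collectedBasis_coe v) x
  let w : ∀ n, Module.Basis.ofVectorSpaceIndex L (T.gr n) → S.M := fun n i => ι (v n i : T.M)
  have hw : ∀ n i, w n i = c' ⟨n, i⟩ := by
    intro n i
    rw [hc', hcv]
  have hwli : ∀ n, LinearIndependent K (w n) := by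
    intro n
    have := c'.linearIndependent.comp (fun i : Module.Basis.ofVectorSpaceIndex L (T.gr n) =>
      (⟨n, i⟩ : Σ n, Module.Basis.ofVectorSpaceIndex L (T.gr n))) (by
        intro i j hij
        simpa using hij)
    have e : (w n) = c' ∘ (fun i : Module.Basis.ofVectorSpaceIndex L (T.gr n) =>
      (⟨n, i⟩ : Σ n, Module.Basis.ofVectorSpaceIndex L (T.gr n))) := by
      funext i
      exact hw n i
    rw [e]
    exact this
  have hS := (DirectSum.isInternal_submodule_iff_iSupIndep_and_iSup_eq_top S.gr).1 S.internal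
  have hspan : ∀ n, Submodule.span K (Set.range (w n)) = S.gr n := by
    refine indep_eq _ _ hS.1 (fun j => ?_) ?_
    · rw [Submodule.span_le]
      rintro _ ⟨i, rfl⟩
      exact h3 j _ (v j i).2
    · rw [eq_top_iff, ← c'.span_eq, Submodule.span_le]
      rintro _ ⟨⟨m, i⟩, rfl⟩
      refine Submodule.mem_iSup_of_mem m ?_
      rw [← hw]
      exact Submodule.subset_span ⟨i, rfl⟩
  rw [← hspan n, Module.finrank_eq_nat_card_basis (v n),
    Module.finrank_eq_nat_card_basis (Module.Basis.span (hwli n))]

/-- a sheaf whose base change has class `(0, h, 0)` has class `(0, h, 0)` -/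
theorem ofClass_of_baseChange {L K : Type} [Field L] [Field K] [Algebra L K] (T : Sheaf L)
    (S : Sheaf K) (h : BaseChange T S) (hS : S.OfClass) : T.OfClass := by
  classical
  have hfr := finrank_of_baseChange T S h
  obtain ⟨⟨Λ, hΛ, hk⟩, hd⟩ := hS
  refine ⟨?_, ?_⟩
  · obtain ⟨ι₀, h1, h2, h3, J, b, h4, h5⟩ := h
    let ι : T.M →ₛₗ[algebraMap L K] S.M :=
      { toFun := ι₀, map_add' := ι₀.map_add, map_smul' := fun a m => h1 a m }
    let bS : Module.Basis J K S.M := Module.Basis.mk h4 h5.ge
    have hbS : ∀ j, bS j = ι (b j) := fun j => Module.Basis.mk_apply _ _ _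
    obtain ⟨i₀, hi₀⟩ : ∃ i, Λ i ≠ 0 := by
      by_contra h'
      push Not at h'
      exact hΛ (funext h')
    obtain ⟨ψ, hψ⟩ : ∃ ψ : K →ₗ[L] L, ψ (Λ i₀) ≠ 0 := by
      by_contra h'
      push Not at h'
      exact hi₀ ((Module.forall_dual_apply_eq_zero_iff L (Λ i₀)).1 h')
    refine ⟨fun i => ψ (Λ i), fun h0 => hψ (congrFun h0 i₀), fun t => ?_⟩
    apply b.ext_elem
    intro l
    rw [map_zero, Finsupp.zero_apply, ← Module.Basis.coord_apply]
    have hsum : ∀ (R : Type) [Field R] (M : Type) [AddCommGroup M] [Module R M]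
        [Module (MvPolynomial (Fin 4) R) M] [IsScalarTower R (MvPolynomial (Fin 4) R) M]
        (c : Fin 3 → R) (m : M),
        (∑ i : Fin 3, C (c i) * (X i.castSucc : MvPolynomial (Fin 4) R)) • m =
          ∑ i : Fin 3, c i • ((X i.castSucc : MvPolynomial (Fin 4) R) • m) := by
      intro R _ M _ _ _ _ c m
      rw [Finset.sum_smul]
      refine Finset.sum_congr rfl fun i _ => ?_
      rw [mul_smul, ← MvPolynomial.algebraMap_eq, algebraMap_smul]
    have e1 := hk (ι t)
    rw [hsum] at e1
    have e2 : ∀ i : Fin 3, (X i.castSucc : MvPolynomial (Fin 4) K) • ι t =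
        ι ((X i.castSucc : MvPolynomial (Fin 4) L) • t) := fun i => (h2 i.castSucc t).symm
    simp only [e2] at e1
    have e3 := congrArg (bS.coord l) e1
    rw [map_sum, map_zero] at e3
    simp only [map_smul, coord_transport ι b bS hbS] at e3
    have e4 := congrArg ψ e3
    rw [map_sum, map_zero] at e4
    rw [hsum, map_sum]
    rw [← e4]
    refine Finset.sum_congr rfl fun i _ => ?_
    rw [(b.coord l).map_smul, smul_eq_mul, smul_eq_mul, mul_comm (Λ i),
      ← Algebra.smul_def, ψ.map_smul, smul_eq_mul, mul_comm]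
  · filter_upwards [hd] with n hn
    rw [hfr n, hn]

end Pool.Agent.Work.MP_2dff99_ag
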