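import Pool.Agent.Work.MP_2dff99_ag.FF

open Polynomial

namespace Pool.Agent.Work.MP_2dff99_ag

/-- reduction to degree 1 or 3 -/
theorem odd_point_small (p : ℕ) [Fact p.Prime] (hp : p ≠ 2) (F : (ZMod p)[X])
    (hF : F.natDegree = 6) (hsq : IsCoprime F (derivative F)) :
    (∃ r : ZMod p, r ≠ 0 ∧ F.leadingCoeff = r ^ 2) ∨
    (∃ a h : ZMod p, F.eval a = h ^ 2) ∨
    (∃ P h : (ZMod p)[X], P.Monic ∧ Irreducible P ∧ P.natDegree = 3 ∧ P ∣ F - h ^ 2) := by
  obtain ⟨P, h, hPm, hPi, hPd, hdvd⟩ := odd_point p hp F hF hsq
  have hF0 : F ≠ 0 := by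
    rintro rfl
    simp at hF
  -- a root of a divisor gives the second alternative
  have key : ∀ (c h : (ZMod p)[X]) (a : ZMod p), c.eval a = 0 → c ∣ F - h ^ 2 →
      ∃ a h : ZMod p, F.eval a = h ^ 2 := by
    intro c h a ha hc
    refine ⟨a, h.eval a, ?_⟩
    obtain ⟨q, hq⟩ := hc
    have h1 := congrArg (eval a) hq
    rw [eval_mul, ha, zero_mul, eval_sub, eval_pow] at h1
    exact sub_eq_zero.1 h1
  rcases hPd with hd | hd | hd
  · right; left
    obtain ⟨a, ha⟩ := exists_root_of_degree_eq_one ((degree_eq_iff_natDegree_eq_of_pos one_pos).2 hd)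
    exact key P h a ha hdvd
  · right; right
    exact ⟨P, h, hPm, hPi, hd, hdvd⟩
  · -- degree five
    set g := h %ₘ P with hg
    have hgdeg : g.natDegree < 5 := by
      rw [← hd]
      refine natDegree_modByMonic_lt _ hPm ?_
      rintro rfl
      simp at hd
    have hdvd2 : P ∣ F - g ^ 2 := by
      have h1 : P ∣ h - g := by
        have := modByMonic_add_div h P
        refine ⟨h /ₘ P, ?_⟩
        rw [hg]
        linear_combination -this
      have h2 : F - g ^ 2 = (F - h ^ 2) + (h - g) * (h + g) := by ring
      rw [h2]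
      exact dvd_add hdvd (h1.mul_right _)
    obtain ⟨c, hc⟩ := hdvd2
    have hc_dvd : c ∣ F - g ^ 2 := ⟨P, by rw [hc, mul_comm]⟩
    by_cases h4 : g.coeff 4 = 0
    · have hg3 : g.natDegree ≤ 3 := by
        by_contra hcon
        have h5 : g.natDegree = 4 := by omega
        have h6 : g ≠ 0 := by
          intro h0
          rw [h0] at h5
          simp at h5
        have := leadingCoeff_ne_zero.2 h6
        rw [leadingCoeff, h5] at this
        exact this h4
      have hcoef : (g ^ 2).coeff 6 = g.coeff 3 ^ 2 := by
        rw [sq, sq]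
        exact coeff_mul_add_eq_of_natDegree_le hg3 hg3
      have hlc : F.leadingCoeff = F.coeff 6 := by rw [leadingCoeff, hF]
      by_cases h6 : F.coeff 6 = g.coeff 3 ^ 2
      · left
        refine ⟨g.coeff 3, ?_, by rw [hlc, h6]⟩
        intro h0
        rw [h0] at h6
        have := leadingCoeff_ne_zero.2 hF0
        rw [hlc, h6] at this
        simp at this
      · right; left
        have hD : (F - g ^ 2).natDegree = 6 := by
          apply natDegree_eq_of_le_of_coeff_ne_zero
          · refine (natDegree_sub_le _ _).trans (max_le hF.le ?_)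
            refine natDegree_pow_le.trans ?_
            omega
          · rw [coeff_sub, hcoef]
            exact sub_ne_zero.2 h6
        have hc0 : c ≠ 0 := by
          rintro rfl
          rw [mul_zero] at hc
          rw [hc] at hD
          simp at hD
        rw [hc, natDegree_mul hPm.ne_zero hc0, hd] at hD
        have hc1 : c.natDegree = 1 := by omega
        obtain ⟨a, ha⟩ := exists_root_of_degree_eq_one ((degree_eq_iff_natDegree_eq_of_pos one_pos).2 hc1)
        exact key c g a ha hc_dvd
    · right
      have hg4 : g.natDegree = 4 := by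
        apply natDegree_eq_of_le_of_coeff_ne_zero (by omega) h4
      have hD : (F - g ^ 2).natDegree = 8 := by
        have h8 : (g ^ 2).natDegree = 8 := by rw [natDegree_pow, hg4]
        rw [natDegree_sub_eq_right_of_natDegree_lt (by rw [h8, hF]; norm_num), h8]
      have hc0 : c ≠ 0 := by
        rintro rfl
        rw [mul_zero] at hc
        rw [hc] at hD
        simp at hD
      rw [hc, natDegree_mul hPm.ne_zero hc0, hd] at hD
      have hc3 : c.natDegree = 3 := by omega
      by_cases hroot : ∃ a, c.eval a = 0
      · left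
        obtain ⟨a, ha⟩ := hroot
        exact key c g a ha hc_dvd
      · right
        have hirr : Irreducible c := by
          rw [irreducible_iff_roots_eq_zero_of_degree_le_three (by omega) (by omega)]
          rw [Multiset.eq_zero_iff_forall_notMem]
          intro a ha
          exact hroot ⟨a, (mem_roots hc0).1 ha⟩
        have hu : IsUnit (C c.leadingCoeff⁻¹) :=
          isUnit_C.2 (isUnit_iff_ne_zero.2 (inv_ne_zero (leadingCoeff_ne_zero.2 hc0)))
        have hassoc : Associated c (c * C c.leadingCoeff⁻¹) := associated_mul_unit_right c _ hu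
        refine ⟨c * C c.leadingCoeff⁻¹, g, monic_mul_leadingCoeff_inv hc0, ?_, ?_, ?_⟩
        · exact hassoc.irreducible hirr
        · rw [← hc3]
          exact (natDegree_eq_of_degree_eq (degree_eq_degree_of_associated hassoc)).symm
        · exact hassoc.symm.dvd.trans hc_dvd

end Pool.Agent.Work.MP_2dff99_ag
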