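import Mathlib

open Polynomial

namespace Pool.Agent.Work.MP_2dff99_ag

namespace Lift3

section field
variable {K : Type*} [Field K]

theorem solve (P g E : K[X]) (hP : P.Monic) (h3 : P.natDegree = 3) (hcop : IsCoprime P g)
    (hg : g.natDegree ≤ 3) (hE : E.natDegree ≤ 6) :
    ∃ c d : K[X], c.natDegree ≤ 3 ∧ d.natDegree ≤ 3 ∧ g * c + P * d = E := by
  obtain ⟨u, w, huw⟩ := hcop
  set c := (E * w) %ₘ P with hc
  have hdiv : (E * w) %ₘ P + P * ((E * w) /ₘ P) = E * w := modByMonic_add_div (E * w) P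
  have hP1 : P ≠ 1 := by
    rintro rfl
    simp at h3
  have hcdeg : c.natDegree < 3 := by
    rw [← h3]
    exact natDegree_modByMonic_lt _ hP hP1
  refine ⟨c, E * u + g * ((E * w) /ₘ P), hcdeg.le, ?_, ?_⟩
  · have hid : P * (E * u + g * ((E * w) /ₘ P)) = E - g * c := by
      have : g * c = g * (E * w) - g * (P * ((E * w) /ₘ P)) := by
        rw [hc]
        linear_combination g * hdiv
      rw [this]
      linear_combination E * huw
    have hdeg : (E - g * c).natDegree ≤ 6 := by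
      refine (natDegree_sub_le _ _).trans (max_le hE ?_)
      refine natDegree_mul_le.trans ?_
      omega
    rw [← hid] at hdeg
    by_cases hz : E * u + g * ((E * w) /ₘ P) = 0
    · rw [hz]; simp
    · rw [natDegree_mul hP.ne_zero hz, h3] at hdeg
      omega
  · have : g * c = g * (E * w) - g * (P * ((E * w) /ₘ P)) := by
      rw [hc]
      linear_combination g * hdiv
    linear_combination this + E * huw

theorem surj (h2 : (2 : K) ≠ 0) (F P h D0 E : K[X]) (hP : P.Monic) (hirr : Irreducible P)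
    (h3 : P.natDegree = 3) (hsep : IsCoprime F (derivative F)) (hh : h.natDegree < 3)
    (hD0 : D0.natDegree ≤ 3) (hF : P * D0 = F - h ^ 2) (hE : E.natDegree ≤ 6) :
    ∃ a b d : K[X], a.natDegree ≤ 3 ∧ b.natDegree ≤ 3 ∧ d.natDegree ≤ 3 ∧
      2 * h * a + P * d + b * D0 = E := by
  by_cases hz : h = 0
  · have hFP : F = P * D0 := by
      rw [hF, hz]
      ring
    have hcop : IsCoprime P D0 := by
      have hs : (P * D0).Separable := by
        rw [← hFP]
        exact hsep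
      exact hs.isCoprime
    obtain ⟨c, d, hc, hd, hcd⟩ := solve P D0 E hP h3 hcop hD0 hE
    refine ⟨0, c, d, by simp, hc, hd, ?_⟩
    rw [← hcd]
    ring
  · have hcop : IsCoprime P h := by
      rw [hirr.coprime_iff_not_dvd]
      intro hdvd
      have := natDegree_le_of_dvd hdvd hz
      omega
    obtain ⟨c, d, hc, hd, hcd⟩ := solve P h E hP h3 hcop hh.le hE
    refine ⟨C (2⁻¹) * c, 0, d, (natDegree_C_mul_le _ _).trans hc, by simp, hd, ?_⟩
    have e1 : (2 : K[X]) * C (2⁻¹) = 1 := by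
      have : (2 : K[X]) = C 2 := (map_ofNat (C : K →+* K[X]) 2).symm
      rw [this, ← C_mul, mul_inv_cancel₀ h2, C_1]
    rw [← hcd]
    linear_combination (h * c) * e1

end field

section padic
variable {p : ℕ} [Fact p.Prime]

/-- polynomial with given coefficients -/
noncomputable def lp (w : Fin 4 → ℤ_[p]) : ℤ_[p][X] := ∑ i : Fin 4, C (w i) * X ^ (i : ℕ)

theorem lp_deg (w : Fin 4 → ℤ_[p]) : (lp w).natDegree ≤ 3 := by
  unfold lp
  apply natDegree_sum_le_of_forall_le
  intro i _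
  refine (natDegree_C_mul_X_pow_le _ _).trans ?_
  omega

theorem lp_cont (n : ℕ) : Continuous (fun w : Fin 4 → ℤ_[p] => (lp w).coeff n) := by
  unfold lp
  simp only [finsetSum_coeff, coeff_C_mul, coeff_X_pow]
  fun_prop

theorem lp_add (w v : Fin 4 → ℤ_[p]) (c : ℤ_[p]) :
    lp (fun i => w i + c * v i) = lp w + C c * lp v := by
  unfold lp
  rw [Finset.mul_sum, ← Finset.sum_add_distrib]
  apply Finset.sum_congr rfl
  intro i _
  rw [C_add, C_mul]
  ring

theorem lp_lift (g : (ZMod p)[X]) (hg : g.natDegree ≤ 3) :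
    ∃ w : Fin 4 → ℤ_[p], (lp w).map PadicInt.toZMod = g := by
  have hex : ∀ a : ZMod p, ∃ x : ℤ_[p], PadicInt.toZMod x = a := fun a =>
    ⟨((a.val : ℕ) : ℤ_[p]), by rw [map_natCast, ZMod.natCast_zmod_val]⟩
  choose L hL using hex
  refine ⟨fun i => L (g.coeff i), ?_⟩
  unfold lp
  rw [Polynomial.map_sum]
  simp only [Polynomial.map_mul, Polynomial.map_C, Polynomial.map_pow, Polynomial.map_X, hL]
  rw [Fin.sum_univ_eq_sum_range (fun i => C (g.coeff i) * X ^ i) 4]
  exact (g.as_sum_range_C_mul_X_pow' (by omega)).symm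

theorem dvd_of_map (G : ℤ_[p][X]) (h : G.map PadicInt.toZMod = 0) :
    ∃ E : ℤ_[p][X], G = C (p : ℤ_[p]) * E := by
  have h1 : C (p : ℤ_[p]) ∣ G := by
    rw [C_dvd_iff_dvd_coeff]
    intro i
    have h2 : PadicInt.toZMod (G.coeff i) = 0 := by
      rw [← coeff_map, h, coeff_zero]
    have h3 : G.coeff i ∈ RingHom.ker (PadicInt.toZMod : ℤ_[p] →+* ZMod p) := h2
    rw [PadicInt.ker_toZMod, PadicInt.maximalIdeal_eq_span_p, Ideal.mem_span_singleton] at h3
    exact h3
  exact h1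

theorem approx (h2 : (2 : ZMod p) ≠ 0) (F : ℤ_[p][X]) (hF : F.natDegree ≤ 6)
    (hsq : IsCoprime (F.map PadicInt.toZMod) (derivative (F.map PadicInt.toZMod)))
    (P h D0 : (ZMod p)[X]) (hP : P.Monic) (hirr : Irreducible P) (h3 : P.natDegree = 3)
    (hh : h.natDegree < 3) (hD0 : D0.natDegree ≤ 3)
    (hFP : P * D0 = F.map PadicInt.toZMod - h ^ 2) (n : ℕ) :
    ∃ a b d : Fin 4 → ℤ_[p], (lp a).map PadicInt.toZMod = h ∧ (lp b).map PadicInt.toZMod = P ∧
      (lp d).map PadicInt.toZMod = D0 ∧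
      ∃ E : ℤ_[p][X], lp a ^ 2 + lp b * lp d - F = C ((p : ℤ_[p]) ^ (n + 1)) * E := by
  have hp0 : (p : ℤ_[p]) ≠ 0 := by
    exact_mod_cast (Fact.out : p.Prime).ne_zero
  induction n with
  | zero =>
    obtain ⟨a, ha⟩ := lp_lift h (by omega)
    obtain ⟨b, hb⟩ := lp_lift P (by omega)
    obtain ⟨d, hd⟩ := lp_lift D0 hD0
    refine ⟨a, b, d, ha, hb, hd, ?_⟩
    obtain ⟨E, hE⟩ := dvd_of_map (lp a ^ 2 + lp b * lp d - F) (by
      rw [Polynomial.map_sub, Polynomial.map_add, Polynomial.map_pow, Polynomial.map_mul, ha, hb,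
        hd]
      linear_combination hFP)
    exact ⟨E, by rw [hE]; simp⟩
  | succ n ih =>
    obtain ⟨a, b, d, ha, hb, hd, E, hE⟩ := ih
    set q : ℤ_[p] := (p : ℤ_[p]) ^ (n + 1) with hq
    have hq0 : q ≠ 0 := pow_ne_zero _ hp0
    have hqz : PadicInt.toZMod q = 0 := by
      rw [hq, map_pow, map_natCast, ZMod.natCast_self, zero_pow (Nat.succ_ne_zero n)]
    have hEdeg : E.natDegree ≤ 6 := by
      have e1 : (C q * E).natDegree ≤ 6 := by
        rw [← hE]
        refine (natDegree_sub_le _ _).trans (max_le ?_ hF)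
        refine (natDegree_add_le _ _).trans (max_le ?_ ?_)
        · refine (natDegree_pow_le).trans ?_
          have := lp_deg a
          omega
        · refine natDegree_mul_le.trans ?_
          have h4 := lp_deg b
          have h5 := lp_deg d
          omega
      rwa [natDegree_C_mul hq0] at e1
    obtain ⟨a', b', d', ha', hb', hd', hsol⟩ := surj h2 (F.map PadicInt.toZMod) P h D0
      (-(E.map PadicInt.toZMod)) hP hirr h3 hsq hh hD0 hFP (by
        rw [natDegree_neg]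
        exact natDegree_map_le.trans hEdeg)
    obtain ⟨a1, ha1⟩ := lp_lift a' ha'
    obtain ⟨b1, hb1⟩ := lp_lift b' hb'
    obtain ⟨d1, hd1⟩ := lp_lift d' hd'
    refine ⟨fun i => a i + q * a1 i, fun i => b i + q * b1 i, fun i => d i + q * d1 i, ?_, ?_, ?_,
      ?_⟩
    · rw [lp_add, Polynomial.map_add, Polynomial.map_mul, Polynomial.map_C, hqz, ha]
      simp
    · rw [lp_add, Polynomial.map_add, Polynomial.map_mul, Polynomial.map_C, hqz, hb]
      simp
    · rw [lp_add, Polynomial.map_add, Polynomial.map_mul, Polynomial.map_C, hqz, hd]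
      simp
    · obtain ⟨E', hE'⟩ := dvd_of_map (E + 2 * lp a * lp a1 + lp b * lp d1 + lp b1 * lp d +
        C q * (lp a1 ^ 2 + lp b1 * lp d1)) (by
          simp only [Polynomial.map_add, Polynomial.map_mul, Polynomial.map_pow, Polynomial.map_C,
            ha, hb, hd, ha1, hb1, hd1, hqz, C_0, zero_mul, add_zero, Polynomial.map_ofNat]
          linear_combination hsol)
      refine ⟨E', ?_⟩
      rw [lp_add, lp_add, lp_add]
      have e2 : C ((p : ℤ_[p]) ^ (n + 1 + 1)) = C q * C (p : ℤ_[p]) := by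
        rw [← C_mul, hq, ← pow_succ]
      rw [e2]
      linear_combination hE + C q * hE'

end padic

end Lift3

/-- lifting `F = A ^ 2 + C D` from `F_p` to `ℤ_p` -/
theorem lift_cubic (p : ℕ) [Fact p.Prime] (hp : p ≠ 2) (F : ℤ_[p][X]) (hF : F.natDegree ≤ 6)
    (hsq : IsCoprime (F.map PadicInt.toZMod) (derivative (F.map PadicInt.toZMod)))
    (P h : (ZMod p)[X]) (hP : P.Monic) (hirr : Irreducible P) (h3 : P.natDegree = 3)
    (hdvd : P ∣ F.map PadicInt.toZMod - h ^ 2) :
    ∃ A B D : ℤ_[p][X], A.natDegree ≤ 3 ∧ B.natDegree ≤ 3 ∧ D.natDegree ≤ 3 ∧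
      A ^ 2 + B * D = F := by
  have h2 : (2 : ZMod p) ≠ 0 := by
    intro h0
    have h4 : ((2 : ℕ) : ZMod p) = 0 := by exact_mod_cast h0
    rw [ZMod.natCast_eq_zero_iff] at h4
    exact hp ((Nat.prime_dvd_prime_iff_eq Fact.out Nat.prime_two).mp h4)
  have hP1 : P ≠ 1 := by
    rintro rfl
    simp at h3
  -- reduce h
  set h' := h %ₘ P with hh'
  have hdiv : h %ₘ P + P * (h /ₘ P) = h := modByMonic_add_div h P
  have hh3 : h'.natDegree < 3 := by
    rw [← h3]
    exact natDegree_modByMonic_lt _ hP hP1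
  have hdvd' : P ∣ F.map PadicInt.toZMod - h' ^ 2 := by
    have e1 : F.map PadicInt.toZMod - h' ^ 2 =
        (F.map PadicInt.toZMod - h ^ 2) + P * ((h /ₘ P) * (h + h')) := by
      have e2 : h - h' = P * (h /ₘ P) := by
        rw [hh']
        linear_combination -hdiv
      linear_combination (h + h') * e2
    rw [e1]
    exact dvd_add hdvd (dvd_mul_right _ _)
  obtain ⟨D0, hD0⟩ := hdvd'
  have hD0deg : D0.natDegree ≤ 3 := by
    have e1 : (F.map PadicInt.toZMod - h' ^ 2).natDegree ≤ 6 := by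
      refine (natDegree_sub_le _ _).trans (max_le (natDegree_map_le.trans hF) ?_)
      refine natDegree_pow_le.trans ?_
      omega
    rw [hD0] at e1
    by_cases hz : D0 = 0
    · rw [hz]; simp
    · rw [natDegree_mul hP.ne_zero hz, h3] at e1
      omega
  have happ := Lift3.approx h2 F hF hsq P h' D0 hP hirr h3 hh3 hD0deg hD0.symm
  -- compactness
  set S : ℕ → Set ((Fin 4 → ℤ_[p]) × (Fin 4 → ℤ_[p]) × (Fin 4 → ℤ_[p])) := fun n =>
    {v | ∀ k, ‖(Lift3.lp v.1 ^ 2 + Lift3.lp v.2.1 * Lift3.lp v.2.2 - F).coeff k‖ ≤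
      ((p : ℝ)⁻¹) ^ (n + 1)} with hS
  have hp1 : (1 : ℝ) < p := by exact_mod_cast (Fact.out : p.Prime).one_lt
  have hclosed : ∀ n, IsClosed (S n) := by
    intro n
    have hSn : S n = ⋂ k : ℕ, {v : (Fin 4 → ℤ_[p]) × (Fin 4 → ℤ_[p]) × (Fin 4 → ℤ_[p]) |
        ‖(Lift3.lp v.1 ^ 2 + Lift3.lp v.2.1 * Lift3.lp v.2.2 - F).coeff k‖ ≤
          ((p : ℝ)⁻¹) ^ (n + 1)} := by
      ext v
      simp only [hS, Set.mem_iInter]
      rfl
    rw [hSn]
    refine isClosed_iInter fun k => isClosed_le (continuous_norm.comp ?_) continuous_const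
    have e1 : ∀ v : (Fin 4 → ℤ_[p]) × (Fin 4 → ℤ_[p]) × (Fin 4 → ℤ_[p]),
        (Lift3.lp v.1 ^ 2 + Lift3.lp v.2.1 * Lift3.lp v.2.2 - F).coeff k =
        ∑ x ∈ Finset.HasAntidiagonal.antidiagonal k, (Lift3.lp v.1).coeff x.1 * (Lift3.lp v.1).coeff x.2 +
        ∑ x ∈ Finset.HasAntidiagonal.antidiagonal k, (Lift3.lp v.2.1).coeff x.1 * (Lift3.lp v.2.2).coeff x.2 -
        F.coeff k := by
      intro v
      rw [coeff_sub, coeff_add, sq, coeff_mul, coeff_mul]
    simp only [e1]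
    refine ((continuous_finsetSum _ fun x _ => ?_).add (continuous_finsetSum _ fun x _ => ?_)).sub
      continuous_const
    · exact ((Lift3.lp_cont x.1).comp continuous_fst).mul ((Lift3.lp_cont x.2).comp continuous_fst)
    · exact ((Lift3.lp_cont x.1).comp (continuous_fst.comp continuous_snd)).mul
        ((Lift3.lp_cont x.2).comp (continuous_snd.comp continuous_snd))
  have hne : (⋂ n, S n).Nonempty := by
    apply IsCompact.nonempty_iInter_of_sequence_nonempty_isCompact_isClosed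
    · intro n v hv k
      refine (hv k).trans ?_
      apply pow_le_pow_of_le_one (by positivity) (inv_le_one_of_one_le₀ hp1.le)
      omega
    · intro n
      obtain ⟨a, b, d, _, _, _, E, hE⟩ := happ n
      refine ⟨(a, b, d), fun k => ?_⟩
      simp only
      rw [hE, coeff_C_mul, norm_mul, norm_pow, PadicInt.norm_p]
      calc ((p : ℝ)⁻¹) ^ (n + 1) * ‖E.coeff k‖ ≤ ((p : ℝ)⁻¹) ^ (n + 1) * 1 :=
            mul_le_mul_of_nonneg_left (PadicInt.norm_le_one _) (by positivity)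
        _ = _ := mul_one _
    · exact (hclosed 0).isCompact
    · exact hclosed
  obtain ⟨v, hv⟩ := hne
  refine ⟨Lift3.lp v.1, Lift3.lp v.2.1, Lift3.lp v.2.2, Lift3.lp_deg _, Lift3.lp_deg _,
    Lift3.lp_deg _, ?_⟩
  have hzero : Lift3.lp v.1 ^ 2 + Lift3.lp v.2.1 * Lift3.lp v.2.2 - F = 0 := by
    ext k
    rw [coeff_zero]
    have hk : ∀ n : ℕ, ‖(Lift3.lp v.1 ^ 2 + Lift3.lp v.2.1 * Lift3.lp v.2.2 - F).coeff k‖ ≤
        ((p : ℝ)⁻¹) ^ (n + 1) := fun n => Set.mem_iInter.mp hv n k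
    have ht : Filter.Tendsto (fun n : ℕ => ((p : ℝ)⁻¹) ^ (n + 1)) Filter.atTop (nhds 0) := by
      have := tendsto_pow_atTop_nhds_zero_of_lt_one (r := (p : ℝ)⁻¹) (by positivity)
        (inv_lt_one_of_one_lt₀ hp1)
      exact this.comp (Filter.tendsto_add_atTop_nat 1)
    have h5 : ‖(Lift3.lp v.1 ^ 2 + Lift3.lp v.2.1 * Lift3.lp v.2.2 - F).coeff k‖ ≤ 0 :=
      ge_of_tendsto' ht hk
    exact norm_le_zero_iff.mp h5
  linear_combination hzero

end Pool.Agent.Work.MP_2dff99_ag
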