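import Pool.Agent.Work.MP_2dff99_ag.LocG

namespace Pool.Agent.Work.MP_2dff99_ag

namespace Loc3

theorem maskOk : LocG.MaskOk (3 ^ 3) (3 ^ 2) 38348434 := by
  have key : ∀ r < 3 ^ 3, (38348434 : ℕ).testBit r = true →
      ∃ w < 27, (w * w) % 3 ^ 3 = r ∧ ¬ 3 ^ 2 ∣ 2 * w := by
    decide +kernel
  intro r hr h
  obtain ⟨w, -, h1, h2⟩ := key r hr h
  exact ⟨w, h1, h2⟩

theorem check : LocG.chk (3 ^ 3) 38348434 [(0, 1), (1, 0)] = true := by
  decide +kernel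

end Loc3

/-- every line over `ℚ_3` contains a point at which `- sextic` is a nonzero square -/
theorem loc_point_three [Fact (Nat.Prime 3)] (P Q : Fin 3 → ℚ_[3])
    (ind : LinearIndependent ℚ_[3] ![P, Q]) :
    ∃ s t r : ℚ_[3], r ≠ 0 ∧ - sextic (fun i => s * P i + t * Q i) = r ^ 2 :=
  LocG.loc_general 3 3 2 (by norm_num) _ _ Loc3.maskOk Loc3.check P Q ind

end Pool.Agent.Work.MP_2dff99_ag
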