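import Pool.Agent.Work.MP_2dff99_ag.PointD
import Pool.Agent.Work.MP_2dff99_ag.FFred
import Pool.Agent.Work.MP_2dff99_ag.Lift3
import Pool.Agent.Work.MP_2dff99_ag.Loc2
import Pool.Agent.Work.MP_2dff99_ag.Loc3

open Polynomial

namespace Pool.Agent.Work.MP_2dff99_ag

namespace ExistP

theorem toZMod_eq_zero_iff {p : ℕ} [Fact p.Prime] (x : ℤ_[p]) :
    PadicInt.toZMod x = 0 ↔ ‖x‖ < 1 := by
  rw [← RingHom.mem_ker, PadicInt.ker_toZMod, IsLocalRing.mem_maximalIdeal, PadicInt.mem_nonunits]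

theorem eval_toZMod {p : ℕ} [Fact p.Prime] (F : ℤ_[p][X]) (b : ℤ_[p]) :
    (F.map PadicInt.toZMod).eval (PadicInt.toZMod b) = PadicInt.toZMod (F.eval b) := by
  rw [Polynomial.eval_map, Polynomial.eval₂_at_apply]

/-- simple roots lift -/
theorem root_lift {p : ℕ} [Fact p.Prime] (F : ℤ_[p][X]) (a : ZMod p)
    (h0 : (F.map PadicInt.toZMod).eval a = 0)
    (h1 : (derivative (F.map PadicInt.toZMod)).eval a ≠ 0) :
    ∃ z : ℤ_[p], F.eval z = 0 ∧ PadicInt.toZMod z = a := by
  obtain ⟨b, rfl⟩ := ZMod.ringHom_surjective (PadicInt.toZMod (p := p)) a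
  rw [eval_toZMod, toZMod_eq_zero_iff] at h0
  rw [Polynomial.derivative_map, eval_toZMod, ne_eq, toZMod_eq_zero_iff] at h1
  have h2 : ‖(derivative F).eval b‖ = 1 := le_antisymm (PadicInt.norm_le_one _) (not_lt.1 h1)
  obtain ⟨z, hz, hz1, -, -⟩ := hensels_lemma (F := F) (a := b) (by
    rw [Polynomial.coe_aeval_eq_eval, h2]; simpa using h0)
  rw [Polynomial.coe_aeval_eq_eval] at hz hz1
  refine ⟨z, hz, ?_⟩
  rw [h2, ← toZMod_eq_zero_iff, map_sub, sub_eq_zero] at hz1
  exact hz1

theorem two_ne_zero' {p : ℕ} [Fact p.Prime] (hp : p ≠ 2) : (2 : ZMod p) ≠ 0 := by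
  intro h
  have h1 : ((2 : ℕ) : ZMod p) = 0 := by exact_mod_cast h
  rw [ZMod.natCast_eq_zero_iff] at h1
  rcases (Nat.dvd_prime Nat.prime_two).1 h1 with h2 | h2
  · exact (Fact.out : p.Prime).one_lt.ne' h2
  · exact hp h2

/-- nonzero squares lift -/
theorem sq_lift {p : ℕ} [Fact p.Prime] (hp : p ≠ 2) (x : ℤ_[p]) (r : ZMod p) (hr : r ≠ 0)
    (h : PadicInt.toZMod x = r ^ 2) : ∃ y : ℤ_[p], y ^ 2 = x := by
  obtain ⟨y, hy, -⟩ := root_lift (X ^ 2 - C x) r (by simp [h]) (by
    simp only [Polynomial.map_sub, Polynomial.map_pow, Polynomial.map_X, Polynomial.map_C,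
      derivative_sub, derivative_C, derivative_X_pow, sub_zero, Polynomial.eval_mul,
      Polynomial.eval_pow, Polynomial.eval_X, Polynomial.eval_C]
    simpa [hr] using two_ne_zero' hp)
  refine ⟨y, ?_⟩
  simpa [sub_eq_zero] using hy

/-- the restriction of the sextic to the line through `(1,0,0)` and `(2,0,-1)` -/
noncomputable def gZ : ℤ[X] :=
  515 - 1506 * X + 3159 * X ^ 2 - 2138 * X ^ 3 + 1194 * X ^ 4 - 288 * X ^ 5 + 47 * X ^ 6

noncomputable def uZ : ℤ[X] :=
  289837131437789202 - 350928194784329262 * X + 261321298746757974 * X ^ 2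
    - 78766070018683794 * X ^ 3 + 14960821949197152 * X ^ 4

noncomputable def vZ : ℤ[X] :=
  59138515216862735 - 161743427037915902 * X + 117838260149565779 * X ^ 2
    - 65071938239072713 * X ^ 3 + 15674201221417027 * X ^ 4 - 2493470324866192 * X ^ 5

theorem deriv_gZ : derivative gZ = -1506 + 6318 * X - 6414 * X ^ 2 + 4776 * X ^ 3 - 1440 * X ^ 4
    + 282 * X ^ 5 := by
  have h : ∀ (n : ℤ) (m : ℕ), derivative (C n * X ^ (m + 1) : ℤ[X]) = C (n * ((m : ℤ) + 1)) * X ^ m := by
    intro n m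
    rw [derivative_C_mul, derivative_X_pow]
    simp
    ring
  have e : gZ = C 515 - C 1506 * X ^ (0 + 1) + C 3159 * X ^ (1 + 1) - C 2138 * X ^ (2 + 1)
      + C 1194 * X ^ (3 + 1) - C 288 * X ^ (4 + 1) + C 47 * X ^ (5 + 1) := by
    simp [gZ]
  rw [e]
  simp only [derivative_add, derivative_sub, h, derivative_C]
  norm_num

theorem bezout_gZ : uZ * gZ + vZ * derivative gZ = 60203518773866160120 := by
  rw [deriv_gZ]
  unfold uZ gZ vZ
  ring

theorem natDegree_gZ : gZ.natDegree = 6 := by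
  unfold gZ
  compute_degree!

theorem lc_gZ : gZ.leadingCoeff = 47 := by
  unfold Polynomial.leadingCoeff
  rw [natDegree_gZ]
  unfold gZ
  simp [Polynomial.coeff_X, Polynomial.coeff_X_pow]

theorem eval_gZ {R : Type*} [CommRing R] (a : R) :
    (gZ.map (Int.castRingHom R)).eval a =
      sextic (fun i => a * (![1, 0, 0] : Fin 3 → R) i + (![2, 0, -1] : Fin 3 → R) i) := by
  rw [sextic_expand]
  simp [gZ]
  ring

/-- two points of the plane -/
theorem ind_e01 (L : Type) [Field L] : LinearIndependent L ![(![1, 0, 0] : Fin 3 → L), ![0, 1, 0]] := by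
  rw [LinearIndependent.pair_iff]
  intro s t hst
  have h0 := congrFun hst 0
  have h1 := congrFun hst 1
  simp at h0 h1
  exact ⟨h0, h1⟩

theorem ind_PQ (L : Type) [Field L] : LinearIndependent L ![(![1, 0, 0] : Fin 3 → L), ![2, 0, -1]] := by
  rw [LinearIndependent.pair_iff]
  intro s t hst
  have h0 := congrFun hst 0
  have h2 := congrFun hst 2
  simp at h0 h2
  subst h2
  simp at h0
  exact ⟨h0, rfl⟩

/-- a point of the surface on a line -/
theorem datum_of_line (L : Type) [Field L] (P Q : Fin 3 → L)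
    (h : ∃ s t r : L, r ≠ 0 ∧ - sextic (fun i => s * P i + t * Q i) = r ^ 2) :
    Nonempty (Datum L) := by
  obtain ⟨s, t, r, hr, h⟩ := h
  refine datum_of_point L _ ?_ r h
  intro h0
  rw [h0] at h
  have : sextic (0 : Fin 3 → L) = 0 := by rw [sextic_expand]; simp
  rw [this, neg_zero] at h
  exact hr (pow_eq_zero_iff (two_ne_zero)|>.1 h.symm)

theorem map_gZ {R S : Type*} [CommRing R] [CommRing S] (f : R →+* S) :
    (-(gZ.map (Int.castRingHom R))).map f = -(gZ.map (Int.castRingHom S)) := by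
  rw [Polynomial.map_neg, Polynomial.map_map]
  congr 2
  exact Subsingleton.elim _ _

theorem coprime_gZ {p : ℕ} [Fact p.Prime] (h : ((60203518773866160120 : ℤ) : ZMod p) ≠ 0) :
    IsCoprime (-(gZ.map (Int.castRingHom (ZMod p))))
      (derivative (-(gZ.map (Int.castRingHom (ZMod p))))) := by
  rw [derivative_neg]
  refine IsCoprime.neg_neg ?_
  have hb := congrArg (Polynomial.map (Int.castRingHom (ZMod p))) bezout_gZ
  rw [Polynomial.map_add, Polynomial.map_mul, Polynomial.map_mul, ← Polynomial.derivative_map] at hb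
  have hc : (60203518773866160120 : ℤ[X]) = C 60203518773866160120 := by simp
  rw [hc, Polynomial.map_C] at hb
  refine ⟨C (((60203518773866160120 : ℤ) : ZMod p)⁻¹) * uZ.map (Int.castRingHom (ZMod p)),
    C (((60203518773866160120 : ℤ) : ZMod p)⁻¹) * vZ.map (Int.castRingHom (ZMod p)), ?_⟩
  rw [mul_assoc, mul_assoc, ← mul_add, hb, ← C_mul]
  have : (((60203518773866160120 : ℤ) : ZMod p)⁻¹) * (Int.castRingHom (ZMod p)) 60203518773866160120 = 1 := by
    rw [eq_intCast]
    exact inv_mul_cancel₀ h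
  rw [this, C_1]

theorem natDegree_map_gZ {p : ℕ} [Fact p.Prime] (h : ((47 : ℤ) : ZMod p) ≠ 0) :
    (-(gZ.map (Int.castRingHom (ZMod p)))).natDegree = 6 ∧
      (-(gZ.map (Int.castRingHom (ZMod p)))).leadingCoeff = -((47 : ℤ) : ZMod p) := by
  have h' : (Int.castRingHom (ZMod p)) gZ.leadingCoeff ≠ 0 := by
    rw [lc_gZ, eq_intCast]; exact h
  constructor
  · rw [natDegree_neg, Polynomial.natDegree_map_of_leadingCoeff_ne_zero _ h', natDegree_gZ]
  · rw [leadingCoeff_neg, Polynomial.leadingCoeff_map_of_leadingCoeff_ne_zero _ h', lc_gZ, eq_intCast]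

/-- bad primes: an explicit point -/
theorem bad {p : ℕ} [Fact p.Prime] (hp : p ≠ 2) (h : (p : ℤ) ∣ 485179249377865145) :
    Nonempty (Datum ℚ_[p]) := by
  have hN : ((485179249377865145 : ℤ) : ZMod p) = 0 := by
    rw [ZMod.intCast_zmod_eq_zero_iff_dvd]; exact h
  have hW : ((389173332095357462 : ℤ) : ZMod p) ≠ 0 := by
    intro h0
    have e : (-62140291441848792 : ℤ) * 389173332095357462 + 49844143806254489 * 485179249377865145 = 1 := by
      norm_num
    have := congrArg (Int.cast : ℤ → ZMod p) e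
    rw [Int.cast_add, Int.cast_mul, Int.cast_mul, h0, hN] at this
    simp at this
  have hsq : PadicInt.toZMod (-71104511 : ℤ_[p]) = ((389173332095357462 : ℤ) : ZMod p) ^ 2 := by
    have e : (389173332095357462 : ℤ) ^ 2 + 71104511 = 485179249377865145 * 312164798079085179 := by
      norm_num
    have e2 := congrArg (Int.cast : ℤ → ZMod p) e
    rw [Int.cast_add, Int.cast_pow, Int.cast_mul, hN, zero_mul] at e2
    have e3 : PadicInt.toZMod (-71104511 : ℤ_[p]) = ((-71104511 : ℤ) : ZMod p) := by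
      have : (-71104511 : ℤ_[p]) = ((-71104511 : ℤ) : ℤ_[p]) := by norm_num
      rw [this, map_intCast]
    rw [e3]
    push_cast at e2 ⊢
    linear_combination -e2
  obtain ⟨y, hy⟩ := sq_lift hp _ _ hW hsq
  refine datum_of_point ℚ_[p] ![-3, -2, 3] ?_ (y : ℚ_[p]) ?_
  · intro h0
    have := congrFun h0 2
    simp at this
  · have hy' : ((y : ℚ_[p])) ^ 2 = -71104511 := by
      have := congrArg (fun z : ℤ_[p] => (z : ℚ_[p])) hy
      push_cast at this
      exact this
    rw [hy', sextic_expand]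
    simp
    norm_num

/-- points coming from integral points of the line -/
theorem datum_of_value {p : ℕ} [Fact p.Prime] (b y : ℤ_[p])
    (h : (-(gZ.map (Int.castRingHom ℤ_[p]))).eval b = y ^ 2) : Nonempty (Datum ℚ_[p]) := by
  rw [Polynomial.eval_neg, eval_gZ] at h
  refine datum_of_point ℚ_[p] (fun i => (b : ℚ_[p]) * (![1, 0, 0] : Fin 3 → ℚ_[p]) i
    + (![2, 0, -1] : Fin 3 → ℚ_[p]) i) ?_ (y : ℚ_[p]) ?_
  · intro h0
    have := congrFun h0 2
    simp at this
  · have h2 := congrArg (PadicInt.Coe.ringHom (p := p)) h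
    rw [map_neg, sextic_map, map_pow] at h2
    rw [show (y : ℚ_[p]) = PadicInt.Coe.ringHom y from rfl, ← h2]
    congr 2
    funext i
    fin_cases i
    · simp
      norm_cast
    · simp
    · simp

end ExistP

/-- local points exist at all primes -/
theorem exists_datum (p : ℕ) [Fact p.Prime] : Nonempty (Datum ℚ_[p]) := by
  by_cases h2 : p = 2
  · subst h2
    exact ExistP.datum_of_line _ _ _ (loc_point_two _ _ (ExistP.ind_e01 _))
  by_cases h3 : p = 3
  · subst h3
    exact ExistP.datum_of_line _ _ _ (loc_point_three _ _ (ExistP.ind_e01 _))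
  by_cases hN : (p : ℤ) ∣ 485179249377865145
  · exact ExistP.bad h2 hN
  have hpp : Prime (p : ℤ) := Nat.prime_iff_prime_int.1 Fact.out
  have h47 : ((47 : ℤ) : ZMod p) ≠ 0 := by
    rw [ne_eq, ZMod.intCast_zmod_eq_zero_iff_dvd]
    exact fun h => hN (h.trans ⟨10322962752720535, by norm_num⟩)
  have hnd : ∀ q : ℕ, q.Prime → q ≠ p → ¬ (p : ℤ) ∣ (q : ℤ) := by
    intro q hq hqp h
    rw [Int.natCast_dvd_natCast] at h
    rcases (Nat.dvd_prime hq).1 h with h' | h'
    · exact (Fact.out : p.Prime).one_lt.ne' h'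
    · exact hqp h'.symm
  have hD : ((60203518773866160120 : ℤ) : ZMod p) ≠ 0 := by
    rw [ne_eq, ZMod.intCast_zmod_eq_zero_iff_dvd]
    intro h
    have e : (60203518773866160120 : ℤ) = 2 ^ 3 * (3 ^ 6 * 10322962752720535) := by norm_num
    rw [e] at h
    rcases hpp.dvd_or_dvd h with h | h
    · exact hnd 2 Nat.prime_two (Ne.symm h2) (by exact_mod_cast hpp.dvd_of_dvd_pow h)
    · rcases hpp.dvd_or_dvd h with h | h
      · exact hnd 3 Nat.prime_three (Ne.symm h3) (by exact_mod_cast hpp.dvd_of_dvd_pow h)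
      · exact hN (h.trans ⟨47, by norm_num⟩)
  have hco := ExistP.coprime_gZ hD
  obtain ⟨hdeg, hlc⟩ := ExistP.natDegree_map_gZ h47
  rcases odd_point_small p h2 _ hdeg hco with ⟨r, hr, h⟩ | ⟨a, h, hh⟩ | ⟨P, h, hP, hirr, hP3, hdvd⟩
  · rw [hlc] at h
    have h' : PadicInt.toZMod (-47 : ℤ_[p]) = r ^ 2 := by
      rw [← h]
      have : (-47 : ℤ_[p]) = ((-47 : ℤ) : ℤ_[p]) := by norm_num
      rw [this, map_intCast]; push_cast; rfl
    obtain ⟨y, hy⟩ := ExistP.sq_lift h2 _ r hr h'
    refine datum_of_point ℚ_[p] ![1, 0, 0] ?_ (y : ℚ_[p]) ?_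
    · intro h0
      have := congrFun h0 0
      simp at this
    · have hy' : ((y : ℚ_[p])) ^ 2 = -47 := by
        have := congrArg (fun z : ℤ_[p] => (z : ℚ_[p])) hy
        push_cast at this
        exact this
      rw [hy', sextic_expand]
      simp
  · by_cases h0 : h = 0
    · subst h0
      have hd : (derivative (-(ExistP.gZ.map (Int.castRingHom (ZMod p))))).eval a ≠ 0 := by
        intro hd
        obtain ⟨u, v, huv⟩ := hco
        have := congrArg (Polynomial.eval a) huv
        rw [Polynomial.eval_add, Polynomial.eval_mul, Polynomial.eval_mul, hh, hd] at this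
        simp at this
      rw [← ExistP.map_gZ (PadicInt.toZMod (p := p))] at hh hd
      obtain ⟨z, hz, -⟩ := ExistP.root_lift _ a (by simpa using hh) hd
      exact ExistP.datum_of_value z 0 (by rw [hz]; simp)
    · obtain ⟨b, rfl⟩ := ZMod.ringHom_surjective (PadicInt.toZMod (p := p)) a
      rw [← ExistP.map_gZ (PadicInt.toZMod (p := p)), ExistP.eval_toZMod] at hh
      obtain ⟨y, hy⟩ := ExistP.sq_lift h2 _ h h0 hh
      exact ExistP.datum_of_value b y hy.symm
  · rw [← ExistP.map_gZ (PadicInt.toZMod (p := p))] at hco hdvd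
    obtain ⟨A, B, D, hA, hB, hDd, hABD⟩ := lift_cubic p h2 (-(ExistP.gZ.map (Int.castRingHom ℤ_[p])))
      (by rw [natDegree_neg]; exact natDegree_map_le.trans ExistP.natDegree_gZ.le) hco P h hP hirr hP3 hdvd
    refine datum_of_cubics ℚ_[p] ![1, 0, 0] ![2, 0, -1] (ExistP.ind_PQ _)
      (A.map PadicInt.Coe.ringHom) (B.map PadicInt.Coe.ringHom) (D.map PadicInt.Coe.ringHom)
      (natDegree_map_le.trans hA) (natDegree_map_le.trans hB) (natDegree_map_le.trans hDd) ?_
    intro s
    have := congrArg (fun F : ℤ_[p][X] => (F.map PadicInt.Coe.ringHom).eval s) hABD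
    simp only [ExistP.map_gZ, Polynomial.map_add, Polynomial.map_mul, Polynomial.map_pow,
      Polynomial.eval_add, Polynomial.eval_mul, Polynomial.eval_pow, Polynomial.eval_neg,
      ExistP.eval_gZ] at this
    exact this

end Pool.Agent.Work.MP_2dff99_ag
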