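import Mathlib

namespace Pool.Agent.Work.MP_2dff99_ag

/-- a basis of the plane orthogonal to a nonzero vector -/
theorem exists_perp (k : Type) [Field k] (c : Fin 3 → k) (hc : c ≠ 0) :
    ∃ P Q : Fin 3 → k, LinearIndependent k ![P, Q] ∧ ∑ i, c i * P i = 0 ∧
      ∑ i, c i * Q i = 0 := by
  by_cases h0 : c 0 = 0
  · by_cases h1 : c 1 = 0
    · have h2 : c 2 ≠ 0 := by
        intro h2
        apply hc
        funext i
        fin_cases i
        · exact h0
        · exact h1
        · exact h2
      refine ⟨![1, 0, 0], ![0, 1, 0], ?_, ?_, ?_⟩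
      · rw [LinearIndependent.pair_iff]
        intro s t h
        have e0 := congrFun h 0
        have e1 := congrFun h 1
        simp at e0 e1
        exact ⟨e0, e1⟩
      · simp [Fin.sum_univ_three, h0]
      · simp [Fin.sum_univ_three, h1]
    · refine ⟨![1, 0, 0], ![0, -c 2, c 1], ?_, ?_, ?_⟩
      · rw [LinearIndependent.pair_iff]
        intro s t h
        have e0 := congrFun h 0
        have e2 := congrFun h 2
        simp at e0 e2
        exact ⟨e0, e2.resolve_right h1⟩
      · simp [Fin.sum_univ_three, h0]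
      · simp [Fin.sum_univ_three]
        ring
  · refine ⟨![-c 1, c 0, 0], ![-c 2, 0, c 0], ?_, ?_, ?_⟩
    · rw [LinearIndependent.pair_iff]
      intro s t h
      have e1 := congrFun h 1
      have e2 := congrFun h 2
      simp at e1 e2
      exact ⟨e1.resolve_right h0, e2.resolve_right h0⟩
    · simp [Fin.sum_univ_three]
      ring
    · simp [Fin.sum_univ_three]
      ring

/-- a vector orthogonal to all vectors orthogonal to `c` is a multiple of `c` -/
theorem perp_unique (k : Type) [Field k] (P Q : Fin 3 → k) (ind : LinearIndependent k ![P, Q])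
    (c d : Fin 3 → k) (hc : c ≠ 0) (hcP : ∑ i, c i * P i = 0) (hcQ : ∑ i, c i * Q i = 0)
    (hdP : ∑ i, d i * P i = 0) (hdQ : ∑ i, d i * Q i = 0) : ∃ a : k, d = a • c := by
  have hmem : ∀ e : Fin 3 → k, ∑ i, e i * P i = 0 → ∑ i, e i * Q i = 0 →
      e ∈ LinearMap.ker (Matrix.of ![P, Q]).mulVecLin := by
    intro e h1 h2
    rw [LinearMap.mem_ker]
    funext i
    fin_cases i
    · simp only [Matrix.mulVecLin_apply, Matrix.mulVec, dotProduct]
      simpa [mul_comm] using h1
    · simp only [Matrix.mulVecLin_apply, Matrix.mulVec, dotProduct]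
      simpa [mul_comm] using h2
  have hrank : Module.finrank k (LinearMap.range (Matrix.of ![P, Q]).mulVecLin) = 2 := by
    have h1 := LinearIndependent.rank_matrix (M := Matrix.of ![P, Q]) ind
    simpa [Matrix.rank] using h1
  have hker : Module.finrank k (LinearMap.ker (Matrix.of ![P, Q]).mulVecLin) = 1 := by
    have h1 := LinearMap.finrank_range_add_finrank_ker (Matrix.of ![P, Q]).mulVecLin
    rw [hrank] at h1
    simp at h1
    omega
  have hv : (⟨c, hmem c hcP hcQ⟩ : LinearMap.ker (Matrix.of ![P, Q]).mulVecLin) ≠ 0 := by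
    intro h
    exact hc (congrArg Subtype.val h)
  obtain ⟨a, ha⟩ := (finrank_eq_one_iff_of_nonzero' _ hv).1 hker ⟨d, hmem d hdP hdQ⟩
  exact ⟨a, (congrArg Subtype.val ha).symm⟩

end Pool.Agent.Work.MP_2dff99_ag
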