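import Pool.Agent.Work.MP_2dff99_ag.FFa

open Polynomial

namespace Pool.Agent.Work.MP_2dff99_ag

namespace FFb

variable {K : Type*} [Field K]

/-- The normalized resultant with a monic polynomial `H`. -/
noncomputable def M (H r : K[X]) : K := resultant H r H.natDegree r.natDegree

theorem M_eq (H r : K[X]) (hH : H.Monic) (m : ℕ) (hm : r.natDegree ≤ m) :
    resultant H r H.natDegree m = M H r := by
  obtain ⟨k, rfl⟩ := Nat.exists_eq_add_of_le hm
  rw [resultant_add_right_deg _ _ _ _ _ le_rfl, hH.coeff_natDegree, one_pow, one_mul]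
  rfl

theorem M_mul (H r s : K[X]) (hH : H.Monic) : M H (r * s) = M H r * M H s := by
  rw [← M_eq H (r * s) hH (r.natDegree + s.natDegree) natDegree_mul_le,
    resultant_mul_right H r s H.natDegree le_rfl]
  rfl

theorem M_add (H r q : K[X]) (hH : H.Monic) : M H (r + H * q) = M H r := by
  set m := max (max (r + H * q).natDegree r.natDegree) (q.natDegree + H.natDegree) with hm
  have h1 : (r + H * q).natDegree ≤ m := le_max_of_le_left (le_max_left _ _)
  have h2 : r.natDegree ≤ m := le_max_of_le_left (le_max_right _ _)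
  have h3 : q.natDegree + H.natDegree ≤ m := le_max_right _ _
  rw [← M_eq H _ hH m h1, resultant_add_mul_right _ _ _ _ _ h3 le_rfl, M_eq H _ hH m h2]

theorem M_mod (H r : K[X]) (hH : H.Monic) : M H (r %ₘ H) = M H r := by
  conv_rhs => rw [← modByMonic_add_div r H]
  rw [M_add H _ _ hH]

theorem M_one (H : K[X]) : M H 1 = 1 := by
  unfold M
  rw [natDegree_one, resultant_zero_right_deg]
  simp

theorem M_mul_left (Q G r : K[X]) (hQ : Q.Monic) (hG : G.Monic) :
    M (Q * G) r = M Q r * M G r := by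
  unfold M
  rw [hQ.natDegree_mul hG, resultant_mul_left Q G r _ le_rfl]

theorem coprime_of_M (H r : K[X]) (hH : H.Monic) (h : M H r ≠ 0) : IsCoprime H r := by
  by_contra hcon
  apply h
  unfold M
  rw [resultant_eq_zero_iff]
  exact ⟨Or.inl hH.ne_zero, hcon⟩

/-- polynomials of degree less than `n` -/
noncomputable def T {n : ℕ} (c : Fin n → K) : K[X] := ∑ i : Fin n, C (c i) * X ^ (i : ℕ)

theorem T_degree {n : ℕ} (c : Fin n → K) : (T c).degree < n := degree_sum_fin_lt c

theorem T_natDegree {n : ℕ} (hn : 0 < n) (c : Fin n → K) : (T c).natDegree < n := by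
  by_cases h : T c = 0
  · rw [h, natDegree_zero]
    exact hn
  · exact (natDegree_lt_iff_degree_lt h).2 (T_degree c)

theorem T_sub {n : ℕ} (c d : Fin n → K) : T (c - d) = T c - T d := by
  unfold T
  rw [← Finset.sum_sub_distrib]
  refine Finset.sum_congr rfl fun i _ => ?_
  rw [Pi.sub_apply, C_sub, sub_mul]

theorem T_coeff {n : ℕ} (r : K[X]) (hr : r.natDegree < n) :
    T (fun i : Fin n => r.coeff i) = r := by
  unfold T
  rw [Fin.sum_univ_eq_sum_range (fun i => C (r.coeff i) * X ^ i) n]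
  exact (as_sum_range_C_mul_X_pow' _ hr).symm

theorem coeff_T {n : ℕ} (c : Fin n → K) (i : Fin n) : (T c).coeff i = c i := by
  unfold T
  rw [finsetSum_coeff, Finset.sum_eq_single i]
  · rw [coeff_C_mul_X_pow, if_pos rfl]
  · intro j _ hj
    rw [coeff_C_mul_X_pow, if_neg]
    intro h
    exact hj (Fin.ext h.symm)
  · intro h
    exact absurd (Finset.mem_univ i) h

theorem T_inj {n : ℕ} (c d : Fin n → K) (h : T c = T d) : c = d := by
  funext i
  rw [← coeff_T c i, h, coeff_T]

/-- a polynomial whose normalized resultant is a nonsquare -/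
theorem exists_nonres (p : ℕ) [Fact p.Prime] (hp : p ≠ 2) (H : (ZMod p)[X]) (hH : H.Monic)
    (hdeg : H.natDegree ≠ 0) (hsq : Squarefree H) :
    ∃ r : (ZMod p)[X], quadraticChar (ZMod p) (M H r) = -1 := by
  obtain ⟨Q, hQm, hQi, G, hG⟩ := exists_monic_irreducible_factor H (by
    intro hu
    exact hdeg (natDegree_eq_zero_of_isUnit hu))
  have hGm : G.Monic := by
    have := hH
    rw [hG] at this
    exact hQm.of_mul_monic_left this
  have hcop : IsCoprime Q G := by
    rw [hG] at hsq
    rcases (or_iff_not_imp_right.2 fun h => (hQi.coprime_iff_not_dvd).2 h : IsCoprime Q G ∨ Q ∣ G) with h | h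
    · exact h
    · exfalso
      obtain ⟨t, ht⟩ := h
      rw [ht, ← mul_assoc] at hsq
      exact hQi.not_isUnit (hsq Q (Dvd.intro _ rfl))
  obtain ⟨ρ, _, hρ⟩ := res_nonsquare p hp Q hQm hQi
  obtain ⟨u, v, huv⟩ := hcop
  refine ⟨ρ + Q * (u * (1 - ρ)), ?_⟩
  rw [hG, M_mul_left Q G _ hQm hGm, M_add Q _ _ hQm]
  have h1 : ρ + Q * (u * (1 - ρ)) = 1 + G * (v * (ρ - 1)) := by
    linear_combination (1 - ρ) * huv
  rw [h1, M_add G _ _ hGm, M_one, mul_one]
  exact hρ _ le_rfl

end FFb

/-- the character sum over the monic polynomials of degree 6 vanishes -/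
theorem sum_chi_six (p : ℕ) [Fact p.Prime] (hp : p ≠ 2) (F : (ZMod p)[X])
    (hF : F.natDegree = 6) (hsq : IsCoprime F (derivative F)) :
    ∑ c : Fin 6 → ZMod p, chi F (mon c) = 0 := by
  classical
  set a := F.leadingCoeff with ha
  have hF0 : F ≠ 0 := by
    rintro rfl
    simp at hF
  have ha0 : a ≠ 0 := leadingCoeff_ne_zero.2 hF0
  set H : (ZMod p)[X] := C a⁻¹ * F with hHdef
  have hFH : F = C a * H := by
    rw [hHdef, ← mul_assoc, ← C_mul, mul_inv_cancel₀ ha0, C_1, one_mul]
  have hH : H.Monic := by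
    unfold Monic
    rw [hHdef, leadingCoeff_mul, leadingCoeff_C, inv_mul_cancel₀ ha0]
  have hH6 : H.natDegree = 6 := by
    rw [hHdef, natDegree_C_mul (inv_ne_zero ha0), hF]
  have hHsq : Squarefree H := by
    have h1 : Squarefree F := Separable.squarefree hsq
    rw [hFH] at h1
    exact h1.of_mul_right
  obtain ⟨r₀, hr₀⟩ := FFb.exists_nonres p hp H hH (by omega) hHsq
  have hr₀ne : FFb.M H r₀ ≠ 0 := by
    intro h
    rw [h] at hr₀
    simp at hr₀
  have hcop := FFb.coprime_of_M H r₀ hH hr₀ne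
  -- the character in terms of `M`
  have hmon : ∀ c : Fin 6 → ZMod p, mon c = X ^ 6 + FFb.T c := fun c => rfl
  have hmondeg : ∀ c : Fin 6 → ZMod p, (mon c).natDegree = 6 := by
    intro c
    rw [hmon, add_comm]
    exact natDegree_eq_of_degree_eq_some (by
      rw [degree_add_eq_right_of_degree_lt, degree_X_pow]
      rw [degree_X_pow]
      exact FFb.T_degree c)
  have hchi : ∀ c : Fin 6 → ZMod p, chi F (mon c) = quadraticChar (ZMod p) (FFb.M H (mon c)) := by
    intro c
    unfold chi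
    rw [resultant_comm, hmondeg, hFH, resultant_C_mul_left, map_mul, map_mul]
    have h1 : resultant H (mon c) 6 6 = FFb.M H (mon c) := by
      unfold FFb.M
      rw [hH6, hmondeg]
    rw [h1]
    have h2 : quadraticChar (ZMod p) ((-1 : ZMod p) ^ (6 * 6)) = 1 := by
      rw [show ((-1 : ZMod p) ^ (6 * 6)) = 1 by norm_num, map_one]
    have h3 : quadraticChar (ZMod p) (a ^ 6) = 1 := by
      rw [show a ^ 6 = (a ^ 3) ^ 2 by ring]
      exact quadraticChar_sq_one' (pow_ne_zero 3 ha0)
    rw [h2, h3, one_mul, one_mul]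
  simp_rw [hchi]
  -- shift
  obtain ⟨f, hf⟩ : ∃ f : Fin 6 → ZMod p, H = mon f := by
    have h1 : (H - X ^ 6).natDegree < 6 := by
      have h2 : (H - X ^ 6).degree < 6 := by
        have h3 : H.degree = (X ^ 6 : (ZMod p)[X]).degree := by
          rw [degree_X_pow, degree_eq_natDegree hH.ne_zero, hH6]
        have h4 := degree_sub_lt_left h3 hH.ne_zero (by
          rw [hH.leadingCoeff, leadingCoeff_X_pow])
        rw [h3, degree_X_pow] at h4
        exact h4
      by_cases h : H - X ^ 6 = 0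
      · rw [h, natDegree_zero]
        norm_num
      · exact (natDegree_lt_iff_degree_lt h).2 h2
    refine ⟨fun i => (H - X ^ 6).coeff i, ?_⟩
    rw [hmon, FFb.T_coeff _ h1]
    ring
  have hshift : ∀ c : Fin 6 → ZMod p, FFb.M H (mon c) = FFb.M H (FFb.T (c - f)) := by
    intro c
    have h1 : mon c = FFb.T (c - f) + H * 1 := by
      rw [FFb.T_sub, mul_one]
      conv_rhs => rw [hf]
      rw [hmon, hmon]
      ring
    rw [h1, FFb.M_add H _ _ hH]
  simp_rw [hshift]
  rw [show (∑ c : Fin 6 → ZMod p, quadraticChar (ZMod p) (FFb.M H (FFb.T (c - f)))) =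
    ∑ c : Fin 6 → ZMod p, quadraticChar (ZMod p) (FFb.M H (FFb.T c)) from
    Equiv.sum_comp (Equiv.subRight f) (fun c => quadraticChar (ZMod p) (FFb.M H (FFb.T c)))]
  -- the permutation
  let Φ : (Fin 6 → ZMod p) → (Fin 6 → ZMod p) := fun c i => ((FFb.T c * r₀) %ₘ H).coeff i
  have hΦ : ∀ c, FFb.T (Φ c) = (FFb.T c * r₀) %ₘ H := by
    intro c
    apply FFb.T_coeff
    refine lt_of_lt_of_eq (natDegree_modByMonic_lt _ hH ?_) hH6
    intro h
    rw [h] at hH6
    simp at hH6
  have hinj : Function.Injective Φ := by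
    intro c d hcd
    have h1 : (FFb.T c * r₀) %ₘ H = (FFb.T d * r₀) %ₘ H := by
      rw [← hΦ, ← hΦ, hcd]
    have h2 : H ∣ FFb.T (c - d) * r₀ := by
      rw [← modByMonic_eq_zero_iff_dvd hH, FFb.T_sub, sub_mul, sub_modByMonic, h1, sub_self]
    have h3 : H ∣ FFb.T (c - d) := hcop.dvd_of_dvd_mul_right h2
    have h4 : FFb.T (c - d) = 0 := by
      by_contra hne
      have h5 := natDegree_le_of_dvd h3 hne
      have h6 := FFb.T_natDegree (by norm_num) (c - d)
      omega
    have h5 : FFb.T c = FFb.T d := by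
      rw [FFb.T_sub] at h4
      exact sub_eq_zero.1 h4
    exact FFb.T_inj c d h5
  have hbij : Function.Bijective Φ := (Finite.injective_iff_bijective).1 hinj
  have hneg : ∀ c, quadraticChar (ZMod p) (FFb.M H (FFb.T (Φ c))) =
      - quadraticChar (ZMod p) (FFb.M H (FFb.T c)) := by
    intro c
    rw [hΦ, FFb.M_mod H _ hH, FFb.M_mul H _ _ hH, map_mul, hr₀, mul_neg_one]
  have hS : ∑ c : Fin 6 → ZMod p, quadraticChar (ZMod p) (FFb.M H (FFb.T (Φ c))) =
      ∑ c : Fin 6 → ZMod p, quadraticChar (ZMod p) (FFb.M H (FFb.T c)) :=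
    Equiv.sum_comp (Equiv.ofBijective Φ hbij)
      (fun c => quadraticChar (ZMod p) (FFb.M H (FFb.T c)))
  simp_rw [hneg, Finset.sum_neg_distrib] at hS
  linarith

end Pool.Agent.Work.MP_2dff99_ag
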