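import Pool.Agent.Work.MP_2dff99_ag.FFb

open Polynomial

namespace Pool.Agent.Work.MP_2dff99_ag

namespace FF

variable (p : ℕ) [Fact p.Prime]

theorem mon_eq {n : ℕ} (c : Fin n → ZMod p) : mon c = X ^ n + FFb.T c := rfl

theorem mon_natDegree {n : ℕ} (c : Fin n → ZMod p) : (mon c).natDegree = n := by
  rw [mon_eq, add_comm]
  exact natDegree_eq_of_degree_eq_some (by
    rw [degree_add_eq_right_of_degree_lt, degree_X_pow]
    rw [degree_X_pow]
    exact FFb.T_degree c)

theorem mon_monic {n : ℕ} (c : Fin n → ZMod p) : (mon c).Monic := by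
  rw [mon_eq]
  exact monic_X_pow_add (FFb.T_degree c)

theorem mon_inj {n : ℕ} (c d : Fin n → ZMod p) (h : mon c = mon d) : c = d := by
  rw [mon_eq, mon_eq] at h
  exact FFb.T_inj c d (add_left_cancel h)

theorem exists_mon (g : (ZMod p)[X]) (hg : g.Monic) (n : ℕ) (hn : g.natDegree = n) :
    ∃ c : Fin n → ZMod p, mon c = g := by
  refine ⟨fun i => g.coeff i, ?_⟩
  subst hn
  unfold mon
  rw [Fin.sum_univ_eq_sum_range (fun i => C (g.coeff i) * X ^ i) g.natDegree]
  exact hg.as_sum.symm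

open Classical in
/-- monic polynomials of degree `n` -/
noncomputable def Mn (n : ℕ) : Finset (ZMod p)[X] :=
  Finset.univ.image (fun c : Fin n → ZMod p => mon c)

theorem mem_Mn (n : ℕ) (g : (ZMod p)[X]) : g ∈ Mn p n ↔ g.Monic ∧ g.natDegree = n := by
  classical
  unfold Mn
  rw [Finset.mem_image]
  constructor
  · rintro ⟨c, _, rfl⟩
    exact ⟨mon_monic p c, mon_natDegree p c⟩
  · rintro ⟨h1, h2⟩
    obtain ⟨c, hc⟩ := exists_mon p g h1 n h2
    exact ⟨c, Finset.mem_univ _, hc⟩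

theorem sum_Mn (n : ℕ) (f : (ZMod p)[X] → ℤ) :
    ∑ g ∈ Mn p n, f g = ∑ c : Fin n → ZMod p, f (mon c) := by
  classical
  unfold Mn
  rw [Finset.sum_image]
  intro c _ d _ h
  exact mon_inj p c d h

theorem card_Mn (n : ℕ) : (Mn p n).card = p ^ n := by
  classical
  unfold Mn
  rw [Finset.card_image_of_injective _ (fun c d h => mon_inj p c d h)]
  simp [ZMod.card]

open Classical in
/-- monic polynomials of degree at most `n` -/
noncomputable def Un (n : ℕ) : Finset (ZMod p)[X] := (Finset.range (n + 1)).biUnion (Mn p)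

theorem mem_Un (n : ℕ) (g : (ZMod p)[X]) : g ∈ Un p n ↔ g.Monic ∧ g.natDegree ≤ n := by
  classical
  unfold Un
  rw [Finset.mem_biUnion]
  constructor
  · rintro ⟨i, hi, h⟩
    rw [mem_Mn] at h
    rw [Finset.mem_range] at hi
    exact ⟨h.1, by omega⟩
  · rintro ⟨h1, h2⟩
    exact ⟨g.natDegree, Finset.mem_range.2 (by omega), (mem_Mn p _ g).2 ⟨h1, rfl⟩⟩

open Classical in
/-- monic divisors -/
noncomputable def mdiv (a : (ZMod p)[X]) : Finset (ZMod p)[X] :=
  (Un p a.natDegree).filter (fun d => d ∣ a)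

theorem mem_mdiv (a d : (ZMod p)[X]) (ha : a ≠ 0) : d ∈ mdiv p a ↔ d.Monic ∧ d ∣ a := by
  classical
  unfold mdiv
  rw [Finset.mem_filter, mem_Un]
  constructor
  · rintro ⟨⟨h1, _⟩, h3⟩
    exact ⟨h1, h3⟩
  · rintro ⟨h1, h3⟩
    exact ⟨⟨h1, natDegree_le_of_dvd h3 ha⟩, h3⟩

/-- number of monic multiples -/
theorem card_multiples (n : ℕ) (d : (ZMod p)[X]) (hd : d.Monic) (hn : d.natDegree ≤ n) [DecidablePred fun g => d ∣ g] :
    ((Mn p n).filter (fun g => d ∣ g)).card = p ^ (n - d.natDegree) := by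
  classical
  rw [← card_Mn p (n - d.natDegree)]
  symm
  refine Finset.card_bij (fun e _ => d * e) ?_ ?_ ?_
  · intro e he
    rw [mem_Mn] at he
    rw [Finset.mem_filter, mem_Mn]
    refine ⟨⟨hd.mul he.1, ?_⟩, dvd_mul_right _ _⟩
    rw [hd.natDegree_mul he.1, he.2]
    omega
  · intro e₁ _ e₂ _ h
    exact mul_left_cancel₀ hd.ne_zero h
  · intro g hg
    rw [Finset.mem_filter, mem_Mn] at hg
    obtain ⟨⟨h1, h2⟩, e, rfl⟩ := hg
    have he : e.Monic := hd.of_mul_monic_left h1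
    refine ⟨e, ?_, rfl⟩
    rw [mem_Mn]
    refine ⟨he, ?_⟩
    rw [hd.natDegree_mul he] at h2
    omega

/-- divisor sum of the character -/
noncomputable def rr (F a : (ZMod p)[X]) : ℤ := ∑ d ∈ mdiv p a, chi F d

/-- sum of the divisor sums over the monic polynomials of degree `n` -/
theorem sum_rr (F : (ZMod p)[X]) (n : ℕ) :
    ∑ g ∈ Mn p n, rr p F g =
      ∑ i ∈ Finset.range (n + 1), (p : ℤ) ^ (n - i) * ∑ c : Fin i → ZMod p, chi F (mon c) := by
  classical
  have h1 : ∀ g ∈ Mn p n, rr p F g = ∑ d ∈ Un p n, if d ∣ g then chi F d else 0 := by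
    intro g hg
    rw [mem_Mn] at hg
    unfold rr mdiv
    rw [Finset.sum_filter, hg.2]
  rw [Finset.sum_congr rfl h1, Finset.sum_comm]
  have h2 : ∀ d ∈ Un p n, (∑ g ∈ Mn p n, if d ∣ g then chi F d else 0) =
      (p : ℤ) ^ (n - d.natDegree) * chi F d := by
    intro d hd
    rw [mem_Un] at hd
    rw [← Finset.sum_filter, Finset.sum_const, card_multiples p n d hd.1 hd.2, nsmul_eq_mul]
    push_cast
    rfl
  rw [Finset.sum_congr rfl h2]
  unfold Un
  rw [Finset.sum_biUnion]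
  · refine Finset.sum_congr rfl fun i _ => ?_
    rw [← sum_Mn, Finset.mul_sum]
    refine Finset.sum_congr rfl fun g hg => ?_
    rw [mem_Mn] at hg
    rw [hg.2]
  · intro i _ j _ hij
    rw [Function.onFun, Finset.disjoint_left]
    intro g hg1 hg2
    rw [mem_Mn] at hg1 hg2
    exact hij (hg1.2.symm.trans hg2.2)

theorem monic_eq_of_associated (a b : (ZMod p)[X]) (ha : a.Monic) (hb : b.Monic)
    (h1 : a ∣ b) (h2 : b ∣ a) : a = b :=
  eq_of_monic_of_associated ha hb (associated_of_dvd_dvd h1 h2)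

theorem exists_monic_assoc (a : (ZMod p)[X]) (ha : a ≠ 0) :
    ∃ b : (ZMod p)[X], b.Monic ∧ Associated a b := by
  refine ⟨a * C a.leadingCoeff⁻¹, monic_mul_leadingCoeff_inv ha, ?_⟩
  have hu : IsUnit (C a.leadingCoeff⁻¹) :=
    isUnit_C.2 (isUnit_iff_ne_zero.2 (inv_ne_zero (leadingCoeff_ne_zero.2 ha)))
  exact (associated_mul_unit_right a _ hu)

/-- multiplicativity -/
theorem rr_mul (F a b : (ZMod p)[X]) (hF : F.natDegree = 6) (ha : a ≠ 0) (hb : b ≠ 0)
    (hab : IsRelPrime a b) : rr p F (a * b) = rr p F a * rr p F b := by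
  classical
  unfold rr
  rw [Finset.sum_mul_sum, ← Finset.sum_product']
  symm
  refine Finset.sum_bij (fun x _ => x.1 * x.2) ?_ ?_ ?_ ?_
  · rintro ⟨d, e⟩ hx
    rw [Finset.mem_product, mem_mdiv p a _ ha, mem_mdiv p b _ hb] at hx
    rw [mem_mdiv p _ _ (mul_ne_zero ha hb)]
    exact ⟨hx.1.1.mul hx.2.1, mul_dvd_mul hx.1.2 hx.2.2⟩
  · rintro ⟨d, e⟩ hx ⟨d', e'⟩ hx' h
    rw [Finset.mem_product, mem_mdiv p a _ ha, mem_mdiv p b _ hb] at hx hx'
    simp only at h hx hx'
    have c1 : IsRelPrime d e' := (hab.of_dvd_left hx.1.2).of_dvd_right hx'.2.2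
    have c2 : IsRelPrime d' e := (hab.of_dvd_left hx'.1.2).of_dvd_right hx.2.2
    have g1 : d ∣ d' := c1.dvd_of_dvd_mul_right (h ▸ dvd_mul_right d e)
    have g2 : d' ∣ d := c2.dvd_of_dvd_mul_right (h.symm ▸ dvd_mul_right d' e')
    have hd : d = d' := monic_eq_of_associated p d d' hx.1.1 hx'.1.1 g1 g2
    subst hd
    have he : e = e' := mul_left_cancel₀ hx.1.1.ne_zero h
    rw [he]
  · intro g hg
    rw [mem_mdiv p _ _ (mul_ne_zero ha hb)] at hg
    obtain ⟨d, e, hd, he, hde⟩ := exists_dvd_and_dvd_of_dvd_mul hg.2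
    have hg0 : g ≠ 0 := hg.1.ne_zero
    have hd0 : d ≠ 0 := by
      rintro rfl
      rw [zero_mul] at hde
      exact hg0 hde
    have he0 : e ≠ 0 := by
      rintro rfl
      rw [mul_zero] at hde
      exact hg0 hde
    obtain ⟨d', hd'm, hd'a⟩ := exists_monic_assoc p d hd0
    obtain ⟨e', he'm, he'a⟩ := exists_monic_assoc p e he0
    refine ⟨(d', e'), ?_, ?_⟩
    · rw [Finset.mem_product, mem_mdiv p a _ ha, mem_mdiv p b _ hb]
      exact ⟨⟨hd'm, hd'a.symm.dvd.trans hd⟩, ⟨he'm, he'a.symm.dvd.trans he⟩⟩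
    · refine eq_of_monic_of_associated (hd'm.mul he'm) hg.1 ?_
      rw [hde]
      exact (hd'a.mul_mul he'a).symm
  · rintro ⟨d, e⟩ hx
    rw [Finset.mem_product, mem_mdiv p a _ ha, mem_mdiv p b _ hb] at hx
    exact (chi_mul p F d e hF hx.1.1 hx.2.1).symm

theorem chi_pow (F P : (ZMod p)[X]) (hF : F.natDegree = 6) (hP : P.Monic) (i : ℕ) :
    chi F (P ^ i) = chi F P ^ i := by
  induction i with
  | zero => rw [pow_zero, pow_zero, chi_one p F hF]
  | succ i ih => rw [pow_succ, chi_mul p F _ _ hF (hP.pow i) hP, ih, pow_succ]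

/-- prime powers -/
theorem rr_pow (F P q : (ZMod p)[X]) (hF : F.natDegree = 6) (hP : P.Monic) (hq : Prime q)
    (hqP : Associated q P) (n : ℕ) :
    rr p F (q ^ n) = ∑ i ∈ Finset.range (n + 1), chi F P ^ i := by
  classical
  unfold rr
  have hPp : Prime P := hqP.prime hq
  have hqn : q ^ n ≠ 0 := pow_ne_zero _ hq.ne_zero
  symm
  refine Finset.sum_bij (fun i _ => P ^ i) ?_ ?_ ?_ ?_
  · intro i hi
    rw [Finset.mem_range] at hi
    rw [mem_mdiv p _ _ hqn]
    refine ⟨hP.pow i, ?_⟩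
    exact (pow_dvd_pow P (by omega : i ≤ n)).trans ((hqP.pow_pow).symm.dvd)
  · intro i _ j _ h
    have h1 := congrArg natDegree h
    rw [hP.natDegree_pow, hP.natDegree_pow] at h1
    have h2 : 0 < P.natDegree := by
      rw [Nat.pos_iff_ne_zero]
      intro h0
      have := eq_one_of_monic_natDegree_zero hP h0
      rw [this] at hPp
      exact hPp.not_isUnit isUnit_one
    exact Nat.eq_of_mul_eq_mul_right h2 h1
  · intro d hd
    rw [mem_mdiv p _ _ hqn] at hd
    have h1 : d ∣ P ^ n := hd.2.trans (hqP.pow_pow).dvd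
    obtain ⟨i, hi, hi2⟩ := (dvd_prime_pow hPp n).1 h1
    exact ⟨i, Finset.mem_range.2 (by omega), (eq_of_monic_of_associated hd.1 (hP.pow i) hi2).symm⟩
  · intro i _
    exact (chi_pow p F P hF hP i).symm

theorem chi_cases (F g : (ZMod p)[X]) : chi F g = 0 ∨ chi F g = 1 ∨ chi F g = -1 := by
  unfold chi
  exact quadraticChar_isQuadratic (F := ZMod p) _

theorem rr_pow_nonneg (x : ℤ) (hx : x = 0 ∨ x = 1 ∨ x = -1) (n : ℕ) :
    0 ≤ ∑ i ∈ Finset.range (n + 1), x ^ i := by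
  rcases hx with rfl | rfl | rfl
  · rw [Finset.sum_range_succ']
    simp
  · simp
    positivity
  · rw [neg_one_geom_sum]
    split_ifs <;> norm_num

theorem main_ind (F : (ZMod p)[X]) (hF : F.natDegree = 6) (a : (ZMod p)[X]) :
    a ≠ 0 → 0 ≤ rr p F a ∧ (Odd a.natDegree → 0 < rr p F a →
      ∃ P : (ZMod p)[X], P.Monic ∧ Irreducible P ∧ Odd P.natDegree ∧
        P.natDegree ≤ a.natDegree ∧ chi F P ≠ -1) := by
  classical
  induction a using UniqueFactorizationMonoid.induction_on_coprime with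
  | h0 => exact fun h => absurd rfl h
  | h1 hu =>
    rename_i u
    intro h
    have hmd : mdiv p u = {1} := by
      ext d
      rw [mem_mdiv p u d h, Finset.mem_singleton]
      constructor
      · rintro ⟨h1, h2⟩
        exact h1.isUnit_iff.1 (isUnit_of_dvd_unit h2 hu)
      · rintro rfl
        exact ⟨monic_one, one_dvd _⟩
    constructor
    · unfold rr
      rw [hmd, Finset.sum_singleton, chi_one p F hF]
      norm_num
    · intro hodd
      rw [natDegree_eq_zero_of_isUnit hu] at hodd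
      exact absurd hodd (by decide)
  | hpr n hq =>
    rename_i q
    intro _
    obtain ⟨P, hPm, hqP⟩ := exists_monic_assoc p q hq.ne_zero
    have hdeg : q.natDegree = P.natDegree := natDegree_eq_of_degree_eq (degree_eq_degree_of_associated hqP)
    rw [rr_pow p F P q hF hPm hq hqP n]
    refine ⟨rr_pow_nonneg _ (chi_cases p F P) n, ?_⟩
    intro hodd hpos
    rw [natDegree_pow] at hodd
    have h1 : Odd n ∧ Odd q.natDegree := Nat.odd_mul.1 hodd
    refine ⟨P, hPm, (hqP.prime hq).irreducible, hdeg ▸ h1.2, ?_, ?_⟩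
    · rw [natDegree_pow, ← hdeg]
      have : 1 ≤ n := h1.1.pos
      exact Nat.le_mul_of_pos_left _ this
    · intro hc
      rw [hc, neg_one_geom_sum, if_pos h1.1.add_one] at hpos
      exact lt_irrefl _ hpos
  | hcp hxy hx hy =>
    rename_i x y
    intro h
    have hx0 : x ≠ 0 := left_ne_zero_of_mul h
    have hy0 : y ≠ 0 := right_ne_zero_of_mul h
    obtain ⟨hx1, hx2⟩ := hx hx0
    obtain ⟨hy1, hy2⟩ := hy hy0
    rw [rr_mul p F x y hF hx0 hy0 hxy]
    refine ⟨mul_nonneg hx1 hy1, ?_⟩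
    intro hodd hpos
    have hxp : 0 < rr p F x := by
      rcases hx1.lt_or_eq with h1 | h1
      · exact h1
      · rw [← h1, zero_mul] at hpos
        exact absurd hpos (lt_irrefl _)
    have hyp : 0 < rr p F y := by
      rcases hy1.lt_or_eq with h1 | h1
      · exact h1
      · rw [← h1, mul_zero] at hpos
        exact absurd hpos (lt_irrefl _)
    rw [natDegree_mul hx0 hy0] at hodd ⊢
    rcases Nat.even_or_odd x.natDegree with h1 | h1
    · have h2 : Odd y.natDegree := by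
        rw [Nat.odd_add] at hodd
        by_contra h3
        rw [Nat.not_odd_iff_even] at h3
        exact (Nat.not_odd_iff_even.2 h1) (hodd.2 h3)
      obtain ⟨P, g1, g2, g3, g4, g5⟩ := hy2 h2 hyp
      exact ⟨P, g1, g2, g3, by omega, g5⟩
    · obtain ⟨P, g1, g2, g3, g4, g5⟩ := hx2 h1 hxp
      exact ⟨P, g1, g2, g3, by omega, g5⟩

theorem rr_X_six (F : (ZMod p)[X]) (hF : F.natDegree = 6) : 1 ≤ rr p F (X ^ 6) := by
  rw [rr_pow p F X X hF monic_X prime_X (Associated.refl _) 6]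
  rcases chi_cases p F X with h | h | h
  · rw [h]
    norm_num [Finset.sum_range_succ]
  · rw [h]
    norm_num [Finset.sum_range_succ]
  · rw [h]
    norm_num [Finset.sum_range_succ]

end FF

/-- a genus 2 curve `w ^ 2 = F(x)` over a finite field has a divisor of odd degree at most 5 -/
theorem odd_point (p : ℕ) [Fact p.Prime] (hp : p ≠ 2) (F : (ZMod p)[X]) (hF : F.natDegree = 6)
    (hsq : IsCoprime F (derivative F)) :
    ∃ P h : (ZMod p)[X], P.Monic ∧ Irreducible P ∧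
      (P.natDegree = 1 ∨ P.natDegree = 3 ∨ P.natDegree = 5) ∧ P ∣ F - h ^ 2 := by
  classical
  have h6 := FF.sum_rr p F 6
  have h5 := FF.sum_rr p F 5
  rw [Finset.sum_range_succ, sum_chi_six p hp F hF hsq, mul_zero, add_zero] at h6
  have hR : ∑ g ∈ FF.Mn p 6, FF.rr p F g = p * ∑ g ∈ FF.Mn p 5, FF.rr p F g := by
    rw [h6, h5, Finset.mul_sum]
    refine Finset.sum_congr rfl fun i hi => ?_
    rw [Finset.mem_range] at hi
    rw [show 6 - i = (5 - i) + 1 by omega, pow_succ]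
    ring
  have hne : ∀ n, ∀ g ∈ FF.Mn p n, g ≠ 0 := fun n g hg => ((FF.mem_Mn p n g).1 hg).1.ne_zero
  have h6pos : 0 < ∑ g ∈ FF.Mn p 6, FF.rr p F g := by
    refine Finset.sum_pos' (fun g hg => (FF.main_ind p F hF g (hne 6 g hg)).1) ⟨X ^ 6, ?_, ?_⟩
    · rw [FF.mem_Mn]
      exact ⟨monic_X_pow 6, natDegree_X_pow 6⟩
    · exact FF.rr_X_six p F hF
  rw [hR] at h6pos
  have h5pos : 0 < ∑ g ∈ FF.Mn p 5, FF.rr p F g := by
    have hp0 : (0 : ℤ) < p := by exact_mod_cast (Fact.out : p.Prime).pos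
    exact (mul_pos_iff_of_pos_left hp0).1 h6pos
  obtain ⟨g, hg, hgpos⟩ : ∃ g ∈ FF.Mn p 5, 0 < FF.rr p F g := by
    by_contra hcon
    push Not at hcon
    exact absurd h5pos (not_lt.2 (Finset.sum_nonpos hcon))
  have hg5 : g.natDegree = 5 := ((FF.mem_Mn p 5 g).1 hg).2
  obtain ⟨P, g1, g2, g3, g4, g5⟩ := (FF.main_ind p F hF g (hne 5 g hg)).2
    (by rw [hg5]; decide) hgpos
  obtain ⟨h, hh⟩ := res_square p hp P F g1 g2 6 hF.le g5
  refine ⟨P, h, g1, g2, ?_, hh⟩
  rw [hg5] at g4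
  obtain ⟨k, hk⟩ := g3
  omega

end Pool.Agent.Work.MP_2dff99_ag
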