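import Pool.Agent.Work.MP_2dff99_ag.FFdef

open Polynomial

namespace Pool.Agent.Work.MP_2dff99_ag

namespace FFa

variable (p : ℕ) [Fact p.Prime]

/-- the resultant with an irreducible polynomial is a norm -/
theorem res_eq_norm (P F : (ZMod p)[X]) (hP : P.Monic) (hirr : Irreducible P) (m : ℕ)
    (hm : F.natDegree ≤ m) :
    resultant P F P.natDegree m = Algebra.norm (ZMod p) (AdjoinRoot.mk P F) := by
  have : Fact (Irreducible P) := ⟨hirr⟩
  let pb := AdjoinRoot.powerBasis hirr.ne_zero
  have : Module.Finite (ZMod p) (AdjoinRoot P) := pb.finite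
  let E := AlgebraicClosure (ZMod p)
  apply (algebraMap (ZMod p) E).injective
  rw [← resultant_map_map]
  have h1 := resultant_eq_prod_eval (P.map (algebraMap (ZMod p) E))
    (F.map (algebraMap (ZMod p) E)) m (natDegree_map_le.trans hm) (IsAlgClosed.splits _)
  rw [natDegree_map] at h1
  rw [h1, leadingCoeff_map, hP.leadingCoeff, map_one, one_pow, one_mul]
  rw [Algebra.norm_eq_prod_embeddings (ZMod p) E]
  have hsep : P.Separable := PerfectField.separable_of_irreducible hirr
  have hmin : minpoly (ZMod p) pb.gen = P := by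
    rw [AdjoinRoot.powerBasis_gen, AdjoinRoot.minpoly_root hirr.ne_zero, hP.leadingCoeff, inv_one,
      C_1, mul_one]
  classical
  rw [Fintype.prod_equiv (pb.liftEquiv' : (AdjoinRoot P →ₐ[ZMod p] E) ≃ _) (fun σ : AdjoinRoot P →ₐ[ZMod p] E =>
    σ (AdjoinRoot.mk P F)) (fun x => (F.map (algebraMap (ZMod p) E)).eval x.1) ?_]
  · rw [Finset.prod_mem_multiset _ _ (fun x => (F.map (algebraMap (ZMod p) E)).eval x)
      (fun x => rfl)]
    rw [Finset.prod_eq_multiset_prod, Multiset.toFinset_val, Multiset.dedup_eq_self.mpr]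
    · rw [hmin]
    · rw [hmin]
      exact nodup_roots (hsep.map)
  · intro σ
    rw [PowerBasis.liftEquiv'_apply_coe, AdjoinRoot.powerBasis_gen, eval_map_algebraMap]
    rw [← AdjoinRoot.aeval_eq, aeval_algHom_apply]

theorem isSquare_norm_iff (hp : p ≠ 2) (P : (ZMod p)[X])
    (hirr : Irreducible P) (y : AdjoinRoot P) :
    IsSquare (Algebra.norm (ZMod p) y) ↔ IsSquare y := by
  have : Fact (Irreducible P) := ⟨hirr⟩
  let pb := AdjoinRoot.powerBasis hirr.ne_zero
  have : Module.Finite (ZMod p) (AdjoinRoot P) := pb.finite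
  have : Finite (AdjoinRoot P) := Module.finite_of_finite (ZMod p)
  have := Fintype.ofFinite (AdjoinRoot P)
  have hchar : CharP (AdjoinRoot P) p :=
    charP_of_injective_algebraMap (algebraMap (ZMod p) (AdjoinRoot P)).injective p
  have hr1 : ringChar (ZMod p) ≠ 2 := by
    rw [ringChar.eq (ZMod p) p]
    exact hp
  have hr2 : ringChar (AdjoinRoot P) ≠ 2 := by
    rw [ringChar.eq (AdjoinRoot P) p]
    exact hp
  by_cases hy : y = 0
  · subst hy
    rw [Algebra.norm_zero]
    simp
  have hn : Algebra.norm (ZMod p) y ≠ 0 := Algebra.norm_ne_zero_iff.2 hy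
  rw [FiniteField.isSquare_iff hr1 hn, FiniteField.isSquare_iff hr2 hy]
  have h1 := FiniteField.algebraMap_norm_eq_pow (K := ZMod p) (x := y)
  have hodd := FiniteField.odd_card_of_char_ne_two hr2
  have hodd1 := FiniteField.odd_card_of_char_ne_two hr1
  have hcard : Fintype.card (AdjoinRoot P) / 2 =
      ((Nat.card (AdjoinRoot P) - 1) / (Nat.card (ZMod p) - 1)) * (Fintype.card (ZMod p) / 2) := by
    rw [Nat.card_eq_fintype_card, Nat.card_eq_fintype_card]
    have hdvd : Fintype.card (ZMod p) - 1 ∣ Fintype.card (AdjoinRoot P) - 1 := by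
      rw [Module.card_eq_pow_finrank (K := ZMod p) (V := AdjoinRoot P)]
      exact Nat.sub_one_dvd_pow_sub_one _ _
    obtain ⟨k, hk⟩ := hdvd
    have h2 : 1 < Fintype.card (ZMod p) := Fintype.one_lt_card
    have h3 : 1 < Fintype.card (AdjoinRoot P) := Fintype.one_lt_card
    rw [hk, Nat.mul_div_cancel_left _ (by omega)]
    have h4 : Fintype.card (ZMod p) - 1 = 2 * (Fintype.card (ZMod p) / 2) := by omega
    rw [h4] at hk
    have h5 : Fintype.card (AdjoinRoot P) - 1 = 2 * (Fintype.card (ZMod p) / 2 * k) := by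
      rw [hk]; ring
    have h6 : Fintype.card (AdjoinRoot P) / 2 = Fintype.card (ZMod p) / 2 * k := by omega
    rw [h6, mul_comm]
  rw [hcard, pow_mul, ← h1]
  constructor
  · intro h
    rw [← (algebraMap (ZMod p) (AdjoinRoot P)).map_pow, h, map_one]
  · intro h
    apply (algebraMap (ZMod p) (AdjoinRoot P)).injective
    rw [(algebraMap (ZMod p) (AdjoinRoot P)).map_pow, h, map_one]

end FFa

/-- squares modulo an irreducible polynomial are detected by the resultant -/
theorem res_square (p : ℕ) [Fact p.Prime] (hp : p ≠ 2) (P F : (ZMod p)[X]) (hP : P.Monic)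
    (hirr : Irreducible P) (m : ℕ) (hm : F.natDegree ≤ m)
    (h : quadraticChar (ZMod p) (resultant P F P.natDegree m) ≠ -1) :
    ∃ g : (ZMod p)[X], P ∣ F - g ^ 2 := by
  rw [ne_eq, quadraticChar_neg_one_iff_not_isSquare, not_not, FFa.res_eq_norm p P F hP hirr m hm,
    FFa.isSquare_norm_iff p hp P hirr] at h
  obtain ⟨y, hy⟩ := h
  obtain ⟨g, rfl⟩ := AdjoinRoot.mk_surjective y
  refine ⟨g, ?_⟩
  rw [← AdjoinRoot.mk_eq_zero, map_sub, map_pow, hy]
  ring

/-- there are non-residues modulo an irreducible polynomial -/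
theorem res_nonsquare (p : ℕ) [Fact p.Prime] (hp : p ≠ 2) (P : (ZMod p)[X]) (hP : P.Monic)
    (hirr : Irreducible P) :
    ∃ g : (ZMod p)[X], g.natDegree < P.natDegree ∧ ∀ m : ℕ, g.natDegree ≤ m →
      quadraticChar (ZMod p) (resultant P g P.natDegree m) = -1 := by
  have : Fact (Irreducible P) := ⟨hirr⟩
  let pb := AdjoinRoot.powerBasis hirr.ne_zero
  have : Module.Finite (ZMod p) (AdjoinRoot P) := pb.finite
  have : Finite (AdjoinRoot P) := Module.finite_of_finite (ZMod p)
  have hchar : CharP (AdjoinRoot P) p :=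
    charP_of_injective_algebraMap (algebraMap (ZMod p) (AdjoinRoot P)).injective p
  have hr2 : ringChar (AdjoinRoot P) ≠ 2 := by
    rw [ringChar.eq (AdjoinRoot P) p]
    exact hp
  obtain ⟨y, hy⟩ := FiniteField.exists_nonsquare hr2
  obtain ⟨g, rfl⟩ := AdjoinRoot.mk_surjective y
  have hmk : AdjoinRoot.mk P (g %ₘ P) = AdjoinRoot.mk P g := by
    rw [AdjoinRoot.mk_eq_mk]
    have := modByMonic_add_div g P
    refine ⟨-(g /ₘ P), ?_⟩
    linear_combination this
  refine ⟨g %ₘ P, natDegree_modByMonic_lt g hP ?_, fun m hm => ?_⟩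
  · rintro rfl
    exact hirr.not_isUnit isUnit_one
  · rw [quadraticChar_neg_one_iff_not_isSquare, FFa.res_eq_norm p P _ hP hirr m hm,
      FFa.isSquare_norm_iff p hp P hirr, hmk]
    exact hy

theorem chi_mul (p : ℕ) [Fact p.Prime] (F g h : (ZMod p)[X]) (hF : F.natDegree = 6)
    (hg : g.Monic) (hh : h.Monic) : chi F (g * h) = chi F g * chi F h := by
  unfold chi
  rw [hg.natDegree_mul hh, resultant_mul_left g h F 6 hF.le, map_mul]

theorem chi_one (p : ℕ) [Fact p.Prime] (F : (ZMod p)[X]) (hF : F.natDegree = 6) :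
    chi F 1 = 1 := by
  unfold chi
  rw [natDegree_one, resultant_zero_left_deg]
  simp

end Pool.Agent.Work.MP_2dff99_ag
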