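import Mathlib

open Polynomial

namespace Pool.Agent.Work.MP_2dff99_ag

/-- the monic polynomial of degree `n` with lower coefficients `c` -/
noncomputable def mon {p : ℕ} {n : ℕ} (c : Fin n → ZMod p) : (ZMod p)[X] :=
  X ^ n + ∑ i : Fin n, C (c i) * X ^ (i : ℕ)

/-- the quadratic character attached to `F`, at a monic polynomial `g` -/
noncomputable def chi {p : ℕ} [Fact p.Prime] (F g : (ZMod p)[X]) : ℤ :=
  quadraticChar (ZMod p) (resultant g F g.natDegree 6)

end Pool.Agent.Work.MP_2dff99_ag
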