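import Pool.Agent.Work.MP_2dff99_ag.HomZ

open MvPolynomial

namespace Pool.Agent.Work.MP_2dff99_ag

/-- an element fixed by the Galois group is rational -/
theorem fixed_rational (L : Type) [Field L] [CharZero L] (a : AlgebraicClosure L)
    (h : ∀ σ : AlgebraicClosure L ≃ₐ[L] AlgebraicClosure L, σ a = a) :
    ∃ b : L, algebraMap L (AlgebraicClosure L) b = a := by
  have h1 : a ∈ (⊥ : IntermediateField L (AlgebraicClosure L)) := by
    rw [InfiniteGalois.mem_bot_iff_fixed]
    exact h
  rw [IntermediateField.mem_bot] at h1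
  exact h1

/-- a binary form fixed by the Galois group is rational -/
theorem fixed_rational_poly (L : Type) [Field L] [CharZero L] (a : R2 (AlgebraicClosure L))
    (h : ∀ σ : AlgebraicClosure L ≃ₐ[L] AlgebraicClosure L,
      MvPolynomial.map (σ : AlgebraicClosure L →+* AlgebraicClosure L) a = a) :
    ∃ b : R2 L, MvPolynomial.map (algebraMap L (AlgebraicClosure L)) b = a := by
  change a ∈ Set.range (MvPolynomial.map (algebraMap L (AlgebraicClosure L)))
  rw [MvPolynomial.mem_range_map_iff_coeffs_subset]
  intro x hx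
  rw [Finset.mem_coe, MvPolynomial.mem_coeffs_iff] at hx
  obtain ⟨m, -, rfl⟩ := hx
  apply fixed_rational
  intro σ
  have := congrArg (coeff m) (h σ)
  rw [coeff_map] at this
  exact this

theorem homZ_of_map {L K : Type} [Field L] [Field K] (f : L →+* K) {p : R2 L} {n : ℤ}
    (h : HomZ (MvPolynomial.map f p) n) : HomZ p n := by
  intro m hm
  refine h m fun h0 => hm ?_
  rw [coeff_map] at h0
  exact (map_eq_zero f).mp h0

end Pool.Agent.Work.MP_2dff99_ag
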