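import Pool.Agent.Work.MP_2dff99_ag.Sx

open MvPolynomial

namespace Pool.Agent.Work.MP_2dff99_ag

namespace RealNo

theorem eval_neg_form (n : ℕ) (hn : Odd n) (a : ℕ → ℝ) (s t : ℝ) :
    eval ![-s, -t] (form n a) = - eval ![s, t] (form n a) := by
  rw [eval_form, eval_form, ← Finset.sum_neg_distrib]
  refine Finset.sum_congr rfl fun i hi => ?_
  have hi' : i ≤ n := Nat.lt_succ_iff.1 (Finset.mem_range.1 hi)
  have h1 : (-s) ^ (n - i) * (-t) ^ i = (-1) ^ n * (s ^ (n - i) * t ^ i) := by
    rw [neg_pow s, neg_pow t]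
    have : ((-1 : ℝ)) ^ n = (-1) ^ (n - i) * (-1) ^ i := by
      rw [← pow_add, Nat.sub_add_cancel hi']
    rw [this]; ring
  rw [hn.neg_one_pow] at h1
  calc a i * (-s) ^ (n - i) * (-t) ^ i = a i * ((-s) ^ (n - i) * (-t) ^ i) := by ring
    _ = -(a i * s ^ (n - i) * t ^ i) := by rw [h1]; ring

/-- a real binary form of odd degree has a nontrivial zero -/
theorem exists_zero (n : ℕ) (hn : Odd n) (q : R2 ℝ) (hq : HomZ q n) :
    ∃ s t : ℝ, s ^ 2 + t ^ 2 = 1 ∧ eval ![s, t] q = 0 := by
  obtain ⟨a, rfl⟩ := exists_form hq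
  have hcont : Continuous fun θ : ℝ => eval ![Real.cos θ, Real.sin θ] (form n a) := by
    simp only [eval_form]
    fun_prop
  have hneg : eval ![Real.cos Real.pi, Real.sin Real.pi] (form n a) =
      - eval ![Real.cos 0, Real.sin 0] (form n a) := by
    rw [← eval_neg_form n hn]
    congr 1
    simp
  have key : ∃ θ : ℝ, eval ![Real.cos θ, Real.sin θ] (form n a) = 0 := by
    rcases le_total 0 (eval ![Real.cos 0, Real.sin 0] (form n a)) with h | h
    · exact mem_range_of_exists_le_of_exists_ge hcont ⟨Real.pi, by rw [hneg]; linarith⟩ ⟨0, h⟩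
    · exact mem_range_of_exists_le_of_exists_ge hcont ⟨0, h⟩ ⟨Real.pi, by rw [hneg]; linarith⟩
  obtain ⟨θ, hθ⟩ := key
  exact ⟨Real.cos θ, Real.sin θ, Real.cos_sq_add_sin_sq θ, hθ⟩

end RealNo

/-- there is no datum over `ℝ` -/
theorem no_real_datum (D : Datum ℝ) : False := by
  obtain ⟨s, t, hst, h0⟩ : ∃ s t : ℝ, s ^ 2 + t ^ 2 = 1 ∧ eval ![s, t] D.fc = 0 := by
    have he := D.he
    have hc := D.hc
    rcases Nat.lt_or_ge D.e 1 with h | h
    · have e0 : D.e = 0 := by omega
      rw [e0] at hc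
      exact RealNo.exists_zero 3 (by decide) D.fc (by simpa using hc)
    · have e1 : D.e = 1 := by omega
      rw [e1] at hc
      refine RealNo.exists_zero 1 (by decide) D.fc ?_
      have : (3 - 2 * ((1 : ℕ) : ℤ)) = ((1 : ℕ) : ℤ) := by norm_num
      rwa [this] at hc
  have hrel := congrArg (eval ![s, t]) D.rel
  rw [map_add, map_pow, map_mul, h0, zero_mul, add_zero, map_neg, eval_sextic_line] at hrel
  have hv : (fun i => s * D.P i + t * D.Q i) ≠ 0 := by
    intro hv
    have hli := LinearIndependent.pair_iff.1 D.ind s t (by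
      ext i
      have := congrFun hv i
      simpa [smul_eq_mul] using this)
    rw [hli.1, hli.2] at hst
    norm_num at hst
  have hpos := sextic_pos _ hv
  have hsq := sq_nonneg (eval ![s, t] D.fa)
  linarith

end Pool.Agent.Work.MP_2dff99_ag
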