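import Pool.Agent.Work.MP_2dff99_ag.IsoM
import Pool.Agent.Work.MP_2dff99_ag.DMap

open MvPolynomial

namespace Pool.Agent.Work.MP_2dff99_ag

namespace RealPt

theorem sextic_two {θ : Fin 3 → ℝ} (h : Roots θ) (P Q : Fin 3 → ℝ)
    (hP : ∀ i, xi (θ i) P = (![1, 0, 0] : Fin 3 → ℝ) i)
    (hQ : ∀ i, xi (θ i) Q = (![0, 1, 0] : Fin 3 → ℝ) i) :
    sextic (lineVec P Q) = C (2 * (1 - θ 0)) ^ 2 * X 0 ^ 6 + C (2 * (1 - θ 1)) ^ 2 * X 1 ^ 6 := by
  apply ext_eval
  intro s t
  rw [eval_sextic_line, sextic_diag h]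
  have hx : ∀ i, xi (θ i) (fun j => s * P j + t * Q j) = s * xi (θ i) P + t * xi (θ i) Q := by
    intro i; simp only [xi]; ring
  simp only [hx, hP, hQ, Fin.sum_univ_three, Fin.prod_univ_three]
  simp

theorem ind_PQ {θ : Fin 3 → ℝ} (P Q : Fin 3 → ℝ)
    (hP : ∀ i, xi (θ i) P = (![1, 0, 0] : Fin 3 → ℝ) i)
    (hQ : ∀ i, xi (θ i) Q = (![0, 1, 0] : Fin 3 → ℝ) i) : LinearIndependent ℝ ![P, Q] := by
  rw [LinearIndependent.pair_iff]
  intro s t hst
  have hx : ∀ i, s * xi (θ i) P + t * xi (θ i) Q = 0 := by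
    intro i
    have h0 := congrFun hst 0
    have h1 := congrFun hst 1
    have h2 := congrFun hst 2
    simp only [Pi.add_apply, Pi.smul_apply, smul_eq_mul, Pi.zero_apply] at h0 h1 h2
    simp only [xi]
    linear_combination h0 + θ i * h1 + θ i ^ 2 * h2
  have h0 := hx 0
  have h1 := hx 1
  rw [hP, hQ] at h0 h1
  simp at h0 h1
  exact ⟨h0, h1⟩

theorem hom_cube {k : Type} [Field k] (a b : k) :
    HomZ (C a * X 0 ^ 3 + C b * X 1 ^ 3 : R2 k) 3 := by
  have h0 : ∀ (c : k) (i : Fin 2), HomZ (C c * X i ^ 3 : R2 k) 3 := by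
    intro c i
    have := homZ_mul (homZ_C c) (homZ_pow (homZ_X (k := k) i) 3)
    simpa using this
  exact homZ_add (h0 a 0) (h0 b 1)

end RealPt

/-- a conjugation invariant datum over the algebraic closure of `ℝ` -/
theorem exists_real_datum : ∃ D : Datum (AlgebraicClosure ℝ),
    ∀ σ : AlgebraicClosure ℝ ≃ₐ[ℝ] AlgebraicClosure ℝ,
      D.sheaf.Twist (σ : AlgebraicClosure ℝ →+* AlgebraicClosure ℝ) := by
  obtain ⟨θ, hθ⟩ := roots_real
  obtain ⟨P, hP⟩ := xi_surj hθ ![1, 0, 0]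
  obtain ⟨Q, hQ⟩ := xi_surj hθ ![0, 1, 0]
  have ind := RealPt.ind_PQ P Q hP hQ
  obtain ⟨i, hi⟩ : ∃ i : AlgebraicClosure ℝ, i ^ 2 = -1 := IsAlgClosed.exists_pow_nat_eq _ (by norm_num)
  let φ : ℝ →+* AlgebraicClosure ℝ := algebraMap ℝ (AlgebraicClosure ℝ)
  let a : AlgebraicClosure ℝ := φ (2 * (1 - θ 0))
  let b : AlgebraicClosure ℝ := φ (2 * (1 - θ 1))
  have hsx : sextic (lineVec (fun j => φ (P j)) (fun j => φ (Q j))) =
      C a ^ 2 * X 0 ^ 6 + C b ^ 2 * X 1 ^ 6 := by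
    rw [← map_sextic_line, RealPt.sextic_two hθ P Q hP hQ]
    simp only [map_add, map_mul, map_pow, map_C, map_X, a, b]
  have hC : (C i : R2 (AlgebraicClosure ℝ)) ^ 2 = -1 := by
    rw [← C_pow, hi, C_neg, C_1]
  let D : Datum (AlgebraicClosure ℝ) :=
    { P := fun j => φ (P j)
      Q := fun j => φ (Q j)
      ind := ind_map φ P Q ind
      e := 0
      he := by norm_num
      fa := 0
      fc := C a * X 0 ^ 3 + C (-(i * b)) * X 1 ^ 3
      fd := C (-a) * X 0 ^ 3 + C (-(i * b)) * X 1 ^ 3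
      ha := homZ_zero _
      hc := by simpa using RealPt.hom_cube a (-(i * b))
      hd := by simpa using RealPt.hom_cube (-a) (-(i * b))
      rel := by
        rw [hsx]
        simp only [C_neg, C_mul]
        linear_combination (- C b ^ 2 * X 1 ^ 6 * (-1)) * hC }
  refine ⟨D, fun σ => ?_⟩
  have hσφ : ∀ x : ℝ, σ (φ x) = φ x := fun x => σ.commutes x
  have hσa : σ a = a := hσφ _
  have hσb : σ b = b := hσφ _
  have hσi : σ i = i ∨ σ i = -i := by
    have h1 : (σ i - i) * (σ i + i) = 0 := by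
      have : σ i ^ 2 = -1 := by rw [← map_pow, hi, map_neg, map_one]
      linear_combination this - hi
    rcases mul_eq_zero.1 h1 with h | h
    · left; exact sub_eq_zero.1 h
    · right; exact eq_neg_of_add_eq_zero_left h
  have hone : HomZ (1 : R2 (AlgebraicClosure ℝ)) 0 := by
    have := homZ_C (k := AlgebraicClosure ℝ) 1
    rwa [map_one] at this
  rcases hσi with h | h
  · refine twist_of_matrix D _ σ.bijective (fun j => hσφ _) (fun j => hσφ _) 1
      ⟨by simp, by simpa using hone, by simpa using homZ_zero _, by simpa using homZ_zero _,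
        by simpa using hone⟩ ?_
    rw [mul_one, one_mul]
    ext r c
    congr 1
    fin_cases r <;> fin_cases c <;>
      simp [Datum.phi, D, h, hσa, hσb]
  · refine twist_of_matrix D _ σ.bijective (fun j => hσφ _) (fun j => hσφ _) !![0, 1; -1, 0]
      ⟨by simp, by simpa using homZ_zero _, by simpa [D] using hone,
        by simpa [D] using homZ_neg hone, by simpa using homZ_zero _⟩ ?_
    ext r c
    congr 1
    fin_cases r <;> fin_cases c <;>
      simp [Datum.phi, D, h, hσa, hσb, Matrix.mul_apply, Fin.sum_univ_two] <;> ring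

end Pool.Agent.Work.MP_2dff99_ag
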