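import Pool.Agent.Work.MP_2dff99_ag.Base

open MvPolynomial

namespace Pool.Agent.Work.MP_2dff99_ag.Grd

variable {k M : Type} [Field k] [AddCommGroup M] [Module k M]

/-- a family of projections to the components of a grading -/
structure Comp (gr : ℤ → Submodule k M) (π : ℤ → (M →ₗ[k] M)) : Prop where
  mem : ∀ n m, π n m ∈ gr n
  same : ∀ n m, m ∈ gr n → π n m = m
  ne : ∀ n j m, m ∈ gr j → j ≠ n → π n m = 0
  supp : ∀ m, ∃ s : Finset ℤ, (∀ n, n ∉ s → π n m = 0) ∧ m = ∑ n ∈ s, π n m

/-- the projections to the components of an internal grading -/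
theorem exists_comp (gr : ℤ → Submodule k M) (hint : DirectSum.IsInternal gr) :
    ∃ π : ℤ → (M →ₗ[k] M), Comp gr π := by
  classical
  let _ := hint.chooseDecomposition
  refine ⟨fun n => (gr n).subtype ∘ₗ DirectSum.component k ℤ (fun i => gr i) n ∘ₗ
    (DirectSum.decomposeLinearEquiv gr).toLinearMap, ?_, ?_, ?_, ?_⟩
  · intro n m
    simp
  · intro n m hm
    simp only [LinearMap.coe_comp, Function.comp_apply, LinearEquiv.coe_coe,
      DirectSum.decomposeLinearEquiv_apply, Submodule.subtype_apply]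
    exact DirectSum.decompose_of_mem_same gr hm
  · intro n j m hm hj
    simp only [LinearMap.coe_comp, Function.comp_apply, LinearEquiv.coe_coe,
      DirectSum.decomposeLinearEquiv_apply, Submodule.subtype_apply]
    exact DirectSum.decompose_of_mem_ne gr hm hj
  · intro m
    refine ⟨(DirectSum.decompose gr m).support, ?_, ?_⟩
    · intro n hn
      simp only [LinearMap.coe_comp, Function.comp_apply, LinearEquiv.coe_coe,
        DirectSum.decomposeLinearEquiv_apply, Submodule.subtype_apply]
      have : (DirectSum.decompose gr m) n = 0 := by simpa using hn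
      have h2 : (DirectSum.component k ℤ (fun i => gr i) n) (DirectSum.decompose gr m) = 0 := this
      rw [h2]
      rfl
    · exact (DirectSum.sum_support_decompose gr m).symm

variable [Module (R2 k) M] [IsScalarTower k (R2 k) M]

theorem Comp.X_smul {gr : ℤ → Submodule k M} {π : ℤ → (M →ₗ[k] M)} (h : Comp gr π)
    (hX : ∀ (i : Fin 2) (n : ℤ) (m : M), m ∈ gr n → (X i : R2 k) • m ∈ gr (n + 1))
    (i : Fin 2) (n : ℤ) (m : M) : π (n + 1) ((X i : R2 k) • m) = (X i : R2 k) • π n m := by
  classical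
  obtain ⟨s, hs, hm⟩ := h.supp m
  have h1 : (X i : R2 k) • m = ∑ j ∈ s, (X i : R2 k) • π j m := by
    conv_lhs => rw [hm]
    rw [Finset.smul_sum]
  rw [h1, map_sum]
  have h2 : ∀ j ∈ s, π (n + 1) ((X i : R2 k) • π j m) = if j = n then (X i : R2 k) • π n m else 0 := by
    intro j _
    split_ifs with hj
    · subst hj
      exact h.same _ _ (hX i j _ (h.mem j m))
    · exact h.ne _ (j + 1) _ (hX i j _ (h.mem j m)) (fun hh => hj (by omega))
  rw [Finset.sum_congr rfl h2, Finset.sum_ite_eq' s n]
  split_ifs with hn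
  · rfl
  · rw [hs n hn, smul_zero]

theorem Comp.X_smul' {gr : ℤ → Submodule k M} {π : ℤ → (M →ₗ[k] M)} (h : Comp gr π)
    (hX : ∀ (i : Fin 2) (n : ℤ) (m : M), m ∈ gr n → (X i : R2 k) • m ∈ gr (n + 1))
    (i : Fin 2) (n : ℤ) (m : M) : π n ((X i : R2 k) • m) = (X i : R2 k) • π (n - 1) m := by
  have := h.X_smul hX i (n - 1) m
  rwa [sub_add_cancel] at this

theorem Comp.eq_zero {gr : ℤ → Submodule k M} {π : ℤ → (M →ₗ[k] M)} (h : Comp gr π) {m : M}
    (hm : ∀ n, π n m = 0) : m = 0 := by
  obtain ⟨s, _, hs⟩ := h.supp m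
  rw [hs]
  exact Finset.sum_eq_zero fun n _ => hm n

theorem mon_mem (gr : ℤ → Submodule k M)
    (hX : ∀ (i : Fin 2) (n : ℤ) (m : M), m ∈ gr n → (X i : R2 k) • m ∈ gr (n + 1))
    (a b : ℕ) (d : ℤ) (m : M) (hm : m ∈ gr d) :
    (X 0 ^ a * X 1 ^ b : R2 k) • m ∈ gr (a + b + d) := by
  have h1 : ∀ b : ℕ, (X 1 ^ b : R2 k) • m ∈ gr (b + d) := by
    intro b
    induction b with
    | zero => simpa using hm
    | succ b ih =>
      have := hX 1 _ _ ih
      rw [smul_smul, ← pow_succ'] at this
      have e : ((b + 1 : ℕ) : ℤ) + d = (b : ℤ) + d + 1 := by push_cast; ring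
      rw [e]
      exact this
  induction a with
  | zero => simpa using h1 b
  | succ a ih =>
    have := hX 0 _ _ ih
    rw [smul_smul, ← mul_assoc, ← pow_succ'] at this
    have e : ((a + 1 : ℕ) : ℤ) + b + d = (a : ℤ) + b + d + 1 := by push_cast; ring
    rw [e]
    exact this

/-- homogeneous generation of a graded submodule -/
theorem gen (gr : ℤ → Submodule k M)
    (π : ℤ → (M →ₗ[k] M)) (h : Comp gr π)
    (hX : ∀ (i : Fin 2) (n : ℤ) (m : M), m ∈ gr n → (X i : R2 k) • m ∈ gr (n + 1))
    (N : Submodule (R2 k) M) (hfg : N.FG) (hN : ∀ n m, m ∈ N → π n m ∈ N) :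
    (∀ n, FiniteDimensional k ↥(N.restrictScalars k ⊓ gr n)) ∧
    (∃ B : ℤ, ∀ n, B ≤ n → ∀ m ∈ N, m ∈ gr (n + 1) → ∃ a b, a ∈ N ∧ a ∈ gr n ∧ b ∈ N ∧
      b ∈ gr n ∧ m = (X 0 : R2 k) • a + (X 1 : R2 k) • b) ∧
    (∃ B : ℤ, ∀ n, n < B → ∀ m ∈ N, m ∈ gr n → m = 0) := by
  classical
  obtain ⟨G, hG⟩ := hfg
  choose sp hsp1 hsp2 using h.supp
  set T : Finset (M × ℤ) := G.biUnion fun g => (sp g).image fun n => (g, n) with hT
  have hTN : ∀ p ∈ T, π p.2 p.1 ∈ N := by
    intro p hp
    simp only [hT, Finset.mem_biUnion, Finset.mem_image] at hp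
    obtain ⟨g, hg, n, _, rfl⟩ := hp
    exact hN _ _ (hG ▸ Submodule.subset_span hg)
  set E : ℤ → Set M := fun n => {y | ∃ p ∈ T, ∃ a b : ℕ, (a : ℤ) + b + p.2 = n ∧
    y = (X 0 ^ a * X 1 ^ b : R2 k) • π p.2 p.1} with hE
  set W : ℤ → Submodule k M := fun n => Submodule.span k (E n) with hW
  have W1 : ∀ (i : Fin 2) (n : ℤ) (m : M), m ∈ W n → (X i : R2 k) • m ∈ W (n + 1) := by
    intro i n m hm
    induction hm using Submodule.span_induction with
    | mem y hy =>
      obtain ⟨p, hp, a, b, hab, rfl⟩ := hy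
      refine Submodule.subset_span ?_
      fin_cases i
      · refine ⟨p, hp, a + 1, b, by push_cast; omega, ?_⟩
        rw [smul_smul]
        congr 1
        simp only [Fin.zero_eta]
        ring
      · refine ⟨p, hp, a, b + 1, by push_cast; omega, ?_⟩
        rw [smul_smul]
        congr 1
        simp only [Fin.mk_one]
        ring
    | zero => simp
    | add x y _ _ hx hy => rw [smul_add]; exact add_mem hx hy
    | smul c x _ hx =>
      rw [smul_comm]
      exact Submodule.smul_mem _ _ hx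
  have W2 : ∀ n, W n ≤ gr n := by
    intro n
    refine Submodule.span_le.2 ?_
    rintro y ⟨p, hp, a, b, hab, rfl⟩
    rw [← hab]
    exact mon_mem gr hX a b p.2 _ (h.mem _ _)
  have W2' : ∀ n, W n ≤ N.restrictScalars k := by
    intro n
    refine Submodule.span_le.2 ?_
    rintro y ⟨p, hp, a, b, hab, rfl⟩
    exact Submodule.smul_mem N _ (hTN p hp)
  have W3X : ∀ (i : Fin 2) (m : M), m ∈ (⨆ n, W n) → (X i : R2 k) • m ∈ (⨆ n, W n) := by
    intro i m hm
    refine Submodule.iSup_induction W (motive := fun m => (X i : R2 k) • m ∈ (⨆ n, W n)) hm ?_ ?_ ?_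
    · intro n x hx
      exact Submodule.mem_iSup_of_mem (n + 1) (W1 i n x hx)
    · simp
    · intro x y hx hy
      rw [smul_add]
      exact add_mem hx hy
  have W3 : ∀ (p : R2 k) (m : M), m ∈ (⨆ n, W n) → p • m ∈ (⨆ n, W n) := by
    intro p
    induction p using MvPolynomial.induction_on with
    | C a =>
      intro m hm
      have : (C a : R2 k) • m = a • m := by
        rw [← algebraMap_eq, algebraMap_smul]
      rw [this]
      exact Submodule.smul_mem _ _ hm
    | add p q hp hq =>
      intro m hm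
      rw [add_smul]
      exact add_mem (hp m hm) (hq m hm)
    | mul_X p i hp =>
      intro m hm
      rw [mul_smul]
      exact hp _ (W3X i m hm)
  let N' : Submodule (R2 k) M :=
    { carrier := ((⨆ n, W n : Submodule k M) : Set M)
      add_mem' := fun ha hb => add_mem ha hb
      zero_mem' := zero_mem _
      smul_mem' := fun c x hx => W3 c x hx }
  have W4 : N ≤ N' := by
    rw [← hG]
    refine Submodule.span_le.2 ?_
    intro g hg
    change g ∈ (⨆ n, W n)
    rw [hsp2 g]
    refine sum_mem fun n hn => ?_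
    refine Submodule.mem_iSup_of_mem n (Submodule.subset_span ⟨(g, n), ?_, 0, 0, by simp, by simp⟩)
    simp only [hT, Finset.mem_biUnion, Finset.mem_image]
    exact ⟨g, hg, n, hn, rfl⟩
  have W5 : ∀ n m, m ∈ N → m ∈ gr n → m ∈ W n := by
    intro n m hm hmn
    have h1 : m ∈ (⨆ n, W n) := W4 hm
    have h2 : π n m ∈ W n := by
      refine Submodule.iSup_induction W (motive := fun m => π n m ∈ W n) h1 ?_ ?_ ?_
      · intro j x hx
        by_cases hj : j = n
        · subst hj
          rw [h.same _ _ (W2 _ hx)]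
          exact hx
        · rw [h.ne n j x (W2 _ hx) hj]
          exact zero_mem _
      · simp
      · intro x y hx hy
        rw [map_add]
        exact add_mem hx hy
    rwa [h.same n m hmn] at h2
  refine ⟨?_, ?_, ?_⟩
  · intro n
    have hEfin : (E n).Finite := by
      have : E n ⊆ ⋃ p ∈ T, ⋃ a ∈ Finset.range ((n - p.2).toNat + 1),
          ⋃ b ∈ Finset.range ((n - p.2).toNat + 1),
          {(X 0 ^ a * X 1 ^ b : R2 k) • π p.2 p.1} := by
        rintro y ⟨p, hp, a, b, hab, rfl⟩
        simp only [Set.mem_iUnion, Set.mem_singleton_iff, Finset.mem_range]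
        exact ⟨p, hp, a, by omega, b, by omega, rfl⟩
      refine Set.Finite.subset ?_ this
      refine Set.Finite.biUnion T.finite_toSet fun p _ => ?_
      refine Set.Finite.biUnion (Finset.finite_toSet _) fun a _ => ?_
      exact Set.Finite.biUnion (Finset.finite_toSet _) fun b _ => Set.finite_singleton _
    have : FiniteDimensional k (W n) := FiniteDimensional.span_of_finite k hEfin
    exact Submodule.finiteDimensional_of_le (S₂ := W n) fun m hm => W5 n m hm.1 hm.2
  · have hB : ∃ B : ℤ, ∀ p ∈ T, p.2 ≤ B := by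
      obtain ⟨B, hB⟩ := (T.image Prod.snd).bddAbove
      exact ⟨B, fun p hp => hB (Finset.mem_coe.2 (Finset.mem_image_of_mem _ hp))⟩
    obtain ⟨B, hB⟩ := hB
    refine ⟨B, fun n hn m hm hmn => ?_⟩
    have hmW := W5 _ m hm hmn
    have key : ∀ m ∈ W (n + 1), ∃ a b, a ∈ W n ∧ b ∈ W n ∧
        m = (X 0 : R2 k) • a + (X 1 : R2 k) • b := by
      intro m hm
      induction hm using Submodule.span_induction with
      | mem y hy =>
        obtain ⟨p, hp, a, b, hab, rfl⟩ := hy
        have hpB := hB p hp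
        rcases Nat.eq_zero_or_pos a with ha | ha
        · have hb : 0 < b := by omega
          refine ⟨0, (X 0 ^ a * X 1 ^ (b - 1) : R2 k) • π p.2 p.1, zero_mem _,
            Submodule.subset_span ⟨p, hp, a, b - 1, by omega, rfl⟩, ?_⟩
          rw [smul_zero, zero_add, smul_smul]
          congr 1
          obtain ⟨b', rfl⟩ : ∃ b', b = b' + 1 := ⟨b - 1, by omega⟩
          simp only [Nat.add_sub_cancel]
          ring
        · refine ⟨(X 0 ^ (a - 1) * X 1 ^ b : R2 k) • π p.2 p.1, 0,
            Submodule.subset_span ⟨p, hp, a - 1, b, by omega, rfl⟩, zero_mem _, ?_⟩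
          rw [smul_zero, add_zero, smul_smul]
          congr 1
          obtain ⟨a', rfl⟩ : ∃ a', a = a' + 1 := ⟨a - 1, by omega⟩
          simp only [Nat.add_sub_cancel]
          ring
      | zero => exact ⟨0, 0, zero_mem _, zero_mem _, by simp⟩
      | add x y _ _ hx hy =>
        obtain ⟨a, b, ha, hb, rfl⟩ := hx
        obtain ⟨a', b', ha', hb', rfl⟩ := hy
        refine ⟨a + a', b + b', add_mem ha ha', add_mem hb hb', ?_⟩
        rw [smul_add, smul_add]
        abel
      | smul c x _ hx =>
        obtain ⟨a, b, ha, hb, rfl⟩ := hx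
        refine ⟨c • a, c • b, Submodule.smul_mem _ _ ha, Submodule.smul_mem _ _ hb, ?_⟩
        rw [smul_add, smul_comm c, smul_comm c]
    obtain ⟨a, b, ha, hb, hab⟩ := key m hmW
    exact ⟨a, b, W2' _ ha, W2 _ ha, W2' _ hb, W2 _ hb, hab⟩
  · have hB : ∃ B : ℤ, ∀ p ∈ T, B ≤ p.2 := by
      obtain ⟨B, hB⟩ := (T.image Prod.snd).bddBelow
      exact ⟨B, fun p hp => hB (Finset.mem_coe.2 (Finset.mem_image_of_mem _ hp))⟩
    obtain ⟨B, hB⟩ := hB
    refine ⟨B, fun n hn m hm hmn => ?_⟩
    have hmW := W5 _ m hm hmn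
    have hE0 : E n = ∅ := by
      refine Set.eq_empty_of_forall_notMem ?_
      rintro y ⟨p, hp, a, b, hab, rfl⟩
      have := hB p hp
      omega
    simpa [hW, hE0] using hmW

/-- multiplication by a variable as a `k`-linear map -/
noncomputable def mulX (k M : Type) [Field k] [AddCommGroup M] [Module k M] [Module (R2 k) M]
    [IsScalarTower k (R2 k) M] (i : Fin 2) : M →ₗ[k] M where
  toFun := fun m => (X i : R2 k) • m
  map_add' := fun a b => smul_add _ a b
  map_smul' := fun c a => by
    simp only [RingHom.id_apply]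
    exact smul_comm _ _ _

theorem mulX_apply (i : Fin 2) (m : M) : mulX k M i m = (X i : R2 k) • m := rfl

omit [Module (R2 k) M] [IsScalarTower k (R2 k) M] in
theorem finrank_map_add (f : M →ₗ[k] M) (A : Submodule k M) [FiniteDimensional k A] :
    Module.finrank k (A.map f) + Module.finrank k (A ⊓ LinearMap.ker f : Submodule k M) =
      Module.finrank k A := by
  have h1 := LinearMap.finrank_range_add_finrank_ker (f.domRestrict A)
  rw [LinearMap.range_domRestrict] at h1
  have h2 : (LinearMap.ker (f.domRestrict A)).map A.subtype = A ⊓ LinearMap.ker f := by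
    rw [LinearMap.ker_domRestrict, Submodule.map_comap_subtype]
  have h3 : Module.finrank k (LinearMap.ker (f.domRestrict A)) =
      Module.finrank k (A ⊓ LinearMap.ker f : Submodule k M) := by
    rw [← h2]
    exact (LinearEquiv.finrank_eq (Submodule.equivMapOfInjective _ A.injective_subtype _))
  rw [← h3]
  exact h1

end Pool.Agent.Work.MP_2dff99_ag.Grd
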