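import Pool.Agent.Work.MP_2dff99_ag.Normal
import Pool.Agent.Work.MP_2dff99_ag.Hilb
import Pool.Agent.Work.MP_2dff99_ag.IsoApi
import Pool.Agent.Work.MP_2dff99_ag.Perp

open MvPolynomial

namespace Pool.Agent.Work.MP_2dff99_ag

namespace Stab

variable {k : Type} [Field k]

/-- a nonzero vector and its image under `w` are linearly independent over `k[s, t]` -/
theorem indep [CharZero k] (D : Datum k) (u : Fin 2 → R2 k) (hu : u ≠ 0) (p q : R2 k)
    (h : p • u + q • D.phi.mulVec u = 0) : p = 0 ∧ q = 0 := by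
  obtain ⟨j, hj⟩ : ∃ j, u j ≠ 0 := by
    by_contra hcon
    push Not at hcon
    exact hu (funext hcon)
  by_cases hq : q = 0
  · subst hq
    rw [zero_smul, add_zero] at h
    have h1 : p * u j = 0 := congrFun h j
    exact ⟨(mul_eq_zero.mp h1).resolve_right hj, rfl⟩
  · exfalso
    have h0 : ∀ i, p * u i + q * D.phi.mulVec u i = 0 := fun i => congrFun h i
    have hm : ∀ v : Fin 2 → R2 k, D.phi.mulVec v 0 = D.fa * v 0 + D.fd * v 1 ∧
        D.phi.mulVec v 1 = D.fc * v 0 + -D.fa * v 1 := by
      intro v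
      constructor <;> simp [Datum.phi, Matrix.mulVec, dotProduct, Fin.sum_univ_two]
    have e0 := h0 0
    have e1 := h0 1
    rw [(hm u).1] at e0
    rw [(hm u).2] at e1
    have key : ∀ i, (q ^ 2 * (D.fa ^ 2 + D.fc * D.fd) - p ^ 2) * u i = 0 := by
      intro i
      fin_cases i
      · change (q ^ 2 * (D.fa ^ 2 + D.fc * D.fd) - p ^ 2) * u 0 = 0
        linear_combination (q * D.fa - p) * e0 + (q * D.fd) * e1
      · change (q ^ 2 * (D.fa ^ 2 + D.fc * D.fd) - p ^ 2) * u 1 = 0
        linear_combination (q * D.fc) * e0 + (-q * D.fa - p) * e1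
    have h1 := (mul_eq_zero.mp (key j)).resolve_right hj
    have h2 : q ^ 2 ∣ p ^ 2 := ⟨D.fa ^ 2 + D.fc * D.fd, by linear_combination -h1⟩
    rw [IsIntegrallyClosed.pow_dvd_pow_iff two_ne_zero] at h2
    obtain ⟨g, hg⟩ := h2
    have h3 : q ^ 2 * (D.fa ^ 2 + D.fc * D.fd) = q ^ 2 * g ^ 2 := by
      rw [hg] at h1
      linear_combination h1
    have h4 := mul_left_cancel₀ (pow_ne_zero 2 hq) h3
    rw [D.rel] at h4
    exact not_square k D.P D.Q D.ind g h4

/-- a subspace stable under the coordinates is stable under `k[s, t]` -/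
theorem smul_mem (D : Datum k) (N : Submodule k (Fin 2 → R2 k))
    (hX : ∀ (i : Fin 3) (p : Fin 2 → R2 k), p ∈ N → (fun j => lineVec D.P D.Q i * p j) ∈ N)
    (r : R2 k) : ∀ p ∈ N, r • p ∈ N := by
  obtain ⟨μ, ν, hμP, hμQ, hνP, hνQ⟩ := exists_dual D.P D.Q D.ind
  have hcomb : ∀ (μ : Fin 3 → k) (m : Fin 2 → R2 k), m ∈ N →
      ((C (∑ i, μ i * D.P i) * X 0 + C (∑ i, μ i * D.Q i) * X 1 : R2 k) • m) ∈ N := by
    intro μ m hm
    have e1 : ((C (∑ i, μ i * D.P i) * X 0 + C (∑ i, μ i * D.Q i) * X 1 : R2 k) • m) =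
        ∑ i, μ i • (fun j => lineVec D.P D.Q i * m j) := by
      funext j
      simp only [Fin.sum_univ_three, Pi.smul_apply, smul_eq_mul, Pi.add_apply,
        MvPolynomial.smul_eq_C_mul, lineVec, C_add, C_mul]
      ring
    rw [e1]
    exact Submodule.sum_mem _ fun i _ => N.smul_mem _ (hX i m hm)
  have hX0 : ∀ m ∈ N, (X 0 : R2 k) • m ∈ N := by
    intro m hm
    have := hcomb μ m hm
    rw [hμP, hμQ] at this
    simpa only [map_one, map_zero, one_mul, zero_mul, add_zero] using this
  have hX1 : ∀ m ∈ N, (X 1 : R2 k) • m ∈ N := by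
    intro m hm
    have := hcomb ν m hm
    rw [hνP, hνQ] at this
    simpa only [map_one, map_zero, one_mul, zero_mul, zero_add] using this
  induction r using MvPolynomial.induction_on with
  | C a =>
    intro m hm
    have : (C a : R2 k) • m = a • m := by
      funext j
      simp [MvPolynomial.smul_eq_C_mul]
    rw [this]
    exact N.smul_mem _ hm
  | add p q hp hq =>
    intro m hm
    rw [add_smul]
    exact N.add_mem (hp m hm) (hq m hm)
  | mul_X p i hp =>
    intro m hm
    rw [mul_smul]
    apply hp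
    fin_cases i
    · exact hX0 m hm
    · exact hX1 m hm

/-- the Hilbert function of a stable graded subspace is eventually linear -/
theorem hilb_sub (e : ℕ) (N : Submodule (R2 k) (Fin 2 → R2 k))
    (hgr : N.restrictScalars k = ⨆ n : ℤ, N.restrictScalars k ⊓ grM k e n) :
    ∃ a b : ℤ, ∀ᶠ n : ℤ in Filter.atTop,
      (Module.finrank k (N.restrictScalars k ⊓ grM k e n : Submodule k (Fin 2 → R2 k)) : ℤ) =
        a * n + b := by
  let ι : N →ₗ[k] (Fin 2 → R2 k) := N.subtype.restrictScalars k
  have hι : Function.Injective ι := N.subtype_injective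
  let gr : ℤ → Submodule k N := fun n => (grM k e n).comap ι
  have hmap : ∀ n, (gr n).map ι = N.restrictScalars k ⊓ grM k e n := by
    intro n
    ext x
    constructor
    · rintro ⟨y, hy, rfl⟩
      exact ⟨y.2, hy⟩
    · rintro ⟨hx1, hx2⟩
      exact ⟨⟨x, hx1⟩, hx2, rfl⟩
  have hind : iSupIndep (grM k e) := (model_internal e).submodule_iSupIndep
  have hint : DirectSum.IsInternal gr := by
    rw [DirectSum.isInternal_submodule_iff_iSupIndep_and_iSup_eq_top]
    refine ⟨?_, ?_⟩
    · intro n
      rw [disjoint_iff]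
      apply Submodule.map_injective_of_injective hι
      rw [Submodule.map_bot, Submodule.map_inf _ hι, hmap]
      refine le_bot_iff.mp ?_
      have h1 := hind n
      rw [disjoint_iff] at h1
      rw [← h1]
      refine inf_le_inf inf_le_right ?_
      rw [Submodule.map_iSup]
      refine iSup_mono fun j => ?_
      rw [Submodule.map_iSup]
      refine iSup_mono fun _ => ?_
      rw [hmap]
      exact inf_le_right
    · apply Submodule.map_injective_of_injective hι
      have h2 : (⨆ n, gr n).map ι = ⨆ n, N.restrictScalars k ⊓ grM k e n := by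
        rw [Submodule.map_iSup]
        exact iSup_congr hmap
      rw [h2, ← hgr, Submodule.map_top]
      ext x
      constructor
      · intro hx
        exact ⟨⟨x, hx⟩, rfl⟩
      · rintro ⟨y, rfl⟩
        exact y.2
  obtain ⟨a, b, hab⟩ := hilb_two gr hint (by
    intro i n m hm
    obtain ⟨h0, h1⟩ := hm
    have hX := homZ_X (k := k) i
    refine ⟨?_, ?_⟩
    · have := homZ_mul hX h0
      have e2 : (1 : ℤ) + (n - (1 - e)) = n + 1 - (1 - e) := by ring
      rw [e2] at this
      exact this
    · have := homZ_mul hX h1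
      have e2 : (1 : ℤ) + (n - (1 + e)) = n + 1 - (1 + e) := by ring
      rw [e2] at this
      exact this)
  refine ⟨a, b, hab.mono fun n hn => ?_⟩
  rw [← hn]
  congr 1
  rw [← hmap]
  exact (LinearEquiv.finrank_eq (Submodule.equivMapOfInjective ι hι (gr n))).symm

theorem core [CharZero k] (D : Datum k) (N : Submodule k (Fin 2 → R2 k))
    (hX : ∀ (i : Fin 3) (p : Fin 2 → R2 k), p ∈ N → (fun j => lineVec D.P D.Q i * p j) ∈ N)
    (hw : ∀ p ∈ N, D.phi.mulVec p ∈ N)
    (hgr : N = ⨆ n : ℤ, N ⊓ grM k D.e n) (hne : N ≠ ⊥)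
    (hev : ¬ ∀ᶠ n : ℤ in Filter.atTop, grM k D.e n ≤ N) :
    ∃ a b : ℤ, 0 < a ∧ b < 0 ∧ ∀ᶠ n : ℤ in Filter.atTop,
      (Module.finrank k (N ⊓ grM k D.e n : Submodule k (Fin 2 → R2 k)) : ℤ) = a * n + b := by
  let N' : Submodule (R2 k) (Fin 2 → R2 k) :=
    { carrier := N
      add_mem' := fun ha hb => N.add_mem ha hb
      zero_mem' := N.zero_mem
      smul_mem' := fun r p hp => smul_mem D N hX r p hp }
  have hN' : N'.restrictScalars k = N := by
    ext x
    rfl
  obtain ⟨a, b, hab⟩ := hilb_sub D.e N' (by rw [hN']; exact hgr)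
  rw [hN'] at hab
  -- a homogeneous element
  obtain ⟨n0, hn0⟩ : ∃ n0, N ⊓ grM k D.e n0 ≠ ⊥ := by
    by_contra hcon
    push Not at hcon
    apply hne
    rw [hgr]
    simp [hcon]
  obtain ⟨u, hu, hu0⟩ := Submodule.exists_mem_ne_zero_of_ne_bot hn0
  have hwu : D.phi.mulVec u ∈ grM k D.e (n0 + 3) := by
    have := model_deg3 D n0 u hu.2
    rwa [rho_X3] at this
  have hfin : ∀ n : ℤ, 2 ≤ n → Module.Finite k (grM k D.e n) := by
    intro n hn
    apply Module.finite_of_finrank_pos
    have := finrank_grM (k := k) D.e D.he n hn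
    omega
  have hupper : ∀ n : ℤ, 2 ≤ n →
      (Module.finrank k (N ⊓ grM k D.e n : Submodule k (Fin 2 → R2 k)) : ℤ) ≤ 2 * n := by
    intro n hn
    have := hfin n hn
    rw [← finrank_grM (k := k) D.e D.he n hn]
    exact_mod_cast Submodule.finrank_mono inf_le_right
  have hlower : ∀ n : ℤ, 2 ≤ n → n0 + 3 ≤ n → 2 * (n - n0 - 1) ≤
      (Module.finrank k (N ⊓ grM k D.e n : Submodule k (Fin 2 → R2 k)) : ℤ) := by
    intro n hn hn1
    have := hfin n hn
    have hfi : Module.Finite k (N ⊓ grM k D.e n : Submodule k (Fin 2 → R2 k)) :=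
      Submodule.finiteDimensional_inf_right _ _
    rw [← finrank_grM (k := k) 1 le_rfl (n - n0 - 1) (by omega)]
    let f : (Fin 2 → R2 k) →ₗ[k] (Fin 2 → R2 k) :=
      { toFun := fun p => ((X 0 : R2 k) * p 0) • u + p 1 • D.phi.mulVec u
        map_add' := fun p q => by
          funext j
          simp only [Pi.add_apply, Pi.smul_apply, smul_eq_mul]
          ring
        map_smul' := fun c p => by
          funext j
          simp only [Pi.add_apply, Pi.smul_apply, smul_eq_mul, MvPolynomial.smul_eq_C_mul,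
            RingHom.id_apply]
          ring }
    have hf : ∀ p ∈ grM k 1 (n - n0 - 1), f p ∈ N ⊓ grM k D.e n := by
      intro p hp
      obtain ⟨h0, h1⟩ := hp
      refine ⟨?_, ?_⟩
      · exact N.add_mem (smul_mem D N hX _ _ hu.1) (smul_mem D N hX _ _ (hw u hu.1))
      · have h2 := homZ_mul (homZ_X (k := k) 0) h0
        refine Submodule.add_mem _ ?_ ?_
        · have g0 := homZ_mul h2 hu.2.1
          have g1 := homZ_mul h2 hu.2.2
          have d0 : (1 : ℤ) + (n - n0 - 1 - (1 - (1 : ℕ))) + (n0 - (1 - D.e)) =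
              n - (1 - D.e) := by
            push_cast
            ring
          have d1 : (1 : ℤ) + (n - n0 - 1 - (1 - (1 : ℕ))) + (n0 - (1 + D.e)) =
              n - (1 + D.e) := by
            push_cast
            ring
          rw [d0] at g0
          rw [d1] at g1
          exact ⟨g0, g1⟩
        · have g0 := homZ_mul h1 hwu.1
          have g1 := homZ_mul h1 hwu.2
          have d0 : (n - n0 - 1 - (1 + (1 : ℕ)) : ℤ) + (n0 + 3 - (1 - D.e)) =
              n - (1 - D.e) := by
            push_cast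
            ring
          have d1 : (n - n0 - 1 - (1 + (1 : ℕ)) : ℤ) + (n0 + 3 - (1 + D.e)) =
              n - (1 + D.e) := by
            push_cast
            ring
          rw [d0] at g0
          rw [d1] at g1
          exact ⟨g0, g1⟩
    have hinj : Function.Injective (f.restrict hf) := by
      rw [injective_iff_map_eq_zero]
      rintro ⟨p, hp⟩ h
      have h1 : f p = 0 := congrArg Subtype.val h
      obtain ⟨h2, h3⟩ := indep D u hu0 _ _ h1
      have h4 : p 0 = 0 := (mul_eq_zero.mp h2).resolve_left (X_ne_zero 0)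
      ext j : 2
      fin_cases j
      · exact h4
      · exact h3
    exact_mod_cast LinearMap.finrank_le_finrank_of_injective hinj
  -- the coefficients
  obtain ⟨n1, hn1⟩ := Filter.eventually_atTop.mp hab
  have ha : a = 2 := by
    set m : ℤ := max n1 (|b| + 2 * |n0| + 5) with hm
    have h1 : n1 ≤ m := le_max_left _ _
    have h2 : |b| + 2 * |n0| + 5 ≤ m := le_max_right _ _
    have hb1 := neg_abs_le b
    have hb2 := le_abs_self b
    have hn1' := neg_abs_le n0
    have hn2' := le_abs_self n0
    have hb3 := abs_nonneg b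
    have hn3 := abs_nonneg n0
    have h3 := hn1 m h1
    have h4 := hupper m (by linarith)
    have h5 := hlower m (by linarith) (by linarith)
    rw [h3] at h4 h5
    have hm0 : 0 < m := by linarith
    by_contra hne2
    rcases lt_or_gt_of_ne hne2 with h6 | h6
    · have h7 : a * m ≤ 1 * m := mul_le_mul_of_nonneg_right (by omega) hm0.le
      linarith
    · have h7 : 3 * m ≤ a * m := mul_le_mul_of_nonneg_right (by omega) hm0.le
      linarith
  subst ha
  refine ⟨2, b, by norm_num, ?_, hab⟩
  by_contra hb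
  apply hev
  filter_upwards [Filter.eventually_ge_atTop n1, Filter.eventually_ge_atTop 2] with n hn2 hn3
  have := hfin n hn3
  have h1 := hn1 n hn2
  have h2 := hupper n hn3
  have h3 : (Module.finrank k (N ⊓ grM k D.e n : Submodule k (Fin 2 → R2 k))) =
      Module.finrank k (grM k D.e n) := by
    have h4 := finrank_grM (k := k) D.e D.he n hn3
    omega
  have h5 := Submodule.eq_of_le_of_finrank_eq (inf_le_right : N ⊓ grM k D.e n ≤ grM k D.e n) h3
  rw [← h5]
  exact inf_le_left

end Stab

theorem stable_datum (k : Type) [Field k] [CharZero k] (D : Datum k) : D.sheaf.Stable := by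
  intro N hgr hne hev
  let N0 : Submodule k (Fin 2 → R2 k) := N.restrictScalars k
  refine Stab.core D N0 ?_ ?_ hgr ?_ hev
  · intro i p hp
    have h1 : D.rho (X i.castSucc) p ∈ N0 :=
      N.smul_mem (X i.castSucc : MvPolynomial (Fin 4) k) hp
    rwa [rho_X] at h1
  · intro p hp
    have h1 : D.rho (X 3) p ∈ N0 := N.smul_mem (X 3 : MvPolynomial (Fin 4) k) hp
    rwa [rho_X3] at h1
  · intro h0
    apply hne
    rw [eq_bot_iff]
    intro x hx
    have h1 : (x : Fin 2 → R2 k) ∈ N0 := hx
    rw [h0] at h1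
    exact h1

theorem stable_of_class (k : Type) [Field k] [CharZero k] (S : Sheaf k) (h : S.OfClass) :
    S.Stable := by
  obtain ⟨⟨c, hc, hk⟩, hdim⟩ := h
  obtain ⟨P, Q, ind, hP, hQ⟩ := exists_perp k c hc
  obtain ⟨D, -, -, hD⟩ := normal_form k S hdim c hc hk P Q ind hP hQ
  exact hD.symm.stable (stable_datum k D)

end Pool.Agent.Work.MP_2dff99_ag
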