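import Pool.Agent.Work.MP_2dff99_ag.Smooth
import Pool.Agent.Work.MP_2dff99_ag.Split
import Pool.Agent.Work.MP_2dff99_ag.ExistP
import Pool.Agent.Work.MP_2dff99_ag.Stab
import Pool.Agent.Work.MP_2dff99_ag.Line
import Pool.Agent.Work.MP_2dff99_ag.Gal11
import Pool.Agent.Work.MP_2dff99_ag.Gal02
import Pool.Agent.Work.MP_2dff99_ag.BaseChg
import Pool.Agent.Work.MP_2dff99_ag.DescClass
import Pool.Agent.Work.MP_2dff99_ag.RealPt
import Pool.Agent.Work.MP_2dff99_ag.RealNo

open MvPolynomial

namespace Pool.Agent.Work.MP_2dff99_ag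

instance (L : Type) [Field L] [CharZero L] : CharZero (AlgebraicClosure L) :=
  charZero_of_injective_algebraMap (algebraMap L (AlgebraicClosure L)).injective

/-- a datum over `L` gives an `L`-point -/
theorem ratPoint_of_datum (L : Type) [Field L] [CharZero L] (D : Datum L) :
    Nonempty (RatPoint L) := by
  have h1 : HomZ (1 : R2 (AlgebraicClosure L)) 0 := by
    have := homZ_C (k := AlgebraicClosure L) 1
    rwa [map_one] at this
  refine ⟨⟨(D.map (algebraMap L (AlgebraicClosure L))).sheaf, model_ofClass _,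
    stable_datum _ _, fun σ => ?_⟩⟩
  refine twist_of_matrix _ _ σ.bijective (fun i => σ.commutes _) (fun i => σ.commutes _) 1
    ⟨by simp, ?_, ?_, ?_, ?_⟩ ?_
  · simpa using h1
  · simpa using homZ_zero _
  · simpa using homZ_zero _
  · simpa using h1
  · rw [mul_one, one_mul, phi_map]
    ext i j
    congr 1
    simp only [Matrix.map_apply, MvPolynomial.map_map]
    congr 2
    ext a
    exact (σ.commutes a).symm

theorem descends_of_split (L : Type) [Field L] [CharZero L] (hs : SplitProp L)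
    (x : RatPoint L) : x.Descends := by
  obtain ⟨c, hc, hk⟩ := line_rational L x.S x.ofClass x.galois
  obtain ⟨P, Q, ind, hP, hQ⟩ := exists_perp L c hc
  have hc' : (fun i => algebraMap L (AlgebraicClosure L) (c i)) ≠ 0 := by
    intro h
    apply hc
    ext i
    have := congrFun h i
    simpa using this
  obtain ⟨D, hDP, hDQ, hD⟩ := normal_form (AlgebraicClosure L) x.S x.ofClass.2 _ hc' hk
    (fun i => algebraMap L _ (P i)) (fun i => algebraMap L _ (Q i))
    (ind_map (algebraMap L (AlgebraicClosure L)) P Q ind)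
    (by simpa using congrArg (algebraMap L (AlgebraicClosure L)) hP)
    (by simpa using congrArg (algebraMap L (AlgebraicClosure L)) hQ)
  have hg : ∀ σ : AlgebraicClosure L ≃ₐ[L] AlgebraicClosure L,
      ∃ G : Matrix (Fin 2) (Fin 2) (R2 (AlgebraicClosure L)), GoodMat D.e G ∧
      D.phi * G = G * D.phi.map
        (MvPolynomial.map (σ : AlgebraicClosure L →+* AlgebraicClosure L)) := fun σ =>
    matrix_of_twist D _ σ.bijective (fun i => by rw [hDP]; exact σ.commutes _)
      (fun i => by rw [hDQ]; exact σ.commutes _) (hD.twist _ (x.galois σ))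
  obtain ⟨D0, h0P, h0Q, h0e, H, hH, hHc⟩ : ∃ D0 : Datum L, D0.P = P ∧ D0.Q = Q ∧ D0.e = D.e ∧
      ∃ H : Matrix (Fin 2) (Fin 2) (R2 (AlgebraicClosure L)), GoodMat D.e H ∧
      H * D.phi = (D0.map (algebraMap L (AlgebraicClosure L))).phi * H := by
    have he := D.he
    rcases Nat.lt_or_ge D.e 1 with h | h
    · exact gal11 L hs D (by omega) P Q hDP hDQ hg
    · exact gal02 L D (by omega) P Q hDP hDQ hg
  have hiso : D.sheaf.Iso (D0.map (algebraMap L (AlgebraicClosure L))).sheaf :=
    iso_of_matrix D _ (by rw [hDP]; simp [Datum.map, h0P]) (by rw [hDQ]; simp [Datum.map, h0Q])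
      (by simp [Datum.map, h0e]) H hH hHc
  exact ⟨D0.sheaf, (hD.trans hiso).symm.baseChange (baseChange_datum D0)⟩

theorem real_point : Nonempty (RatPoint ℝ) := by
  obtain ⟨D, hD⟩ := exists_real_datum
  exact ⟨⟨D.sheaf, model_ofClass _, stable_datum _ _, hD⟩⟩

theorem real_not_descends (x : RatPoint ℝ) : ¬ x.Descends := by
  rintro ⟨T, hT⟩
  obtain ⟨⟨c, hc, hk⟩, hdim⟩ := ofClass_of_baseChange T x.S hT x.ofClass
  obtain ⟨P, Q, ind, hP, hQ⟩ := exists_perp ℝ c hc
  obtain ⟨D, -, -, -⟩ := normal_form ℝ T hdim c hc hk P Q ind hP hQ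
  exact no_real_datum D

end Pool.Agent.Work.MP_2dff99_ag
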