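import Pool.Agent.Work.MP_2dff99_ag.HomZ
import Pool.Agent.Work.MP_2dff99_ag.Grd

open MvPolynomial

namespace Pool.Agent.Work.MP_2dff99_ag

namespace Free

variable {k M : Type} [Field k] [AddCommGroup M] [Module k M] [Module (R2 k) M]
  [IsScalarTower k (R2 k) M]

theorem descent (gr : ℤ → Submodule k M) (π : ℤ → (M →ₗ[k] M)) (hπ : Grd.Comp gr π)
    (hX : ∀ (i : Fin 2) (n : ℤ) (m : M), m ∈ gr n → (X i : R2 k) • m ∈ gr (n + 1))
    (B0 : ℤ) (hB0 : ∀ n, n < B0 → ∀ m ∈ gr n, m = 0) (i j : Fin 2)
    (h : ∀ m : M, (X i : R2 k) • m = 0 → ∃ m', m = (X j : R2 k) • m' ∧ (X i : R2 k) • m' = 0)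
    (m : M) (hm : (X i : R2 k) • m = 0) : m = 0 := by
  have key : ∀ N : ℕ, ∀ n, n < B0 + N → ∀ m ∈ gr n, (X i : R2 k) • m = 0 → m = 0 := by
    intro N
    induction N with
    | zero =>
      intro n hn m hm _
      exact hB0 n (by simpa using hn) m hm
    | succ N ih =>
      intro n hn m hm h0
      obtain ⟨m', hm', h0'⟩ := h m h0
      have e1 : m = (X j : R2 k) • π (n - 1) m' := by
        rw [← hπ.X_smul' hX, ← hm', hπ.same n m hm]
      have e2 : (X i : R2 k) • π (n - 1) m' = 0 := by
        rw [← hπ.X_smul' hX, h0', map_zero]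
      have e3 := ih (n - 1) (by push_cast at hn; omega) _ (hπ.mem _ _) e2
      rw [e1, e3, smul_zero]
  refine hπ.eq_zero fun n => ?_
  refine key (n - B0 + 1).toNat n (by omega) _ (hπ.mem _ _) ?_
  rw [← hπ.X_smul hX, hm, map_zero]

theorem comp_monomial (gr : ℤ → Submodule k M) (π : ℤ → (M →ₗ[k] M)) (hπ : Grd.Comp gr π)
    (hX : ∀ (i : Fin 2) (n : ℤ) (m : M), m ∈ gr n → (X i : R2 k) • m ∈ gr (n + 1))
    (d : ℤ) (e : M) (he : e ∈ gr d) (n : ℤ) (m : Fin 2 →₀ ℕ) (c : k) (hm : m 0 = 0) :
    π n ((monomial m c : R2 k) • e) =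
      if (m 1 : ℤ) + d = n then c • (X 1 ^ m 1 : R2 k) • e else 0 := by
  have e0 : m = Finsupp.single 1 (m 1) := by
    ext i
    fin_cases i
    · simpa using hm
    · simp
  have e1 : (monomial m c : R2 k) • e = c • (X 1 ^ m 1 : R2 k) • e := by
    have e2 : (monomial m c : R2 k) = C c * X 1 ^ m 1 := by
      rw [X_pow_eq_monomial, C_mul_monomial, mul_one, ← e0]
    rw [e2, mul_smul, ← algebraMap_eq, algebraMap_smul]
  have e3 : c • (X 1 ^ m 1 : R2 k) • e ∈ gr (m 1 + d) := by
    refine Submodule.smul_mem _ _ ?_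
    have := Grd.mon_mem gr hX 0 (m 1) d e he
    simpa using this
  rw [e1]
  split_ifs with h
  · rw [h] at e3
    exact hπ.same _ _ e3
  · exact hπ.ne _ _ _ e3 h

theorem comp_q (gr : ℤ → Submodule k M) (π : ℤ → (M →ₗ[k] M)) (hπ : Grd.Comp gr π)
    (hX : ∀ (i : Fin 2) (n : ℤ) (m : M), m ∈ gr n → (X i : R2 k) • m ∈ gr (n + 1))
    (d : ℤ) (e : M) (he : e ∈ gr d) (q : R2 k) (hq : ∀ m, coeff m q ≠ 0 → m 0 = 0) (b : ℕ) :
    π (b + d) (q • e) = coeff (Finsupp.single 1 b) q • (X 1 ^ b : R2 k) • e := by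
  classical
  conv_lhs => rw [← support_sum_monomial_coeff q, Finset.sum_smul, map_sum]
  have h1 : ∀ m ∈ q.support, π (b + d) ((monomial m (coeff m q) : R2 k) • e) =
      if m = Finsupp.single 1 b then coeff (Finsupp.single 1 b) q • (X 1 ^ b : R2 k) • e else 0 := by
    intro m hm
    have hm0 := hq m (by simpa using hm)
    rw [comp_monomial gr π hπ hX d e he _ m _ hm0]
    by_cases h : m = Finsupp.single 1 b
    · subst h
      simp
    · rw [if_neg h, if_neg]
      intro h2
      apply h
      ext i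
      fin_cases i
      · simpa using hm0
      · simp
        omega
  rw [Finset.sum_congr rfl h1, Finset.sum_ite_eq' q.support (Finsupp.single 1 b)]
  split_ifs with h
  · rfl
  · rw [notMem_support_iff.1 h, zero_smul]

theorem comp_q' (gr : ℤ → Submodule k M) (π : ℤ → (M →ₗ[k] M)) (hπ : Grd.Comp gr π)
    (hX : ∀ (i : Fin 2) (n : ℤ) (m : M), m ∈ gr n → (X i : R2 k) • m ∈ gr (n + 1))
    (d : ℤ) (e : M) (he : e ∈ gr d) (q : R2 k) (hq : ∀ m, coeff m q ≠ 0 → m 0 = 0) (n : ℤ)
    (hn : n < d) : π n (q • e) = 0 := by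
  classical
  conv_lhs => rw [← support_sum_monomial_coeff q, Finset.sum_smul, map_sum]
  refine Finset.sum_eq_zero fun m hm => ?_
  have hm0 := hq m (by simpa using hm)
  rw [comp_monomial gr π hπ hX d e he _ m _ hm0, if_neg (by omega)]

end Free

/-- a graded module of depth 2 over `k[s, t]` with Hilbert polynomial `2 n` is free on two
homogeneous elements whose degrees add up to 2 -/
theorem free_two {k M : Type} [Field k] [AddCommGroup M] [Module k M] [Module (R2 k) M]
    [IsScalarTower k (R2 k) M] [Module.Finite (R2 k) M] (gr : ℤ → Submodule k M)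
    (hint : DirectSum.IsInternal gr)
    (hX : ∀ (i : Fin 2) (n : ℤ) (m : M), m ∈ gr n → (X i : R2 k) • m ∈ gr (n + 1))
    (sat0 : ∀ m : M, (X 0 : R2 k) • m = 0 → (X 1 : R2 k) • m = 0 → m = 0)
    (sat1 : ∀ a b : M, (X 0 : R2 k) • b = (X 1 : R2 k) • a →
      ∃ m : M, a = (X 0 : R2 k) • m ∧ b = (X 1 : R2 k) • m)
    (hdim : ∀ᶠ n : ℤ in Filter.atTop, (Module.finrank k (gr n) : ℤ) = 2 * n) :
    ∃ (d : Fin 2 → ℤ) (b : Module.Basis (Fin 2) (R2 k) M), d 0 ≤ d 1 ∧ d 0 + d 1 = 2 ∧
      ∀ j, b j ∈ gr (d j) := by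
  obtain ⟨π, hπ⟩ := Grd.exists_comp gr hint
  obtain ⟨hfin, -, ⟨B0, hB0'⟩⟩ :=
    Grd.gen gr π hπ hX ⊤ Module.Finite.fg_top (fun _ _ _ => trivial)
  have hB0 : ∀ n, n < B0 → ∀ m ∈ gr n, m = 0 := fun n hn m hm => hB0' n hn m trivial hm
  have hfin' : ∀ n, FiniteDimensional k (gr n) := by
    intro n
    have := hfin n
    rw [Submodule.restrictScalars_top, top_inf_eq] at this
    exact this
  have sinj : ∀ m : M, (X 0 : R2 k) • m = 0 → m = 0 := by
    refine Free.descent gr π hπ hX B0 hB0 0 1 fun m hm => ?_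
    obtain ⟨m', h1, h2⟩ := sat1 0 m (by rw [hm, smul_zero])
    exact ⟨m', h2, h1.symm⟩
  have tinj : ∀ m : M, (X 1 : R2 k) • m = 0 → m = 0 := by
    refine Free.descent gr π hπ hX B0 hB0 1 0 fun m hm => ?_
    obtain ⟨m', h1, h2⟩ := sat1 m 0 (by rw [hm, smul_zero])
    exact ⟨m', h1, h2.symm⟩
  -- `s M` is graded
  have sgr : ∀ n m y, m ∈ gr n → m = (X 0 : R2 k) • y → m = (X 0 : R2 k) • π (n - 1) y := by
    intro n m y hm hy
    rw [← hπ.X_smul' hX, ← hy, hπ.same n m hm]
  -- `t` is injective modulo `s`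
  have tpow : ∀ (j : ℕ) (x y : M), (X 1 ^ j : R2 k) • x = (X 0 : R2 k) • y →
      ∃ m, x = (X 0 : R2 k) • m := by
    intro j
    induction j with
    | zero => intro x y h; exact ⟨y, by simpa using h⟩
    | succ j ih =>
      intro x y h
      rw [pow_succ', mul_smul] at h
      obtain ⟨m, h1, -⟩ := sat1 _ _ h.symm
      exact ih x m h1
  set s : M →ₗ[k] M := Grd.mulX k M 0 with hs
  set t : M →ₗ[k] M := Grd.mulX k M 1 with ht
  have hmul : ∀ (i : Fin 2) (n : ℤ), (gr (n - 1)).map (Grd.mulX k M i) ≤ gr n := by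
    intro i n
    rintro _ ⟨m, hm, rfl⟩
    have := hX i (n - 1) m hm
    rwa [sub_add_cancel] at this
  have sinj' : Function.Injective s :=
    (injective_iff_map_eq_zero s).2 fun m hm => sinj m hm
  have tinj' : Function.Injective t :=
    (injective_iff_map_eq_zero t).2 fun m hm => tinj m hm
  set h : ℤ → ℤ := fun n => (Module.finrank k (gr n) : ℤ) with hh
  have hs_rank : ∀ n, (Module.finrank k ((gr n).map s) : ℤ) = h n := by
    intro n
    simp only [hh]
    rw [← (Submodule.equivMapOfInjective s sinj' (gr n)).finrank_eq]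
  have ht_rank : ∀ n, (Module.finrank k ((gr n).map t) : ℤ) = h n := by
    intro n
    simp only [hh]
    rw [← (Submodule.equivMapOfInjective t tinj' (gr n)).finrank_eq]
  have hts_rank : ∀ n, (Module.finrank k (((gr n).map s).map t) : ℤ) = h n := by
    intro n
    rw [← hs_rank]
    rw [← (Submodule.equivMapOfInjective t tinj' ((gr n).map s)).finrank_eq]
  -- the difference function
  set g : ℤ → ℤ := fun n => h n - h (n - 1) with hg
  have g_succ : ∀ n, g n ≤ g (n + 1) := by
    intro n
    have f0 := hfin' n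
    have f1 := hfin' (n + 1)
    have f2 := hfin' (n - 1)
    have e2 := Submodule.finrank_sup_add_finrank_inf_eq ((gr n).map s) ((gr n).map t)
    have e3 : (gr n).map s ⊓ (gr n).map t ≤ ((gr (n - 1)).map s).map t := by
      rintro y ⟨⟨a, ha, rfl⟩, ⟨b, hb, hab⟩⟩
      obtain ⟨m, h1, h2⟩ := sat1 b a hab.symm
      have h3 := sgr n b m hb h1
      refine ⟨b, ⟨π (n - 1) m, hπ.mem _ _, h3.symm⟩, ?_⟩
      exact hab
    have e4 := Submodule.finrank_mono e3
    have e5 : (gr n).map s ⊔ (gr n).map t ≤ gr (n + 1) := by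
      have h0 := hmul 0 (n + 1)
      have h1 := hmul 1 (n + 1)
      rw [add_sub_cancel_right] at h0 h1
      exact sup_le h0 h1
    have e6 := Submodule.finrank_mono e5
    have e7 := hs_rank n
    have e8 := ht_rank n
    have e9 := hts_rank (n - 1)
    simp only [hg, add_sub_cancel_right]
    simp only [hh] at e7 e8 e9 ⊢
    omega
  have g_mono : Monotone g := monotone_int_of_le_succ g_succ
  obtain ⟨B1, hB1⟩ := Filter.eventually_atTop.1 hdim
  have hg2 : ∀ n, B1 < n → g n = 2 := by
    intro n hn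
    have h1 : h n = 2 * n := hB1 n (by omega)
    have h2 : h (n - 1) = 2 * (n - 1) := hB1 (n - 1) (by omega)
    simp only [hg]
    linarith
  have g_le : ∀ n, g n ≤ 2 := by
    intro n
    rw [← hg2 (max n (B1 + 1)) (by omega)]
    exact g_mono (le_max_left _ _)
  have h_zero : ∀ n, n < B0 → h n = 0 := by
    intro n hn
    have : gr n = ⊥ := (Submodule.eq_bot_iff _).2 (hB0 n hn)
    simp only [hh]
    rw [this]
    simp
  have g_zero : ∀ n, n < B0 → g n = 0 := by
    intro n hn
    simp only [hg]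
    rw [h_zero n hn, h_zero (n - 1) (by omega)]
    rfl
  obtain ⟨d0, hd0, hd0min⟩ := Int.exists_least_of_bdd (P := fun n => 1 ≤ g n)
    ⟨B0, fun z hz => by
      by_contra hlt
      have := g_zero z (by omega)
      omega⟩ ⟨B1 + 1, by rw [hg2 (B1 + 1) (by omega)]; norm_num⟩
  obtain ⟨d1, hd1, hd1min⟩ := Int.exists_least_of_bdd (P := fun n => 2 ≤ g n)
    ⟨B0, fun z hz => by
      by_contra hlt
      have := g_zero z (by omega)
      omega⟩ ⟨B1 + 1, by rw [hg2 (B1 + 1) (by omega)]⟩
  have hd01 : d0 ≤ d1 := hd0min d1 (by omega)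
  -- the first generator
  obtain ⟨e0, he0, he0'⟩ : ∃ e0 ∈ gr d0, e0 ∉ (gr (d0 - 1)).map s := by
    by_contra hcon
    push Not at hcon
    have f0 := hfin' (d0 - 1)
    have h1 : gr d0 ≤ (gr (d0 - 1)).map s := hcon
    have h2 := Submodule.finrank_mono h1
    have h3 := hs_rank (d0 - 1)
    simp only [hg] at hd0
    simp only [hh] at hd0 h3
    omega
  have he0s : ∀ (j : ℕ) (y : M), (X 1 ^ j : R2 k) • e0 ≠ (X 0 : R2 k) • y := by
    intro j y hy
    obtain ⟨m, hm⟩ := tpow j e0 y hy
    exact he0' ⟨π (d0 - 1) m, hπ.mem _ _, (sgr d0 e0 m he0 hm).symm⟩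
  -- the second generator
  have hx0 : ∀ j : ℕ, (X 1 ^ j : R2 k) • e0 ∈ gr (d0 + j) := by
    intro j
    have := Grd.mon_mem gr hX 0 j d0 e0 he0
    simpa [add_comm] using this
  obtain ⟨e1, he1, he1'⟩ : ∃ e1 ∈ gr d1, e1 ∉ (gr (d1 - 1)).map s ⊔
      Submodule.span k {(X 1 ^ (d1 - d0).toNat : R2 k) • e0} := by
    by_contra hcon
    push Not at hcon
    have f0 := hfin' (d1 - 1)
    have h1 : gr d1 ≤ _ := hcon
    have h2 := Submodule.finrank_mono h1
    have h3 := hs_rank (d1 - 1)
    have h4 := Submodule.finrank_add_le_finrank_add_finrank ((gr (d1 - 1)).map s)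
      (Submodule.span k {(X 1 ^ (d1 - d0).toNat : R2 k) • e0})
    have hne : (X 1 ^ (d1 - d0).toNat : R2 k) • e0 ≠ 0 := by
      intro h0
      exact he0s _ 0 (by rw [h0, smul_zero])
    have h5 := finrank_span_singleton (K := k) hne
    simp only [hg] at hd1
    simp only [hh] at hd1 h3
    omega
  have hx1 : ∀ j : ℕ, (X 1 ^ j : R2 k) • e1 ∈ gr (d1 + j) := by
    intro j
    have := Grd.mon_mem gr hX 0 j d1 e1 he1
    simpa [add_comm] using this
  have hC : ∀ (c : k) (m : M), (C c : R2 k) • m = c • m := by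
    intro c m
    rw [← algebraMap_eq, algebraMap_smul]
  -- independence modulo `s`
  have ind0 : ∀ (j : ℕ) (c : k) (y : M), c • (X 1 ^ j : R2 k) • e0 = (X 0 : R2 k) • y → c = 0 := by
    intro j c y hy
    by_contra hc
    refine he0s j (c⁻¹ • y) ?_
    rw [smul_comm, ← hy, smul_smul, inv_mul_cancel₀ hc, one_smul]
  have ind1 : ∀ (j : ℕ) (c0 c1 : k) (y : M), c0 • (X 1 ^ (j + (d1 - d0).toNat) : R2 k) • e0 +
      c1 • (X 1 ^ j : R2 k) • e1 = (X 0 : R2 k) • y → c0 = 0 ∧ c1 = 0 := by
    intro j c0 c1 y hy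
    have e2 : (X 1 ^ j : R2 k) • (c0 • (X 1 ^ (d1 - d0).toNat : R2 k) • e0 + c1 • e1) =
        (X 0 : R2 k) • y := by
      rw [← hy, smul_add, smul_comm _ c0, smul_comm _ c1, smul_smul, ← pow_add]
    obtain ⟨m, hm⟩ := tpow j _ y e2
    have hmem : c0 • (X 1 ^ (d1 - d0).toNat : R2 k) • e0 + c1 • e1 ∈ gr d1 := by
      refine add_mem (Submodule.smul_mem _ _ ?_) (Submodule.smul_mem _ _ he1)
      have := hx0 (d1 - d0).toNat
      rwa [show d0 + ((d1 - d0).toNat : ℤ) = d1 by omega] at this
    have h2 := sgr d1 _ m hmem hm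
    have hc1 : c1 = 0 := by
      by_contra hc
      apply he1'
      have e3 : e1 = s (c1⁻¹ • π (d1 - 1) m) +
          (-(c1⁻¹ * c0)) • (X 1 ^ (d1 - d0).toNat : R2 k) • e0 := by
        rw [map_smul]
        have e4 : s (π (d1 - 1) m) = c0 • (X 1 ^ (d1 - d0).toNat : R2 k) • e0 + c1 • e1 := h2.symm
        rw [e4, smul_add, smul_smul, smul_smul, inv_mul_cancel₀ hc, one_smul, neg_smul]
        abel
      rw [e3]
      exact Submodule.add_mem_sup ⟨_, Submodule.smul_mem _ _ (hπ.mem _ _), rfl⟩
        (Submodule.smul_mem _ _ (Submodule.mem_span_singleton_self _))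
    refine ⟨?_, hc1⟩
    rw [hc1, zero_smul, add_zero] at hm
    exact ind0 _ _ _ hm
  -- the structure of the graded pieces
  have gen2 : ∀ n, d1 ≤ n → h n = h (n - 1) + 2 ∧ ∀ m ∈ gr n, ∃ a ∈ gr (n - 1), ∃ c0 c1 : k,
      m = s a + (c0 • (X 1 ^ (n - d0).toNat : R2 k) • e0 +
        c1 • (X 1 ^ (n - d1).toNat : R2 k) • e1) := by
    intro n hn
    set x0 : M := (X 1 ^ (n - d0).toNat : R2 k) • e0 with hx0'
    set x1 : M := (X 1 ^ (n - d1).toNat : R2 k) • e1 with hx1'
    have f0 := hfin' n
    have f1 := hfin' (n - 1)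
    have m0 : x0 ∈ gr n := by
      have := hx0 (n - d0).toNat
      rwa [show d0 + ((n - d0).toNat : ℤ) = n by omega] at this
    have m1 : x1 ∈ gr n := by
      have := hx1 (n - d1).toNat
      rwa [show d1 + ((n - d1).toNat : ℤ) = n by omega] at this
    set S0 := (gr (n - 1)).map s with hS0
    have l0 : S0 < S0 ⊔ Submodule.span k {x0} := by
      refine lt_of_le_of_ne le_sup_left fun heq => ?_
      have : x0 ∈ S0 := by
        rw [heq]
        exact Submodule.mem_sup_right (Submodule.mem_span_singleton_self _)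
      obtain ⟨y, -, hy⟩ := this
      exact he0s _ y hy.symm
    have l1 : S0 ⊔ Submodule.span k {x0} < S0 ⊔ Submodule.span k {x0} ⊔ Submodule.span k {x1} := by
      refine lt_of_le_of_ne le_sup_left fun heq => ?_
      have : x1 ∈ S0 ⊔ Submodule.span k {x0} := by
        rw [heq]
        exact Submodule.mem_sup_right (Submodule.mem_span_singleton_self _)
      obtain ⟨_, ⟨y, -, rfl⟩, z, hz, hyz⟩ := Submodule.mem_sup.1 this
      obtain ⟨c, rfl⟩ := Submodule.mem_span_singleton.1 hz
      have e5 := ind1 (n - d1).toNat (-c) 1 y (by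
        rw [show (n - d1).toNat + (d1 - d0).toNat = (n - d0).toNat by omega, ← hx0', ← hx1',
          one_smul, ← hyz, neg_smul]
        change -(c • x0) + (s y + c • x0) = s y
        abel)
      exact one_ne_zero e5.2
    have le : S0 ⊔ Submodule.span k {x0} ⊔ Submodule.span k {x1} ≤ gr n := by
      refine sup_le (sup_le (hmul 0 n) ?_) ?_
      · rwa [Submodule.span_singleton_le_iff_mem]
      · rwa [Submodule.span_singleton_le_iff_mem]
    have fd : FiniteDimensional k
        (S0 ⊔ Submodule.span k {x0} ⊔ Submodule.span k {x1} : Submodule k M) :=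
      Submodule.finiteDimensional_of_le le
    have fd' : FiniteDimensional k (S0 ⊔ Submodule.span k {x0} : Submodule k M) :=
      Submodule.finiteDimensional_of_le (le_sup_left.trans le)
    have r0 := Submodule.finrank_lt_finrank_of_lt l0
    have r1 := Submodule.finrank_lt_finrank_of_lt l1
    have r2 := Submodule.finrank_mono le
    have r3 := hs_rank (n - 1)
    rw [← hS0] at r3
    have r4 := g_le n
    simp only [hg] at r4
    have eq1 : S0 ⊔ Submodule.span k {x0} ⊔ Submodule.span k {x1} = gr n := by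
      refine Submodule.eq_of_le_of_finrank_le le ?_
      simp only [hh] at r3 r4
      omega
    refine ⟨?_, ?_⟩
    · simp only [hh] at r3 r4 ⊢
      omega
    · intro m hm
      rw [← eq1] at hm
      obtain ⟨y, hy, z, hz, rfl⟩ := Submodule.mem_sup.1 hm
      obtain ⟨_, ⟨a, ha, rfl⟩, w, hw, rfl⟩ := Submodule.mem_sup.1 hy
      obtain ⟨c0, rfl⟩ := Submodule.mem_span_singleton.1 hw
      obtain ⟨c1, rfl⟩ := Submodule.mem_span_singleton.1 hz
      exact ⟨a, ha, c0, c1, by abel⟩
  have gen1 : ∀ n, d0 ≤ n → n < d1 → h n = h (n - 1) + 1 ∧ ∀ m ∈ gr n, ∃ a ∈ gr (n - 1),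
      ∃ c0 : k, m = s a + c0 • (X 1 ^ (n - d0).toNat : R2 k) • e0 := by
    intro n hn hn1
    set x0 : M := (X 1 ^ (n - d0).toNat : R2 k) • e0 with hx0'
    have f0 := hfin' n
    have f1 := hfin' (n - 1)
    have m0 : x0 ∈ gr n := by
      have := hx0 (n - d0).toNat
      rwa [show d0 + ((n - d0).toNat : ℤ) = n by omega] at this
    set S0 := (gr (n - 1)).map s with hS0
    have l0 : S0 < S0 ⊔ Submodule.span k {x0} := by
      refine lt_of_le_of_ne le_sup_left fun heq => ?_
      have : x0 ∈ S0 := by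
        rw [heq]
        exact Submodule.mem_sup_right (Submodule.mem_span_singleton_self _)
      obtain ⟨y, -, hy⟩ := this
      exact he0s _ y hy.symm
    have le : S0 ⊔ Submodule.span k {x0} ≤ gr n := by
      refine sup_le (hmul 0 n) ?_
      rwa [Submodule.span_singleton_le_iff_mem]
    have fd' : FiniteDimensional k (S0 ⊔ Submodule.span k {x0} : Submodule k M) :=
      Submodule.finiteDimensional_of_le le
    have r0 := Submodule.finrank_lt_finrank_of_lt l0
    have r2 := Submodule.finrank_mono le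
    have r3 := hs_rank (n - 1)
    rw [← hS0] at r3
    have r4 : g n ≤ 1 := by
      by_contra hcon
      have := hd1min n (by omega)
      omega
    simp only [hg] at r4
    have eq1 : S0 ⊔ Submodule.span k {x0} = gr n := by
      refine Submodule.eq_of_le_of_finrank_le le ?_
      simp only [hh] at r3 r4
      omega
    refine ⟨?_, ?_⟩
    · simp only [hh] at r3 r4 ⊢
      omega
    · intro m hm
      rw [← eq1] at hm
      obtain ⟨_, ⟨a, ha, rfl⟩, w, hw, rfl⟩ := Submodule.mem_sup.1 hm
      obtain ⟨c0, rfl⟩ := Submodule.mem_span_singleton.1 hw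
      exact ⟨a, ha, c0, rfl⟩
  have gen0 : ∀ n, n < d0 → h n = 0 ∧ ∀ m ∈ gr n, m = 0 := by
    have key : ∀ N : ℕ, ∀ n, n < B0 + N → n < d0 → h n = 0 := by
      intro N
      induction N with
      | zero => intro n hn _; exact h_zero n (by simpa using hn)
      | succ N ih =>
        intro n hn hn0
        have h1 := ih (n - 1) (by push_cast at hn; omega) (by omega)
        have h2 : g n ≤ 0 := by
          by_contra hcon
          have := hd0min n (by omega)
          omega
        have h3 : 0 ≤ h n := by simp only [hh]; positivity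
        simp only [hg] at h2
        omega
    intro n hn
    have h1 := key (n - B0 + 1).toNat n (by omega) hn
    refine ⟨h1, ?_⟩
    have f0 := hfin' n
    have h2 : Module.finrank k (gr n) = 0 := by simpa [hh] using h1
    exact (Submodule.eq_bot_iff _).1 (Submodule.finrank_eq_zero.1 h2)
  have hspan : ∀ N : ℕ, ∀ n, n < d0 + N → ∀ m ∈ gr n, m ∈ Submodule.span (R2 k) {e0, e1} := by
    intro N
    induction N with
    | zero =>
      intro n hn m hm
      rw [(gen0 n (by simpa using hn)).2 m hm]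
      exact zero_mem _
    | succ N ih =>
      intro n hn m hm
      have hm0 : e0 ∈ Submodule.span (R2 k) {e0, e1} := Submodule.subset_span (by simp)
      have hm1 : e1 ∈ Submodule.span (R2 k) {e0, e1} := Submodule.subset_span (by simp)
      rcases lt_or_ge n d0 with hlt | hge
      · rw [(gen0 n hlt).2 m hm]
        exact zero_mem _
      rcases lt_or_ge n d1 with hlt1 | hge1
      · obtain ⟨a, ha, c0, rfl⟩ := (gen1 n hge hlt1).2 m hm
        refine add_mem (Submodule.smul_mem _ _ (ih (n - 1) (by push_cast at hn; omega) a ha)) ?_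
        rw [← hC]
        exact Submodule.smul_mem _ _ (Submodule.smul_mem _ _ hm0)
      · obtain ⟨a, ha, c0, c1, rfl⟩ := (gen2 n hge1).2 m hm
        refine add_mem (Submodule.smul_mem _ _ (ih (n - 1) (by push_cast at hn; omega) a ha)) ?_
        rw [← hC, ← hC]
        exact add_mem (Submodule.smul_mem _ _ (Submodule.smul_mem _ _ hm0))
          (Submodule.smul_mem _ _ (Submodule.smul_mem _ _ hm1))
  have hspan' : ∀ m : M, m ∈ Submodule.span (R2 k) {e0, e1} := by
    intro m
    obtain ⟨S, -, hS⟩ := hπ.supp m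
    rw [hS]
    exact sum_mem fun n _ => hspan (n - d0 + 1).toNat n (by omega) _ (hπ.mem _ _)
  -- independence
  have hind : ∀ (D : ℕ) (p0 p1 : R2 k), (∀ m, coeff m p0 ≠ 0 → m 0 < D) →
      (∀ m, coeff m p1 ≠ 0 → m 0 < D) → p0 • e0 + p1 • e1 = 0 → p0 = 0 ∧ p1 = 0 := by
    intro D
    induction D with
    | zero =>
      intro p0 p1 h0 h1 _
      refine ⟨?_, ?_⟩
      · ext m
        by_contra hcon
        exact absurd (h0 m (by simpa using hcon)) (by omega)
      · ext m
        by_contra hcon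
        exact absurd (h1 m (by simpa using hcon)) (by omega)
    | succ D ih =>
      intro p0 p1 h0 h1 hp
      have hdec : ∀ p : R2 k, p = X 0 * (p.divMonomial (Finsupp.single 0 1)) +
          p.modMonomial (Finsupp.single 0 1) := fun p =>
        (MvPolynomial.divMonomial_add_modMonomial_single p 0).symm
      have hq : ∀ p : R2 k, ∀ m, coeff m (p.modMonomial (Finsupp.single 0 1)) ≠ 0 → m 0 = 0 := by
        intro p m hm
        by_contra hcon
        apply hm
        rw [coeff_modMonomial_of_le]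
        intro i
        fin_cases i
        · simp; omega
        · simp
      set r0 := p0.divMonomial (Finsupp.single 0 1) with hr0
      set r1 := p1.divMonomial (Finsupp.single 0 1) with hr1
      set q0 := p0.modMonomial (Finsupp.single 0 1) with hq0
      set q1 := p1.modMonomial (Finsupp.single 0 1) with hq1
      have hp' : q0 • e0 + q1 • e1 = (X 0 : R2 k) • (-(r0 • e0 + r1 • e1)) := by
        rw [hdec p0, hdec p1, ← hr0, ← hr1, ← hq0, ← hq1, add_smul, add_smul, mul_smul,
          mul_smul] at hp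
        rw [smul_neg, smul_add, eq_neg_iff_add_eq_zero, ← hp]
        abel
      have hcomp : ∀ n, π n (q0 • e0) + π n (q1 • e1) =
          (X 0 : R2 k) • π (n - 1) (-(r0 • e0 + r1 • e1)) := by
        intro n
        rw [← hπ.X_smul' hX, ← hp', map_add]
      have hboth : ∀ b : ℕ, coeff (Finsupp.single 1 (b + (d1 - d0).toNat)) q0 = 0 ∧
          coeff (Finsupp.single 1 b) q1 = 0 := by
        intro b
        have e2 := hcomp (b + d1)
        rw [Free.comp_q gr π hπ hX d1 e1 he1 q1 (hq p1) b,
          show (b : ℤ) + d1 = ((b + (d1 - d0).toNat : ℕ) : ℤ) + d0 by push_cast; omega,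
          Free.comp_q gr π hπ hX d0 e0 he0 q0 (hq p0)] at e2
        exact ind1 b _ _ _ e2
      have hq1z : q1 = 0 := by
        ext m
        by_contra hcon
        have hm0 := hq p1 m (by simpa using hcon)
        have : m = Finsupp.single 1 (m 1) := by
          ext i
          fin_cases i
          · simpa using hm0
          · simp
        rw [this] at hcon
        exact hcon (by simpa using (hboth (m 1)).2)
      have hq0z : q0 = 0 := by
        ext m
        by_contra hcon
        have hm0 := hq p0 m (by simpa using hcon)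
        have e3 : m = Finsupp.single 1 (m 1) := by
          ext i
          fin_cases i
          · simpa using hm0
          · simp
        rw [e3] at hcon
        have e2 := hcomp (m 1 + d0)
        rw [hq1z, zero_smul, map_zero, add_zero,
          Free.comp_q gr π hπ hX d0 e0 he0 q0 (hq p0)] at e2
        exact hcon (by simpa using ind0 _ _ _ e2)
      have hrr : r0 • e0 + r1 • e1 = 0 := by
        apply sinj
        rw [hq0z, hq1z, zero_smul, zero_smul, add_zero, smul_neg] at hp'
        rw [← neg_eq_zero]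
        exact hp'.symm
      have hcoef : ∀ p : R2 k, (∀ m, coeff m p ≠ 0 → m 0 < D + 1) →
          ∀ m, coeff m (p.divMonomial (Finsupp.single 0 1)) ≠ 0 → m 0 < D := by
        intro p hp m hm
        rw [coeff_divMonomial] at hm
        have := hp _ hm
        simp at this
        omega
      obtain ⟨hr0z, hr1z⟩ := ih r0 r1 (hcoef p0 h0) (hcoef p1 h1) hrr
      refine ⟨?_, ?_⟩
      · rw [hdec p0, ← hr0, ← hq0, hr0z, hq0z]
        simp
      · rw [hdec p1, ← hr1, ← hq1, hr1z, hq1z]
        simp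
  have hind' : LinearIndependent (R2 k) ![e0, e1] := by
    rw [LinearIndependent.pair_iff]
    intro p0 p1 hp
    refine hind (p0.totalDegree + p1.totalDegree + 1) p0 p1 ?_ ?_ hp
    · intro m hm
      have h1 := le_totalDegree (mem_support_iff.2 hm)
      have h2 : m 0 ≤ m.sum fun _ e => e := by
        rw [Finsupp.sum_fintype _ _ (by simp)]
        simp [Fin.sum_univ_two]
      omega
    · intro m hm
      have h1 := le_totalDegree (mem_support_iff.2 hm)
      have h2 : m 0 ≤ m.sum fun _ e => e := by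
        rw [Finsupp.sum_fintype _ _ (by simp)]
        simp [Fin.sum_univ_two]
      omega
  -- the degrees
  have hdeg : d0 + d1 = 2 := by
    have k1 : ∀ j : ℕ, d0 + j ≤ d1 → h (d0 + j - 1) = j := by
      intro j
      induction j with
      | zero =>
        intro _
        rw [(gen0 (d0 + (0 : ℕ) - 1) (by push_cast; omega)).1]
        simp
      | succ j ih =>
        intro hj
        have h1 := ih (by push_cast at hj; omega)
        have h2 := (gen1 (d0 + ((j + 1 : ℕ) : ℤ) - 1) (by push_cast; omega) (by omega)).1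
        rw [h2]
        rw [show d0 + ((j + 1 : ℕ) : ℤ) - 1 - 1 = d0 + j - 1 by push_cast; ring, h1]
        push_cast
        ring
    have k2 : ∀ j : ℕ, h (d1 + j - 1) = (d1 - d0) + 2 * j := by
      intro j
      induction j with
      | zero =>
        have h1 := k1 (d1 - d0).toNat (by omega)
        rw [show d0 + ((d1 - d0).toNat : ℤ) - 1 = d1 + ((0 : ℕ) : ℤ) - 1 by
          push_cast; omega] at h1
        rw [h1]
        push_cast
        omega
      | succ j ih =>
        have h2 := (gen2 (d1 + ((j + 1 : ℕ) : ℤ) - 1) (by push_cast; omega)).1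
        rw [h2]
        rw [show d1 + ((j + 1 : ℕ) : ℤ) - 1 - 1 = d1 + j - 1 by push_cast; ring, ih]
        push_cast
        ring
    have h3 := k2 (B1 - d1 + 2).toNat
    have h4 : h (d1 + ((B1 - d1 + 2).toNat : ℤ) - 1) = 2 * (d1 + ((B1 - d1 + 2).toNat : ℤ) - 1) :=
      hB1 _ (by omega)
    rw [h3] at h4
    linarith
  refine ⟨![d0, d1], Module.Basis.mk hind' ?_, hd01, hdeg, ?_⟩
  · intro m _
    have := hspan' m
    simpa [Matrix.range_cons, Set.pair_comm] using this
  · intro j
    rw [Module.Basis.mk_apply]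
    fin_cases j
    · exact he0
    · exact he1

end Pool.Agent.Work.MP_2dff99_ag
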