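import Pool.Agent.Work.MP_2dff99_ag.Base

open MvPolynomial

namespace Pool.Agent.Work.MP_2dff99_ag

section
variable {k : Type} [CommRing k]

theorem homZ_zero (n : ℤ) : HomZ (0 : R2 k) n := fun m h => by simp at h

theorem homZ_add {p q : R2 k} {n : ℤ} (hp : HomZ p n) (hq : HomZ q n) : HomZ (p + q) n := by
  intro m h
  by_cases h1 : coeff m p = 0
  · refine hq m fun h2 => h ?_
    rw [coeff_add, h1, h2, add_zero]
  · exact hp m h1

theorem homZ_neg {p : R2 k} {n : ℤ} (hp : HomZ p n) : HomZ (-p) n := by
  intro m h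
  refine hp m fun h2 => h ?_
  rw [coeff_neg, h2, neg_zero]

theorem homZ_sub {p q : R2 k} {n : ℤ} (hp : HomZ p n) (hq : HomZ q n) : HomZ (p - q) n := by
  rw [sub_eq_add_neg]
  exact homZ_add hp (homZ_neg hq)

theorem homZ_mul {p q : R2 k} {a b : ℤ} (hp : HomZ p a) (hq : HomZ q b) :
    HomZ (p * q) (a + b) := by
  classical
  intro m h
  rw [coeff_mul] at h
  obtain ⟨x, hx, hx2⟩ := Finset.exists_ne_zero_of_sum_ne_zero h
  rw [Finset.HasAntidiagonal.mem_antidiagonal] at hx
  have h1 := hp x.1 (left_ne_zero_of_mul hx2)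
  have h2 := hq x.2 (right_ne_zero_of_mul hx2)
  rw [← hx]
  simp only [Finsupp.add_apply, Nat.cast_add]
  linarith

theorem homZ_iff (p : R2 k) (n : ℕ) : HomZ p n ↔ p.IsHomogeneous n := by
  have key : ∀ m : Fin 2 →₀ ℕ, Finsupp.weight 1 m = m 0 + m 1 := by
    intro m
    rw [Finsupp.weight_apply, Finsupp.sum_fintype _ _ (by simp)]
    simp [Fin.sum_univ_two]
  constructor
  · intro h m hm
    have := h m hm
    rw [key]
    exact_mod_cast this
  · intro h m hm
    have := h hm
    rw [key] at this
    exact_mod_cast this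

theorem homZ_C (c : k) : HomZ (C c : R2 k) 0 := by
  have := (homZ_iff (C c : R2 k) 0).2 (isHomogeneous_C _ c)
  simpa using this

theorem homZ_X (i : Fin 2) : HomZ (X i : R2 k) 1 := by
  have := (homZ_iff (X i : R2 k) 1).2 (isHomogeneous_X _ i)
  simpa using this

theorem homZ_pow {p : R2 k} {a : ℤ} (hp : HomZ p a) (n : ℕ) : HomZ (p ^ n) (n * a) := by
  induction n with
  | zero =>
    rw [pow_zero]
    have := homZ_C (1 : k)
    simpa using this
  | succ n ih =>
    rw [pow_succ]
    have h := homZ_mul ih hp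
    have h2 : (n : ℤ) * a + a = ((n + 1 : ℕ) : ℤ) * a := by
      push_cast
      ring
    rwa [h2] at h

theorem homZ_sum {ι : Type*} (s : Finset ι) (f : ι → R2 k) {n : ℤ} (h : ∀ i ∈ s, HomZ (f i) n) :
    HomZ (∑ i ∈ s, f i) n := by
  classical
  induction s using Finset.induction_on with
  | empty =>
    rw [Finset.sum_empty]
    exact homZ_zero n
  | insert a s ha ih =>
    rw [Finset.sum_insert ha]
    exact homZ_add (h a (Finset.mem_insert_self _ _))
      (ih fun i hi => h i (Finset.mem_insert_of_mem hi))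

theorem homZ_eq_zero {p : R2 k} {n : ℤ} (hn : n < 0) (hp : HomZ p n) : p = 0 := by
  ext m
  rw [coeff_zero]
  by_contra h
  have := hp m h
  omega

theorem homZ_const {p : R2 k} (hp : HomZ p 0) : ∃ c : k, p = C c := by
  classical
  refine ⟨coeff 0 p, ?_⟩
  ext m
  rw [coeff_C]
  by_cases hm : 0 = m
  · rw [if_pos hm, hm]
  · rw [if_neg hm]
    by_contra h
    have h1 := hp m h
    apply hm
    ext i
    fin_cases i
    · change 0 = m 0
      omega
    · change 0 = m 1
      omega

/-- a polynomial homogeneous of two different degrees is zero -/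
theorem homZ_unique {p : R2 k} {a b : ℤ} (hp : HomZ p a) (hq : HomZ p b) (h : a ≠ b) : p = 0 := by
  ext m
  rw [coeff_zero]
  by_contra h1
  exact h ((hp m h1).symm.trans (hq m h1))

theorem homZ_form (n : ℕ) (a : ℕ → k) : HomZ (form n a) n := by
  unfold form
  refine homZ_sum _ _ fun i hi => ?_
  rw [Finset.mem_range] at hi
  have h1 := homZ_mul (homZ_mul (homZ_C (a i)) (homZ_pow (homZ_X (0 : Fin 2)) (n - i)))
    (homZ_pow (homZ_X (1 : Fin 2)) i)
  have h2 : (0 : ℤ) + ((n - i : ℕ) : ℤ) * 1 + (i : ℤ) * 1 = n := by omega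
  rwa [h2] at h1

theorem form_eq_monomial (n : ℕ) (a : ℕ → k) :
    form n a = ∑ i ∈ Finset.range (n + 1),
      monomial (Finsupp.single 0 (n - i) + Finsupp.single 1 i) (a i) := by
  unfold form
  refine Finset.sum_congr rfl fun i _ => ?_
  rw [X_pow_eq_monomial, X_pow_eq_monomial, C_mul_monomial, monomial_mul, mul_one, mul_one]

theorem coeff_form (n : ℕ) (a : ℕ → k) (i : ℕ) (hi : i ≤ n) :
    coeff (Finsupp.single 0 (n - i) + Finsupp.single 1 i) (form n a) = a i := by
  classical
  rw [form_eq_monomial, coeff_sum, Finset.sum_eq_single i]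
  · rw [coeff_monomial, if_pos rfl]
  · intro j _ hji
    rw [coeff_monomial, if_neg]
    intro h
    have h1 := congrArg (fun f : Fin 2 →₀ ℕ => f 1) h
    simp at h1
    exact hji h1
  · intro h
    exact absurd (Finset.mem_range.2 (by omega)) h

theorem exists_form {p : R2 k} {n : ℕ} (hp : HomZ p n) : ∃ a : ℕ → k, p = form n a := by
  classical
  refine ⟨fun i => coeff (Finsupp.single 0 (n - i) + Finsupp.single 1 i) p, ?_⟩
  ext m
  by_cases hm : m 0 + m 1 = n
  · have h1 : m = Finsupp.single 0 (n - m 1) + Finsupp.single 1 (m 1) := by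
      ext i
      fin_cases i
      · simp
        omega
      · simp
    have h2 := coeff_form n (fun i => coeff (Finsupp.single 0 (n - i) + Finsupp.single 1 i) p)
      (m 1) (by omega)
    rw [← h1] at h2
    exact h2.symm
  · have h1 : coeff m p = 0 := by
      by_contra h
      exact hm (by exact_mod_cast hp m h)
    have h2 : coeff m (form n
        (fun i => coeff (Finsupp.single 0 (n - i) + Finsupp.single 1 i) p)) = 0 := by
      by_contra h
      exact hm (by exact_mod_cast homZ_form n _ m h)
    rw [h1, h2]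

theorem form_inj {n : ℕ} {a b : ℕ → k} (h : form n a = form n b) (i : ℕ) (hi : i ≤ n) :
    a i = b i := by
  rw [← coeff_form n a i hi, h, coeff_form n b i hi]

theorem form_congr {n : ℕ} {a b : ℕ → k} (h : ∀ i ≤ n, a i = b i) : form n a = form n b := by
  unfold form
  refine Finset.sum_congr rfl fun i hi => ?_
  rw [Finset.mem_range] at hi
  rw [h i (by omega)]

theorem map_form {K : Type} [CommRing K] (f : k →+* K) (n : ℕ) (a : ℕ → k) :
    MvPolynomial.map f (form n a) = form n (fun i => f (a i)) := by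
  unfold form
  simp

theorem eval_form (s t : k) (n : ℕ) (a : ℕ → k) :
    eval ![s, t] (form n a) = ∑ i ∈ Finset.range (n + 1), a i * s ^ (n - i) * t ^ i := by
  unfold form
  simp

theorem homZ_map {K : Type} [CommRing K] (f : k →+* K) {p : R2 k} {n : ℤ} (hp : HomZ p n) :
    HomZ (MvPolynomial.map f p) n := by
  intro m h
  refine hp m fun h1 => h ?_
  rw [coeff_map, h1, map_zero]

/-- over an infinite field a binary polynomial is determined by its values -/
theorem ext_eval {F : Type} [Field F] [Infinite F] {p q : R2 F}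
    (h : ∀ s t : F, eval ![s, t] p = eval ![s, t] q) : p = q := by
  apply MvPolynomial.funext
  intro x
  have h1 := h (x 0) (x 1)
  have h2 : ![x 0, x 1] = x := by
    ext i
    fin_cases i <;> rfl
  rwa [h2] at h1

/-- the homogeneous components -/
theorem exists_components (p : R2 k) : ∃ (N : ℕ) (q : ℕ → R2 k), (∀ i, HomZ (q i) i) ∧
    p = ∑ i ∈ Finset.range N, q i :=
  ⟨p.totalDegree + 1, fun i => homogeneousComponent i p,
    fun i => (homZ_iff _ i).2 (homogeneousComponent_isHomogeneous i p),
    (sum_homogeneousComponent p).symm⟩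

end

end Pool.Agent.Work.MP_2dff99_ag
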