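import Pool.Agent.Work.MP_2dff99_ag.Model

open MvPolynomial

namespace Pool.Agent.Work.MP_2dff99_ag

/-- invertible matrices of homogeneous forms of the right degrees for the grading
`k[s,t](-(1-e)) ⊕ k[s,t](-(1+e))` -/
def GoodMat {k : Type} [Field k] (e : ℕ) (G : Matrix (Fin 2) (Fin 2) (R2 k)) : Prop :=
  IsUnit G.det ∧ HomZ (G 0 0) 0 ∧ HomZ (G 0 1) (2 * e) ∧ HomZ (G 1 0) (-(2 * e)) ∧
    HomZ (G 1 1) 0

theorem goodMat_inv {k : Type} [Field k] (e : ℕ) (G : Matrix (Fin 2) (Fin 2) (R2 k))
    (h : GoodMat e G) : ∃ H, GoodMat e H ∧ G * H = 1 ∧ H * G = 1 := by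
  obtain ⟨hu, h00, h01, h10, h11⟩ := h
  have hd : HomZ G.det 0 := by
    rw [Matrix.det_fin_two]
    have h1 := homZ_mul h00 h11
    have h2 := homZ_mul h01 h10
    have e1 : (0 : ℤ) + 0 = 0 := by ring
    have e2 : (2 * (e : ℤ)) + -(2 * e) = 0 := by ring
    rw [e1] at h1
    rw [e2] at h2
    exact homZ_sub h1 h2
  obtain ⟨c, hc⟩ := homZ_const hd
  have hc0 : c ≠ 0 := by
    rintro rfl
    rw [hc, C_0] at hu
    exact not_isUnit_zero hu
  have hcc : (C c⁻¹ : R2 k) * C c = 1 := by
    rw [← C_mul, inv_mul_cancel₀ hc0, C_1]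
  have hadj : G.adjugate = !![G 1 1, -G 0 1; -G 1 0, G 0 0] := Matrix.adjugate_fin_two G
  have e0 : (0 : ℤ) + 0 = 0 := by ring
  have key : ∀ (p : R2 k) (n : ℤ), HomZ p n → HomZ (C c⁻¹ * p) n := by
    intro p n hp
    have := homZ_mul (homZ_C c⁻¹) hp
    rwa [zero_add] at this
  refine ⟨(C c⁻¹ : R2 k) • G.adjugate, ⟨?_, ?_, ?_, ?_, ?_⟩, ?_, ?_⟩
  · have h1 : ((C c⁻¹ : R2 k) • G.adjugate) * G = 1 := by
      rw [Matrix.smul_mul, Matrix.adjugate_mul, hc, smul_smul, hcc, one_smul]
    have h2 := congrArg Matrix.det h1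
    rw [Matrix.det_mul, Matrix.det_one] at h2
    exact IsUnit.of_mul_eq_one _ h2
  · rw [hadj]
    exact key _ _ h11
  · rw [hadj]
    exact key _ _ (homZ_neg h01)
  · rw [hadj]
    exact key _ _ (homZ_neg h10)
  · rw [hadj]
    exact key _ _ h00
  · rw [Matrix.mul_smul, Matrix.mul_adjugate, hc, smul_smul, hcc, one_smul]
  · rw [Matrix.smul_mul, Matrix.adjugate_mul, hc, smul_smul, hcc, one_smul]

theorem goodMat_mem {k : Type} [Field k] (e : ℕ) (G : Matrix (Fin 2) (Fin 2) (R2 k))
    (h : GoodMat e G) (n : ℤ) (p : Fin 2 → R2 k) (hp : p ∈ grM k e n) :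
    G.mulVec p ∈ grM k e n := by
  obtain ⟨_, h00, h01, h10, h11⟩ := h
  obtain ⟨h0, h1⟩ := hp
  refine ⟨?_, ?_⟩
  · have a1 := homZ_mul h00 h0
    have a2 := homZ_mul h01 h1
    have e1 : (0 : ℤ) + (n - (1 - e)) = n - (1 - e) := by ring
    have e2 : 2 * (e : ℤ) + (n - (1 + e)) = n - (1 - e) := by ring
    rw [e1] at a1
    rw [e2] at a2
    have := homZ_add a1 a2
    simpa [Matrix.mulVec, dotProduct, Fin.sum_univ_two] using this
  · have a1 := homZ_mul h10 h0
    have a2 := homZ_mul h11 h1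
    have e1 : -(2 * (e : ℤ)) + (n - (1 - e)) = n - (1 + e) := by ring
    have e2 : (0 : ℤ) + (n - (1 + e)) = n - (1 + e) := by ring
    rw [e1] at a1
    rw [e2] at a2
    have := homZ_add a1 a2
    simpa [Matrix.mulVec, dotProduct, Fin.sum_univ_two] using this

namespace IsoM

variable {k : Type} [Field k]

theorem X_cases (P : Fin 4 → Prop) (h : ∀ i : Fin 3, P i.castSucc) (h3 : P 3) : ∀ i, P i := by
  intro i
  fin_cases i
  · exact h 0
  · exact h 1
  · exact h 2
  · exact h3

/-- multiplication by a matrix as an equivalence -/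
noncomputable def matEquiv (G H : Matrix (Fin 2) (Fin 2) (R2 k)) (h1 : G * H = 1)
    (h2 : H * G = 1) : (Fin 2 → R2 k) ≃ₗ[k] (Fin 2 → R2 k) where
  toFun := fun p => G.mulVec p
  map_add' := fun p q => Matrix.mulVec_add G p q
  map_smul' := fun c p => Matrix.mulVec_smul G c p
  invFun := fun p => H.mulVec p
  left_inv := fun p => by
    change H.mulVec (G.mulVec p) = p
    rw [Matrix.mulVec_mulVec, h2, Matrix.one_mulVec]
  right_inv := fun p => by
    change G.mulVec (H.mulVec p) = p
    rw [Matrix.mulVec_mulVec, h1, Matrix.one_mulVec]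

theorem mulVec_mulfun (G : Matrix (Fin 2) (Fin 2) (R2 k)) (l : R2 k) (p : Fin 2 → R2 k) :
    G.mulVec (fun j => l * p j) = fun j => l * G.mulVec p j := by
  have : (fun j => l * p j) = l • p := rfl
  rw [this, Matrix.mulVec_smul]
  rfl

theorem map_lineVec (σ : k →+* k) (P Q : Fin 3 → k) (hP : ∀ i, σ (P i) = P i)
    (hQ : ∀ i, σ (Q i) = Q i) (i : Fin 3) :
    MvPolynomial.map σ (lineVec P Q i) = lineVec P Q i := by
  simp [lineVec, hP, hQ]

theorem map_mulVec (σ : k →+* k) (G : Matrix (Fin 2) (Fin 2) (R2 k)) (p : Fin 2 → R2 k) :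
    (fun j => MvPolynomial.map σ (G.mulVec p j)) =
      (G.map (MvPolynomial.map σ)).mulVec (fun j => MvPolynomial.map σ (p j)) := by
  funext j
  simp [Matrix.mulVec, dotProduct, Fin.sum_univ_two]

end IsoM

open IsoM

/-- a matrix intertwining the actions of `w` gives an isomorphism -/
theorem iso_of_matrix {k : Type} [Field k] (D D' : Datum k) (hP : D.P = D'.P) (hQ : D.Q = D'.Q)
    (he : D.e = D'.e) (H : Matrix (Fin 2) (Fin 2) (R2 k)) (hH : GoodMat D.e H)
    (hc : H * D.phi = D'.phi * H) : D.sheaf.Iso D'.sheaf := by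
  obtain ⟨H', hH', h1, h2⟩ := goodMat_inv D.e H hH
  refine ⟨matEquiv H H' h1 h2, ?_, ?_⟩
  · refine X_cases _ ?_ ?_
    · intro i m
      change H.mulVec (D.rho (X i.castSucc) m) = D'.rho (X i.castSucc) (H.mulVec m)
      rw [rho_X, rho_X, mulVec_mulfun, hP, hQ]
    · intro m
      change H.mulVec (D.rho (X 3) m) = D'.rho (X 3) (H.mulVec m)
      rw [rho_X3, rho_X3, Matrix.mulVec_mulVec, Matrix.mulVec_mulVec, hc]
  · intro n m hm
    change H.mulVec m ∈ grM k D'.e n
    rw [← he]
    exact goodMat_mem D.e H hH n m hm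

/-- a matrix intertwining the action of `w` and its conjugate gives a semilinear
automorphism -/
theorem twist_of_matrix {k : Type} [Field k] (D : Datum k) (σ : k →+* k)
    (hσ : Function.Bijective σ) (hP : ∀ i, σ (D.P i) = D.P i) (hQ : ∀ i, σ (D.Q i) = D.Q i)
    (G : Matrix (Fin 2) (Fin 2) (R2 k)) (hG : GoodMat D.e G)
    (hc : D.phi * G = G * D.phi.map (MvPolynomial.map σ)) : D.sheaf.Twist σ := by
  obtain ⟨H, hH, h1, h2⟩ := goodMat_inv D.e G hG
  let f : (Fin 2 → R2 k) →+ (Fin 2 → R2 k) :=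
    { toFun := fun p => G.mulVec (fun j => MvPolynomial.map σ (p j))
      map_zero' := by
        have : (fun j : Fin 2 => MvPolynomial.map σ ((0 : Fin 2 → R2 k) j)) = 0 := by
          funext j
          simp
        rw [this, Matrix.mulVec_zero]
      map_add' := fun p q => by
        have : (fun j : Fin 2 => MvPolynomial.map σ ((p + q) j)) =
            (fun j => MvPolynomial.map σ (p j)) + fun j => MvPolynomial.map σ (q j) := by
          funext j
          simp
        rw [this, Matrix.mulVec_add] }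
  have hf : Function.Bijective f := by
    constructor
    · rw [injective_iff_map_eq_zero]
      intro p hp
      have hp' : G.mulVec (fun j => MvPolynomial.map σ (p j)) = 0 := hp
      have h3 : (fun j => MvPolynomial.map σ (p j)) = 0 := by
        have := congrArg H.mulVec hp'
        rwa [Matrix.mulVec_mulVec, h2, Matrix.one_mulVec, Matrix.mulVec_zero] at this
      funext j
      have h4 := congrFun h3 j
      have h5 : MvPolynomial.map σ (p j) = MvPolynomial.map σ 0 := by
        rw [map_zero]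
        exact h4
      exact MvPolynomial.map_injective σ hσ.1 h5
    · intro q
      choose p hp using fun j => MvPolynomial.map_surjective (σ := Fin 2) σ hσ.2 (H.mulVec q j)
      refine ⟨p, ?_⟩
      change G.mulVec (fun j => MvPolynomial.map σ (p j)) = q
      have : (fun j => MvPolynomial.map σ (p j)) = H.mulVec q := funext hp
      rw [this, Matrix.mulVec_mulVec, h1, Matrix.one_mulVec]
  refine ⟨AddEquiv.ofBijective f hf, ?_, ?_, ?_⟩
  · intro a m
    change G.mulVec (fun j => MvPolynomial.map σ (a • (show Fin 2 → R2 k from m) j)) =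
      σ a • G.mulVec (fun j => MvPolynomial.map σ ((show Fin 2 → R2 k from m) j))
    rw [← Matrix.mulVec_smul]
    congr 1
    funext j
    simp only [Pi.smul_apply, MvPolynomial.smul_eq_C_mul, map_mul, MvPolynomial.map_C]
  · refine X_cases _ ?_ ?_
    · intro i m
      change G.mulVec (fun j => MvPolynomial.map σ (D.rho (X i.castSucc) m j)) =
        D.rho (X i.castSucc) (G.mulVec (fun j => MvPolynomial.map σ (m j)))
      rw [rho_X, rho_X]
      rw [← mulVec_mulfun]
      congr 1
      funext j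
      rw [map_mul, map_lineVec σ D.P D.Q hP hQ i]
    · intro m
      change G.mulVec (fun j => MvPolynomial.map σ (D.rho (X 3) m j)) =
        D.rho (X 3) (G.mulVec (fun j => MvPolynomial.map σ (m j)))
      rw [rho_X3, rho_X3, map_mulVec, Matrix.mulVec_mulVec, Matrix.mulVec_mulVec, hc]
  · intro n m hm
    change G.mulVec (fun j => MvPolynomial.map σ (m j)) ∈ grM k D.e n
    exact goodMat_mem D.e G hG n _ ⟨homZ_map σ hm.1, homZ_map σ hm.2⟩

/-- conversely -/
theorem matrix_of_twist {k : Type} [Field k] (D : Datum k) (σ : k →+* k)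
    (hσ : Function.Bijective σ) (hP : ∀ i, σ (D.P i) = D.P i) (hQ : ∀ i, σ (D.Q i) = D.Q i)
    (h : D.sheaf.Twist σ) : ∃ G : Matrix (Fin 2) (Fin 2) (R2 k), GoodMat D.e G ∧
      D.phi * G = G * D.phi.map (MvPolynomial.map σ) := by
  obtain ⟨θ, hsm, hX, hgr⟩ := h
  let f : (Fin 2 → R2 k) ≃+ (Fin 2 → R2 k) := θ
  have hsm' : ∀ (a : k) (m : Fin 2 → R2 k), f (a • m) = σ a • f m := hsm
  have hXi : ∀ (i : Fin 3) (m : Fin 2 → R2 k), f (fun j => lineVec D.P D.Q i * m j) =
      fun j => lineVec D.P D.Q i * f m j := by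
    intro i m
    have := hX i.castSucc m
    change f (D.rho (X i.castSucc) m) = D.rho (X i.castSucc) (f m) at this
    rwa [rho_X, rho_X] at this
  have hX3 : ∀ (m : Fin 2 → R2 k), f (D.phi.mulVec m) = D.phi.mulVec (f m) := by
    intro m
    have := hX 3 m
    change f (D.rho (X 3) m) = D.rho (X 3) (f m) at this
    rwa [rho_X3, rho_X3] at this
  have hgr' : ∀ (n : ℤ) (m : Fin 2 → R2 k), m ∈ grM k D.e n → f m ∈ grM k D.e n := hgr
  obtain ⟨μ, ν, hμP, hμQ, hνP, hνQ⟩ := exists_dual D.P D.Q D.ind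
  -- combinations of the coordinates
  have hcomb : ∀ (μ : Fin 3 → k) (m : Fin 2 → R2 k),
      f ((C (∑ i, μ i * D.P i) * X 0 + C (∑ i, μ i * D.Q i) * X 1 : R2 k) • m) =
      (C (σ (∑ i, μ i * D.P i)) * X 0 + C (σ (∑ i, μ i * D.Q i)) * X 1 : R2 k) • f m := by
    intro μ m
    have e1 : ((C (∑ i, μ i * D.P i) * X 0 + C (∑ i, μ i * D.Q i) * X 1 : R2 k) • m) =
        ∑ i, μ i • (fun j => lineVec D.P D.Q i * m j) := by
      funext j
      simp only [Fin.sum_univ_three, Pi.smul_apply, smul_eq_mul, Pi.add_apply,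
        MvPolynomial.smul_eq_C_mul, lineVec, C_add, C_mul]
      ring
    have e2 : ((C (σ (∑ i, μ i * D.P i)) * X 0 + C (σ (∑ i, μ i * D.Q i)) * X 1 : R2 k) •
        f m) = ∑ i, σ (μ i) • (fun j => lineVec D.P D.Q i * f m j) := by
      funext j
      simp only [Fin.sum_univ_three, Pi.smul_apply, smul_eq_mul, Pi.add_apply,
        MvPolynomial.smul_eq_C_mul, lineVec, C_add, C_mul, map_add, map_mul, hP, hQ]
      ring
    rw [e1, e2, map_sum]
    refine Finset.sum_congr rfl fun i _ => ?_
    rw [hsm', hXi]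
  have hX0 : ∀ m : Fin 2 → R2 k, f ((X 0 : R2 k) • m) = (X 0 : R2 k) • f m := by
    intro m
    have := hcomb μ m
    rw [hμP, hμQ] at this
    simpa only [map_one, map_zero, one_mul, zero_mul, add_zero] using this
  have hX1 : ∀ m : Fin 2 → R2 k, f ((X 1 : R2 k) • m) = (X 1 : R2 k) • f m := by
    intro m
    have := hcomb ν m
    rw [hνP, hνQ] at this
    simpa only [map_one, map_zero, one_mul, zero_mul, zero_add] using this
  have hsemi : ∀ (r : R2 k) (m : Fin 2 → R2 k), f (r • m) = MvPolynomial.map σ r • f m := by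
    intro r
    induction r using MvPolynomial.induction_on with
    | C a =>
      intro m
      have : (C a : R2 k) • m = a • m := by
        funext j
        simp [MvPolynomial.smul_eq_C_mul]
      rw [this, hsm', MvPolynomial.map_C]
      funext j
      simp [MvPolynomial.smul_eq_C_mul]
    | add p q hp hq =>
      intro m
      rw [add_smul, map_add, hp, hq, map_add, add_smul]
    | mul_X p i hp =>
      intro m
      rw [mul_smul, hp, map_mul, MvPolynomial.map_X, mul_smul]
      congr 1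
      fin_cases i
      · exact hX0 m
      · exact hX1 m
  let G : Matrix (Fin 2) (Fin 2) (R2 k) := fun i j => f (Pi.single j 1) i
  have hG : ∀ m : Fin 2 → R2 k, f m = G.mulVec (fun j => MvPolynomial.map σ (m j)) := by
    intro m
    have e1 : m = m 0 • (Pi.single 0 1 : Fin 2 → R2 k) + m 1 • (Pi.single 1 1 : Fin 2 → R2 k) := by
      funext j
      fin_cases j <;> simp
    conv_lhs => rw [e1]
    rw [map_add, hsemi, hsemi]
    funext i
    simp only [Pi.add_apply, Pi.smul_apply, smul_eq_mul, Matrix.mulVec, dotProduct,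
      Fin.sum_univ_two, G]
    ring
  refine ⟨G, ⟨?_, ?_, ?_, ?_, ?_⟩, ?_⟩
  · choose p hp using fun j : Fin 2 => f.surjective (Pi.single j 1)
    have hm : G * (Matrix.of fun i j => MvPolynomial.map σ (p j i)) = 1 := by
      refine Matrix.ext fun i j => ?_
      have h1 := congrFun (hG (p j)) i
      rw [hp j] at h1
      rw [Matrix.mul_apply]
      have h2 : (∑ x, G i x * (Matrix.of fun i j => MvPolynomial.map σ (p j i)) x j) =
          (Pi.single j 1 : Fin 2 → R2 k) i := by
        rw [h1]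
        rfl
      rw [h2, Matrix.one_apply, Pi.single_apply]
    have h3 := congrArg Matrix.det hm
    rw [Matrix.det_mul, Matrix.det_one] at h3
    exact IsUnit.of_mul_eq_one _ h3
  · have h1 : (Pi.single 0 1 : Fin 2 → R2 k) ∈ grM k D.e (1 - D.e) := by
      refine ⟨?_, ?_⟩
      · have : (1 - (D.e : ℤ)) - (1 - D.e) = 0 := by ring
        rw [this, Pi.single_eq_same, ← C_1]
        exact homZ_C 1
      · rw [Pi.single_eq_of_ne (by decide)]
        exact homZ_zero _
    have h2 := (hgr' _ _ h1).1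
    have : (1 - (D.e : ℤ)) - (1 - D.e) = 0 := by ring
    rwa [this] at h2
  · have h1 : (Pi.single 1 1 : Fin 2 → R2 k) ∈ grM k D.e (1 + D.e) := by
      refine ⟨?_, ?_⟩
      · rw [Pi.single_eq_of_ne (by decide)]
        exact homZ_zero _
      · have : (1 + (D.e : ℤ)) - (1 + D.e) = 0 := by ring
        rw [this, Pi.single_eq_same, ← C_1]
        exact homZ_C 1
    have h2 := (hgr' _ _ h1).1
    have : (1 + (D.e : ℤ)) - (1 - D.e) = 2 * D.e := by ring
    rwa [this] at h2
  · have h1 : (Pi.single 0 1 : Fin 2 → R2 k) ∈ grM k D.e (1 - D.e) := by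
      refine ⟨?_, ?_⟩
      · have : (1 - (D.e : ℤ)) - (1 - D.e) = 0 := by ring
        rw [this, Pi.single_eq_same, ← C_1]
        exact homZ_C 1
      · rw [Pi.single_eq_of_ne (by decide)]
        exact homZ_zero _
    have h2 := (hgr' _ _ h1).2
    have : (1 - (D.e : ℤ)) - (1 + D.e) = -(2 * D.e) := by ring
    rwa [this] at h2
  · have h1 : (Pi.single 1 1 : Fin 2 → R2 k) ∈ grM k D.e (1 + D.e) := by
      refine ⟨?_, ?_⟩
      · rw [Pi.single_eq_of_ne (by decide)]
        exact homZ_zero _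
      · have : (1 + (D.e : ℤ)) - (1 + D.e) = 0 := by ring
        rw [this, Pi.single_eq_same, ← C_1]
        exact homZ_C 1
    have h2 := (hgr' _ _ h1).2
    have : (1 + (D.e : ℤ)) - (1 + D.e) = 0 := by ring
    rwa [this] at h2
  · refine Matrix.ext fun i j => ?_
    have h1 := hX3 (Pi.single j 1)
    rw [hG (D.phi.mulVec (Pi.single j 1))] at h1
    have h2 := congrFun h1 i
    rw [map_mulVec] at h2
    have h3 : (fun l => MvPolynomial.map σ ((Pi.single j 1 : Fin 2 → R2 k) l)) =
        (Pi.single j 1 : Fin 2 → R2 k) := by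
      funext l
      rw [Pi.single_apply]
      split_ifs <;> simp
    rw [h3, Matrix.mulVec_mulVec, Matrix.mulVec_single_one] at h2
    have h4 : (D.phi.mulVec (f (Pi.single j 1))) i = (D.phi * G) i j := rfl
    rw [h4] at h2
    exact h2.symm

end Pool.Agent.Work.MP_2dff99_ag
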