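import Pool.Agent.Work.MP_2dff99_ag.Sx

open MvPolynomial

namespace Pool.Agent.Work.MP_2dff99_ag

variable {k : Type} [Field k]

/-- the module structure over `k[x,y,z,w]` on `k[s,t] ^ 2` given by a datum -/
@[implicit_reducible]
noncomputable def Datum.modA (D : Datum k) : Module (MvPolynomial (Fin 4) k) (Fin 2 → R2 k) :=
  Module.compHom (Fin 2 → R2 k) D.rho

theorem modA_smul (D : Datum k) (a : MvPolynomial (Fin 4) k) (p : Fin 2 → R2 k) :
    D.modA.smul a p = D.rho a p := rfl

/-- `s` and `t` are combinations of the coordinates on the line -/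
theorem exists_dual (P Q : Fin 3 → k) (ind : LinearIndependent k ![P, Q]) :
    ∃ μ ν : Fin 3 → k, ∑ i, μ i * P i = 1 ∧ ∑ i, μ i * Q i = 0 ∧ ∑ i, ν i * P i = 0 ∧
      ∑ i, ν i * Q i = 1 := by
  have hinj : LinearMap.ker (Fintype.linearCombination k ![P, Q]) = ⊥ :=
    linearIndependent_iff_injective_fintypeLinearCombination.1 ind |> LinearMap.ker_eq_bot.2
  obtain ⟨g, hg⟩ := LinearMap.exists_leftInverse_of_injective _ hinj
  have hP : g P = ![1, 0] := by
    have h1 := LinearMap.congr_fun hg ![1, 0]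
    simpa [Fintype.linearCombination_apply, Fin.sum_univ_two] using h1
  have hQ : g Q = ![0, 1] := by
    have h1 := LinearMap.congr_fun hg ![0, 1]
    simpa [Fintype.linearCombination_apply, Fin.sum_univ_two] using h1
  have key : ∀ (v : Fin 3 → k) (j : Fin 2), g v j = ∑ i, g (Pi.single i 1) j * v i := by
    intro v j
    have h2 : v = ∑ i, v i • (Pi.single i 1 : Fin 3 → k) := by
      funext l
      simp [Finset.sum_apply, Pi.single_apply]
    conv_lhs => rw [h2]
    rw [map_sum, Finset.sum_apply]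
    refine Finset.sum_congr rfl fun i _ => ?_
    rw [map_smul, Pi.smul_apply, smul_eq_mul, mul_comm]
  refine ⟨fun i => g (Pi.single i 1) 0, fun i => g (Pi.single i 1) 1, ?_, ?_, ?_, ?_⟩
  · rw [← key, hP]; rfl
  · rw [← key, hQ]; rfl
  · rw [← key, hP]; rfl
  · rw [← key, hQ]; rfl

namespace MRel

theorem rho_smul_add (D : Datum k) (μ : Fin 3 → k) (p : Fin 2 → R2 k) :
    D.rho (∑ i : Fin 3, C (μ i) * (X i.castSucc : MvPolynomial (Fin 4) k)) p =
      (C (∑ i, μ i * D.P i) * X 0 + C (∑ i, μ i * D.Q i) * X 1 : R2 k) • p := by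
  rw [map_sum, LinearMap.sum_apply]
  funext j
  rw [Finset.sum_apply, Pi.smul_apply, smul_eq_mul, map_sum, map_sum, Finset.sum_mul,
    Finset.sum_mul, ← Finset.sum_add_distrib, Finset.sum_mul]
  refine Finset.sum_congr rfl fun i _ => ?_
  rw [map_mul, Module.End.mul_apply, rho_C, Pi.smul_apply, rho_X, MvPolynomial.smul_eq_C_mul,
    lineVec, map_mul, map_mul]
  ring

theorem exists_rho (D : Datum k) (q : R2 k) : ∃ a : MvPolynomial (Fin 4) k,
    ∀ p : Fin 2 → R2 k, D.rho a p = q • p := by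
  obtain ⟨μ, ν, h1, h2, h3, h4⟩ := exists_dual D.P D.Q D.ind
  induction q using MvPolynomial.induction_on with
  | C c =>
    refine ⟨C c, fun p => ?_⟩
    rw [rho_C]
    funext j
    simp [MvPolynomial.smul_eq_C_mul]
  | add p q hp hq =>
    obtain ⟨a, ha⟩ := hp
    obtain ⟨b, hb⟩ := hq
    refine ⟨a + b, fun r => ?_⟩
    rw [map_add, LinearMap.add_apply, ha, hb, add_smul]
  | mul_X q i hq =>
    obtain ⟨a, ha⟩ := hq
    have hX : ∃ b : MvPolynomial (Fin 4) k, ∀ p : Fin 2 → R2 k, D.rho b p = (X i : R2 k) • p := by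
      fin_cases i
      · refine ⟨∑ i : Fin 3, C (μ i) * (X i.castSucc : MvPolynomial (Fin 4) k), fun p => ?_⟩
        rw [rho_smul_add, h1, h2]
        simp
      · refine ⟨∑ i : Fin 3, C (ν i) * (X i.castSucc : MvPolynomial (Fin 4) k), fun p => ?_⟩
        rw [rho_smul_add, h3, h4]
        simp
    obtain ⟨b, hb⟩ := hX
    refine ⟨a * b, fun p => ?_⟩
    rw [map_mul, Module.End.mul_apply, hb, ha, mul_smul]

end MRel

theorem model_fin (D : Datum k) :
    @Module.Finite (MvPolynomial (Fin 4) k) (Fin 2 → R2 k) _ _ D.modA := by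
  let _ := D.modA
  obtain hr := MRel.exists_rho D
  rw [Module.finite_def, Submodule.fg_def]
  refine ⟨Set.range (fun j : Fin 2 => (Pi.single j 1 : Fin 2 → R2 k)), Set.finite_range _, ?_⟩
  rw [eq_top_iff]
  rintro p -
  obtain ⟨a, ha⟩ := hr (p 0)
  obtain ⟨b, hb⟩ := hr (p 1)
  have h0 : ∀ j : Fin 2, (Pi.single j 1 : Fin 2 → R2 k) ∈
      Submodule.span (MvPolynomial (Fin 4) k)
      (Set.range (fun j : Fin 2 => (Pi.single j 1 : Fin 2 → R2 k))) := fun j =>
    Submodule.subset_span (Set.mem_range_self j)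
  have h3 := Submodule.add_mem _ (Submodule.smul_mem _ a (h0 0)) (Submodule.smul_mem _ b (h0 1))
  have h4 : a • (Pi.single 0 1 : Fin 2 → R2 k) + b • (Pi.single 1 1 : Fin 2 → R2 k) = p := by
    change D.rho a _ + D.rho b _ = p
    rw [ha, hb]
    funext j
    fin_cases j <;> simp
  rw [h4] at h3
  exact h3

theorem model_rel (D : Datum k) (m : Fin 2 → R2 k) :
    D.rho ((X 3 : MvPolynomial (Fin 4) k) ^ 2 +
      sextic (fun i : Fin 3 => (X i.castSucc : MvPolynomial (Fin 4) k))) m = 0 := by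
  have h1 : D.rho (sextic (fun i : Fin 3 => (X i.castSucc : MvPolynomial (Fin 4) k))) m =
      sextic (lineVec D.P D.Q) • m := by
    have h2 : (aeval (R := k) ((fun i : Fin 4 =>
      (if h : i.val < 3 then Polynomial.C (lineVec D.P D.Q ⟨i.val, h⟩) else
        (Polynomial.X : Polynomial (R2 k)))))).toRingHom
        (sextic (fun i : Fin 3 => (X i.castSucc : MvPolynomial (Fin 4) k))) =
        Polynomial.C (sextic (lineVec D.P D.Q)) := by
      rw [sextic_map, sextic_map]
      congr 1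
      funext i
      simp only [AlgHom.toRingHom_eq_coe, RingHom.coe_coe, aeval_X, Fin.val_castSucc, Fin.eta]
      exact dif_pos i.isLt
    rw [Datum.rho, RingHom.comp_apply, h2]
    simp [Module.algebraMap_end_apply]
  have h3 : D.phi * D.phi = (- sextic (lineVec D.P D.Q)) • (1 : Matrix (Fin 2) (Fin 2) (R2 k)) := by
    rw [← D.rel, Datum.phi]
    ext i j
    fin_cases i <;> fin_cases j <;> simp [Matrix.mul_apply, Fin.sum_univ_two] <;> ring_nf
  rw [map_add, LinearMap.add_apply, h1, map_pow, pow_two, Module.End.mul_apply, rho_X3, rho_X3,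
    Matrix.mulVec_mulVec, h3, Matrix.smul_mulVec, Matrix.one_mulVec, neg_smul, neg_add_cancel]

theorem model_sat0 (D : Datum k) (m : Fin 2 → R2 k)
    (h : ∀ i : Fin 3, D.rho (X i.castSucc) m = 0) : m = 0 := by
  obtain ⟨μ, ν, h1, h2, h3, h4⟩ := exists_dual D.P D.Q D.ind
  have h5 := MRel.rho_smul_add D μ m
  rw [h1, h2, map_sum, LinearMap.sum_apply, Finset.sum_eq_zero] at h5
  · funext j
    have h6 := congrFun h5.symm j
    simp only [map_one, one_mul, map_zero, zero_mul, add_zero, Pi.smul_apply, smul_eq_mul,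
      Pi.zero_apply] at h6
    exact (mul_eq_zero.1 h6).resolve_left (X_ne_zero _)
  · intro i _
    rw [map_mul, Module.End.mul_apply, h i, map_zero]

theorem model_sat1 (D : Datum k) (u : Fin 3 → Fin 2 → R2 k)
    (h : ∀ i j : Fin 3, D.rho (X i.castSucc) (u j) = D.rho (X j.castSucc) (u i)) :
    ∃ m : Fin 2 → R2 k, ∀ i : Fin 3, u i = D.rho (X i.castSucc) m := by
  obtain ⟨μ, ν, h1, h2, h3, h4⟩ := exists_dual D.P D.Q D.ind
  -- for each coordinate
  have hl : ∀ (c : Fin 3 → k), ∑ i, C (c i) * lineVec D.P D.Q i =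
      C (∑ i, c i * D.P i) * X 0 + C (∑ i, c i * D.Q i) * X 1 := by
    intro c
    rw [map_sum, map_sum, Finset.sum_mul, Finset.sum_mul, ← Finset.sum_add_distrib]
    refine Finset.sum_congr rfl fun i _ => ?_
    rw [lineVec, map_mul, map_mul]
    ring
  have hcoord : ∀ l : Fin 2, ∃ q : R2 k, ∀ i, u i l = lineVec D.P D.Q i * q := by
    intro l
    have hu : ∀ i j : Fin 3, lineVec D.P D.Q i * u j l = lineVec D.P D.Q j * u i l := by
      intro i j
      have := congrFun (h i j) l
      rwa [rho_X, rho_X] at this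
    have ha : ∀ (c : Fin 3 → k) (j : Fin 3), lineVec D.P D.Q j * (∑ i, C (c i) * u i l) =
        (C (∑ i, c i * D.P i) * X 0 + C (∑ i, c i * D.Q i) * X 1) * u j l := by
      intro c j
      rw [← hl, Finset.mul_sum, Finset.sum_mul]
      refine Finset.sum_congr rfl fun i _ => ?_
      rw [mul_left_comm, hu j i]
      ring
    have ha1 : ∀ j, lineVec D.P D.Q j * (∑ i, C (μ i) * u i l) = X 0 * u j l := by
      intro j
      rw [ha, h1, h2]
      simp
    have hb1 : ∀ j, lineVec D.P D.Q j * (∑ i, C (ν i) * u i l) = X 1 * u j l := by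
      intro j
      rw [ha, h3, h4]
      simp
    set a : R2 k := ∑ i, C (μ i) * u i l with ha0
    set b : R2 k := ∑ i, C (ν i) * u i l with hb0
    have hab : X 0 * b = X 1 * a := by
      rw [hb0, Finset.mul_sum]
      have : ∀ i, X 0 * (C (ν i) * u i l) = C (ν i) * lineVec D.P D.Q i * a := by
        intro i
        rw [mul_left_comm, ← ha1 i, mul_assoc]
      rw [Finset.sum_congr rfl fun i _ => this i, ← Finset.sum_mul, hl, h3, h4]
      simp
    have hdvd : (X 0 : R2 k) ∣ a := by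
      have hp : Prime (X 0 : R2 k) := X_prime
      rcases hp.dvd_or_dvd (Dvd.intro b hab) with h5 | h5
      · exfalso
        rw [MvPolynomial.X_dvd_X] at h5
        exact absurd h5 (by simp)
      · exact h5
    obtain ⟨q, hq⟩ := hdvd
    refine ⟨q, fun i => ?_⟩
    have h6 := ha1 i
    rw [hq] at h6
    have h7 : X 0 * u i l = X 0 * (lineVec D.P D.Q i * q) := by
      rw [← h6]; ring
    exact mul_left_cancel₀ (X_ne_zero _) h7
  choose q hq using hcoord
  refine ⟨q, fun i => ?_⟩
  rw [rho_X]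
  funext l
  exact hq l i

/-- the equation of the line acts as zero -/
theorem model_kill (D : Datum k) : ∃ c : Fin 3 → k, c ≠ 0 ∧ ∀ m : Fin 2 → R2 k,
    D.rho (∑ i : Fin 3, C (c i) * (X i.castSucc : MvPolynomial (Fin 4) k)) m = 0 := by
  let F : (Fin 3 → k) →ₗ[k] (Fin 2 → k) := Matrix.mulVecLin (Matrix.of ![D.P, D.Q])
  have h := LinearMap.ker_ne_bot_of_finrank_lt (f := F) (by simp)
  obtain ⟨c, hc, hc0⟩ := (Submodule.ne_bot_iff _).1 h
  refine ⟨c, hc0, fun m => ?_⟩
  have h0 := congrFun (LinearMap.mem_ker.1 hc) 0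
  have h1 := congrFun (LinearMap.mem_ker.1 hc) 1
  simp only [F, Matrix.mulVecLin_apply, Matrix.mulVec, dotProduct, Matrix.of_apply,
    Matrix.cons_val_zero, Matrix.cons_val_one, Pi.zero_apply] at h0 h1
  rw [MRel.rho_smul_add]
  have e0 : ∑ i, c i * D.P i = 0 := by rw [← h0]; exact Finset.sum_congr rfl fun i _ => mul_comm _ _
  have e1 : ∑ i, c i * D.Q i = 0 := by rw [← h1]; exact Finset.sum_congr rfl fun i _ => mul_comm _ _
  rw [e0, e1]
  simp

end Pool.Agent.Work.MP_2dff99_ag
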