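import Pool.Agent.Work.MP_2dff99_ag.MInt
import Pool.Agent.Work.MP_2dff99_ag.MRel

open MvPolynomial

namespace Pool.Agent.Work.MP_2dff99_ag

variable {k : Type} [Field k]

/-- the sheaf defined by a datum -/
noncomputable def Datum.sheaf (D : Datum k) : Sheaf k :=
  letI := D.modA
  { M := Fin 2 → R2 k
    modA := D.modA
    tower := ⟨fun c a m => by
      change D.rho (c • a) m = c • D.rho a m
      rw [MvPolynomial.smul_eq_C_mul, map_mul, Module.End.mul_apply, rho_C]⟩
    gr := grM k D.e
    internal := model_internal D.e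
    deg1 := model_deg1 D
    deg3 := model_deg3 D
    fin := model_fin D
    rel := model_rel D
    sat0 := model_sat0 D
    sat1 := model_sat1 D }

theorem sheaf_smul (D : Datum k) (a : MvPolynomial (Fin 4) k) (p : Fin 2 → R2 k) :
    ((a • (show D.sheaf.M from p) : D.sheaf.M) : Fin 2 → R2 k) = D.rho a p := rfl

theorem sheaf_gr (D : Datum k) (n : ℤ) : D.sheaf.gr n = grM k D.e n := rfl

theorem model_dim (D : Datum k) :
    ∀ᶠ n : ℤ in Filter.atTop, (Module.finrank k (D.sheaf.gr n) : ℤ) = 2 * n := by
  filter_upwards [Filter.eventually_ge_atTop 2] with n hn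
  exact finrank_grM D.e D.he n hn

/-- Hilbert polynomial `2 n`, killed by the equation of the line. -/
theorem model_ofClass (D : Datum k) : D.sheaf.OfClass := by
  refine ⟨?_, model_dim D⟩
  obtain ⟨c, hc, h⟩ := model_kill D
  exact ⟨c, hc, fun m => h m⟩

end Pool.Agent.Work.MP_2dff99_ag
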