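import Pool.Agent.Work.MP_2dff99_ag.Free
import Pool.Agent.Work.MP_2dff99_ag.Model
import Pool.Agent.Work.MP_2dff99_ag.NT
import Pool.Agent.Work.MP_2dff99_ag.Perp

open MvPolynomial

namespace Pool.Agent.Work.MP_2dff99_ag

namespace Normal

section grading

variable {k M : Type} [Field k] [AddCommGroup M] [Module k M] [Module (R2 k) M]
    [IsScalarTower k (R2 k) M] (gr : ℤ → Submodule k M)
    (hX : ∀ (i : Fin 2) (n : ℤ) (m : M), m ∈ gr n → (X i : R2 k) • m ∈ gr (n + 1))

include hX

omit [IsScalarTower k (R2 k) M] in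
theorem pow_mem (i : Fin 2) (j : ℕ) {n : ℤ} {m : M} (hm : m ∈ gr n) :
    (X i ^ j : R2 k) • m ∈ gr (n + j) := by
  induction j with
  | zero => simpa using hm
  | succ j ih =>
    rw [pow_succ', mul_smul]
    have := hX i _ _ ih
    push_cast
    rwa [← add_assoc]

theorem smul_mem {p : R2 k} {e n : ℤ} (hp : HomZ p e) {m : M} (hm : m ∈ gr n) :
    p • m ∈ gr (n + e) := by
  rw [p.as_sum, Finset.sum_smul]
  refine Submodule.sum_mem _ fun v hv => ?_
  have hv' : coeff v p ≠ 0 := mem_support_iff.1 hv
  have he := hp v hv'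
  have h1 : (monomial v (coeff v p) : R2 k) = C (coeff v p) * (X 1 ^ v 1 * X 0 ^ v 0) := by
    rw [monomial_eq, Finsupp.prod_fintype _ _ (fun i => pow_zero _), Fin.prod_univ_two]
    ring
  rw [h1, mul_smul, mul_smul, ← algebraMap_eq, algebraMap_smul]
  refine Submodule.smul_mem _ _ ?_
  have := pow_mem gr hX 1 (v 1) (pow_mem gr hX 0 (v 0) hm)
  rwa [add_assoc, he] at this

theorem homZ_repr (hint : DirectSum.IsInternal gr) (d : Fin 2 → ℤ)
    (b : Module.Basis (Fin 2) (R2 k) M) (hb : ∀ j, b j ∈ gr (d j)) {n : ℤ} {m : M}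
    (hm : m ∈ gr n) (i : Fin 2) : HomZ (b.repr m i) (n - d i) := by
  classical
  let gr' : ℤ → Submodule k M := fun n =>
    { carrier := {m | ∀ i, HomZ (b.repr m i) (n - d i)}
      zero_mem' := fun i => by simp [homZ_zero]
      add_mem' := fun {x y} hx hy i => by simpa using homZ_add (hx i) (hy i)
      smul_mem' := fun c x hx i => by
        have : b.repr (c • x) i = C c * b.repr x i := by
          rw [← algebraMap_smul (R2 k) c x, map_smul]; simp [algebraMap_eq]
        rw [this]
        simpa using homZ_mul (homZ_C c) (hx i) }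
  have h1 : ∀ n, gr' n ≤ gr n := by
    intro n m hm
    rw [← b.sum_repr m]
    refine Submodule.sum_mem _ fun i _ => ?_
    have := smul_mem gr hX (hm i) (hb i)
    rwa [add_sub_cancel] at this
  have h2 : ⨆ n, gr' n = ⊤ := by
    rw [eq_top_iff]
    intro m _
    rw [← b.sum_repr m]
    refine Submodule.sum_mem _ fun i _ => ?_
    obtain ⟨N, q, hq, hp⟩ := exists_components (b.repr m i)
    rw [hp, Finset.sum_smul]
    refine Submodule.sum_mem _ fun l _ => ?_
    refine Submodule.mem_iSup_of_mem (l + d i) fun j => ?_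
    rw [map_smul, Finsupp.smul_apply, b.repr_self]
    by_cases hj : j = i
    · subst hj; simpa using hq l
    · simp [Ne.symm hj, homZ_zero]
  have h3 : m ∈ gr' n := by
    have hind := hint.submodule_iSupIndep n
    have h4 : m ∈ ⨆ n, gr' n := by rw [h2]; trivial
    rw [iSup_split_single gr' n] at h4
    obtain ⟨x, hx, y, hy, hxy⟩ := Submodule.mem_sup.1 h4
    have hy' : y ∈ ⨆ (j) (_ : j ≠ n), gr j := (iSup₂_mono fun j _ => h1 j) hy
    have hy'' : y ∈ gr n := by
      have : y = m - x := by rw [← hxy]; abel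
      rw [this]
      exact Submodule.sub_mem _ hm (h1 n hx)
    have h5 : y = 0 := (Submodule.disjoint_def.1 hind) y hy'' hy'
    rw [h5, add_zero] at hxy
    rwa [← hxy]
  exact h3 i

end grading

section sheaf

variable {k : Type} [Field k]

/-- linear form in the first three variables -/
noncomputable def lin (μ : Fin 3 → k) : MvPolynomial (Fin 4) k := ∑ j, C (μ j) * X j.castSucc

theorem lin_act (S : Sheaf k) {c : Fin 3 → k} (hc : c ≠ 0) (hk : S.Killed c) {P Q : Fin 3 → k}
    (ind : LinearIndependent k ![P, Q]) (hP : ∑ i, c i * P i = 0) (hQ : ∑ i, c i * Q i = 0)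
    {μ ν : Fin 3 → k} (h1 : ∑ i, μ i * P i = 1) (h2 : ∑ i, μ i * Q i = 0)
    (h3 : ∑ i, ν i * P i = 0) (h4 : ∑ i, ν i * Q i = 1) (i : Fin 3) (m : S.M) :
    (X i.castSucc : MvPolynomial (Fin 4) k) • m = (C (P i) * lin μ + C (Q i) * lin ν) • m := by
  have key : ∀ V : Fin 3 → k, ∑ j, ((if j = i then (1 : k) else 0) - P i * μ j - Q i * ν j) * V j
      = V i - P i * ∑ j, μ j * V j - Q i * ∑ j, ν j * V j := by
    intro V
    simp only [sub_mul, Finset.sum_sub_distrib, mul_assoc, ← Finset.mul_sum, ite_mul, one_mul,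
      zero_mul, Finset.sum_ite_eq', Finset.mem_univ, if_true]
  obtain ⟨a, ha⟩ := perp_unique k P Q ind c
    (fun j => (if j = i then (1 : k) else 0) - P i * μ j - Q i * ν j) hc hP hQ
    (by rw [key, h1, h3]; ring) (by rw [key, h2, h4]; ring)
  have h5 : (X i.castSucc : MvPolynomial (Fin 4) k) - (C (P i) * lin μ + C (Q i) * lin ν) =
      C a * ∑ j, C (c j) * X j.castSucc := by
    have h6 : ∑ j, C ((if j = i then (1 : k) else 0) - P i * μ j - Q i * ν j) *
        (X j.castSucc : MvPolynomial (Fin 4) k) = X i.castSucc - (C (P i) * lin μ + C (Q i) * lin ν) := by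
      simp only [lin, map_sub, map_mul, sub_mul, Finset.sum_sub_distrib, mul_assoc,
        ← Finset.mul_sum]
      have : ∑ j, C (if j = i then (1 : k) else 0) * (X j.castSucc : MvPolynomial (Fin 4) k) =
          X i.castSucc := by
        rw [Finset.sum_eq_single i]
        · simp
        · intro j _ hj; simp [hj]
        · simp
      rw [this]
      ring
    rw [← h6, Finset.mul_sum]
    refine Finset.sum_congr rfl fun j _ => ?_
    rw [congrFun ha j]
    simp [mul_assoc]
  rw [← sub_eq_zero, ← sub_smul, h5, mul_smul, hk m, smul_zero]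

theorem sextic_act (S : Sheaf k) {v v' : Fin 3 → MvPolynomial (Fin 4) k}
    (h : ∀ i (m : S.M), v i • m = v' i • m) (m : S.M) : sextic v • m = sextic v' • m := by
  have h1 : ∀ i, Ideal.Quotient.mk (Module.annihilator (MvPolynomial (Fin 4) k) S.M) (v i) =
      Ideal.Quotient.mk _ (v' i) := by
    intro i
    rw [Ideal.Quotient.eq, Module.mem_annihilator]
    intro m
    rw [sub_smul, h i m, sub_self]
  have h2 : Ideal.Quotient.mk (Module.annihilator (MvPolynomial (Fin 4) k) S.M) (sextic v) =
      Ideal.Quotient.mk _ (sextic v') := by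
    rw [sextic_map, sextic_map]
    congr 1
    funext i
    exact h1 i
  rw [Ideal.Quotient.eq, Module.mem_annihilator] at h2
  have := h2 m
  rwa [sub_smul, sub_eq_zero] at this

theorem lin_mem (S : Sheaf k) (μ : Fin 3 → k) {n : ℤ} {m : S.M} (hm : m ∈ S.gr n) :
    lin μ • m ∈ S.gr (n + 1) := by
  rw [lin, Finset.sum_smul]
  refine Submodule.sum_mem _ fun j _ => ?_
  rw [mul_smul, ← algebraMap_eq, algebraMap_smul]
  exact Submodule.smul_mem _ _ (S.deg1 j n m hm)

end sheaf

end Normal

/-- every sheaf of class `(0, h, 0)` on a curve `C_ℓ` comes from a datum -/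
theorem normal_form (k : Type) [Field k] [CharZero k] (S : Sheaf k)
    (hdim : ∀ᶠ n : ℤ in Filter.atTop, (Module.finrank k (S.gr n) : ℤ) = 2 * n)
    (c : Fin 3 → k) (hc : c ≠ 0) (hk : S.Killed c) (P Q : Fin 3 → k)
    (ind : LinearIndependent k ![P, Q]) (hP : ∑ i, c i * P i = 0) (hQ : ∑ i, c i * Q i = 0) :
    ∃ D : Datum k, D.P = P ∧ D.Q = Q ∧ S.Iso D.sheaf := by
  classical
  obtain ⟨μ, ν, h1, h2, h3, h4⟩ := exists_dual P Q ind
  let φ : R2 k →ₐ[k] MvPolynomial (Fin 4) k := aeval ![Normal.lin μ, Normal.lin ν]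
  let inst : Module (R2 k) S.M := Module.compHom S.M φ.toRingHom
  have hsm : ∀ (p : R2 k) (m : S.M), p • m = φ p • m := fun _ _ => rfl
  have : IsScalarTower k (R2 k) S.M := ⟨fun a p m => by
    rw [hsm, hsm, map_smul, smul_assoc]⟩
  have hX0 : ∀ m : S.M, (X 0 : R2 k) • m = Normal.lin μ • m := fun m => by
    rw [hsm]; simp [φ]
  have hX1 : ∀ m : S.M, (X 1 : R2 k) • m = Normal.lin ν • m := fun m => by
    rw [hsm]; simp [φ]
  have hφ : ∀ i, φ (lineVec P Q i) = C (P i) * Normal.lin μ + C (Q i) * Normal.lin ν := by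
    intro i
    simp [lineVec, φ, algebraMap_eq]
  have hlin : ∀ (i : Fin 3) (m : S.M), (X i.castSucc : MvPolynomial (Fin 4) k) • m =
      (lineVec P Q i : R2 k) • m := by
    intro i m
    rw [Normal.lin_act S hc hk ind hP hQ h1 h2 h3 h4, hsm, hφ]
  set Fp : R2 k := - sextic (lineVec P Q) with hFp
  have hw2 : ∀ m : S.M, (X 3 : MvPolynomial (Fin 4) k) • (X 3 : MvPolynomial (Fin 4) k) • m =
      Fp • m := by
    intro m
    have h5 := S.rel m
    rw [add_smul, pow_two, mul_smul] at h5
    have h6 : φ (sextic (lineVec P Q)) = sextic (fun i => φ (lineVec P Q i)) :=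
      sextic_map φ.toRingHom _
    have h7 : sextic (fun i : Fin 3 => (X i.castSucc : MvPolynomial (Fin 4) k)) • m =
        sextic (fun i => φ (lineVec P Q i)) • m :=
      Normal.sextic_act S (v := fun i => X i.castSucc) (v' := fun i => φ (lineVec P Q i))
        (fun i m => (hlin i m).trans (hsm _ _)) m
    rw [eq_neg_of_add_eq_zero_left h5, h7, hFp, hsm, map_neg, neg_smul, h6]
  have hcomm : ∀ (p : R2 k) (m : S.M), (X 3 : MvPolynomial (Fin 4) k) • (p • m) =
      p • ((X 3 : MvPolynomial (Fin 4) k) • m) := by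
    intro p m
    rw [hsm, hsm, smul_smul, smul_smul, mul_comm]
  -- finiteness
  have hfin : Module.Finite (R2 k) S.M := by
    obtain ⟨s, hs⟩ := S.fin.fg_top
    refine ⟨⟨s ∪ s.image (fun m => (X 3 : MvPolynomial (Fin 4) k) • m), ?_⟩⟩
    set N : Submodule (R2 k) S.M := Submodule.span (R2 k)
      (↑(s ∪ s.image (fun m => (X 3 : MvPolynomial (Fin 4) k) • m)) : Set S.M) with hN
    have hs1 : ∀ m ∈ s, m ∈ N := fun m hm => Submodule.subset_span (by simp [hm])
    have hs2 : ∀ m ∈ s, (X 3 : MvPolynomial (Fin 4) k) • m ∈ N := fun m hm =>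
      Submodule.subset_span (by
        rw [Finset.coe_union, Finset.coe_image]
        exact Or.inr ⟨m, hm, rfl⟩)
    have hN3 : ∀ m ∈ N, (X 3 : MvPolynomial (Fin 4) k) • m ∈ N := by
      intro m hm
      induction hm using Submodule.span_induction with
      | mem x hx =>
        rw [Finset.coe_union, Finset.coe_image] at hx
        rcases hx with hx | ⟨y, hy, rfl⟩
        · exact hs2 x hx
        · change (X 3 : MvPolynomial (Fin 4) k) • (X 3 : MvPolynomial (Fin 4) k) • y ∈ N
          rw [hw2]
          exact N.smul_mem _ (hs1 y hy)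
      | zero => rw [smul_zero]; exact N.zero_mem
      | add x y _ _ hx hy => rw [smul_add]; exact N.add_mem hx hy
      | smul a x _ hx => rw [hcomm]; exact N.smul_mem _ hx
    have hNa : ∀ (a : MvPolynomial (Fin 4) k) (m : S.M), m ∈ N → a • m ∈ N := by
      intro a
      induction a using MvPolynomial.induction_on with
      | C c =>
        intro m hm
        have : (C c : MvPolynomial (Fin 4) k) • m = (C c : R2 k) • m := by
          rw [hsm]; simp [φ, algebraMap_eq]
        rw [this]
        exact N.smul_mem _ hm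
      | add p q hp hq => intro m hm; rw [add_smul]; exact N.add_mem (hp m hm) (hq m hm)
      | mul_X p i hp =>
        intro m hm
        rw [mul_smul]
        refine hp _ ?_
        revert i
        refine Fin.lastCases ?_ fun j => ?_
        · exact hN3 m hm
        · rw [hlin]; exact N.smul_mem _ hm
    rw [eq_top_iff]
    intro m _
    have hm : m ∈ Submodule.span (MvPolynomial (Fin 4) k) (s : Set S.M) := by rw [hs]; trivial
    induction hm using Submodule.span_induction with
    | mem x hx => exact hs1 x hx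
    | zero => exact N.zero_mem
    | add x y _ _ hx hy => exact N.add_mem (hx trivial) (hy trivial)
    | smul a x _ hx => exact hNa a x (hx trivial)
  have hX : ∀ (i : Fin 2) (n : ℤ) (m : S.M), m ∈ S.gr n → (X i : R2 k) • m ∈ S.gr (n + 1) := by
    intro i n m hm
    fin_cases i
    · change (X 0 : R2 k) • m ∈ _
      rw [hX0]; exact Normal.lin_mem S μ hm
    · change (X 1 : R2 k) • m ∈ _
      rw [hX1]; exact Normal.lin_mem S ν hm
  have hXi : ∀ (i : Fin 3) (m : S.M), (X i.castSucc : MvPolynomial (Fin 4) k) • m =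
      P i • ((X 0 : R2 k) • m) + Q i • ((X 1 : R2 k) • m) := by
    intro i m
    rw [hlin, lineVec, add_smul, mul_smul, mul_smul, ← algebraMap_eq, algebraMap_smul,
      algebraMap_smul]
  have sat0 : ∀ m : S.M, (X 0 : R2 k) • m = 0 → (X 1 : R2 k) • m = 0 → m = 0 := by
    intro m h5 h6
    refine S.sat0 m fun i => ?_
    rw [hXi, h5, h6, smul_zero, smul_zero, add_zero]
  have sat1 : ∀ a b : S.M, (X 0 : R2 k) • b = (X 1 : R2 k) • a →
      ∃ m : S.M, a = (X 0 : R2 k) • m ∧ b = (X 1 : R2 k) • m := by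
    intro a b hab
    have hks : ∀ (c : k) (p : R2 k) (m : S.M), p • (c • m) = c • (p • m) := by
      intro c p m
      rw [← algebraMap_smul (R2 k) c m, ← algebraMap_smul (R2 k) c (p • m), smul_smul, smul_smul,
        mul_comm]
    obtain ⟨m, hm⟩ := S.sat1 (fun i => P i • a + Q i • b) (by
      intro i j
      simp only [hXi, smul_add, hks, hab]
      module)
    refine ⟨m, ?_, ?_⟩
    · have h5 : ∑ i, μ i • (P i • a + Q i • b) = a := by
        have : ∑ i, μ i • (P i • a + Q i • b) = (∑ i, μ i * P i) • a + (∑ i, μ i * Q i) • b := by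
          simp only [Fin.sum_univ_three]; module
        rw [this, h1, h2]; simp
      have h6 : ∑ i, μ i • (P i • a + Q i • b) = (X 0 : R2 k) • m := by
        have : ∑ i, μ i • (P i • a + Q i • b) = (∑ i, μ i * P i) • ((X 0 : R2 k) • m) +
            (∑ i, μ i * Q i) • ((X 1 : R2 k) • m) := by
          simp only [hm, hXi, Fin.sum_univ_three]; module
        rw [this, h1, h2]; simp
      rw [← h6, h5]
    · have h5 : ∑ i, ν i • (P i • a + Q i • b) = b := by
        have : ∑ i, ν i • (P i • a + Q i • b) = (∑ i, ν i * P i) • a + (∑ i, ν i * Q i) • b := by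
          simp only [Fin.sum_univ_three]; module
        rw [this, h3, h4]; simp
      have h6 : ∑ i, ν i • (P i • a + Q i • b) = (X 1 : R2 k) • m := by
        have : ∑ i, ν i • (P i • a + Q i • b) = (∑ i, ν i * P i) • ((X 0 : R2 k) • m) +
            (∑ i, ν i * Q i) • ((X 1 : R2 k) • m) := by
          simp only [hm, hXi, Fin.sum_univ_three]; module
        rw [this, h3, h4]; simp
      rw [← h6, h5]
  obtain ⟨d, b, hd, hd2, hb⟩ := free_two (M := S.M) S.gr S.internal hX sat0 sat1 hdim
  have hrepr : ∀ {n : ℤ} {m : S.M}, m ∈ S.gr n → ∀ i, HomZ (b.repr m i) (n - d i) :=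
    fun hm i => Normal.homZ_repr S.gr hX S.internal d b hb hm i
  have hW : ∀ (m : S.M) (i : Fin 2), b.repr ((X 3 : MvPolynomial (Fin 4) k) • m) i =
      b.repr ((X 3 : MvPolynomial (Fin 4) k) • b 0) i * b.repr m 0 +
      b.repr ((X 3 : MvPolynomial (Fin 4) k) • b 1) i * b.repr m 1 := by
    intro m i
    have h7 : ∀ (p q : R2 k) (y z : S.M), b.repr (p • y + q • z) i =
        b.repr y i * p + b.repr z i * q := by
      intro p q y z
      simp [mul_comm]
    have h6 : (X 3 : MvPolynomial (Fin 4) k) • m =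
        b.repr m 0 • ((X 3 : MvPolynomial (Fin 4) k) • b 0) +
        b.repr m 1 • ((X 3 : MvPolynomial (Fin 4) k) • b 1) := by
      conv_lhs => rw [← b.sum_repr m]
      rw [Fin.sum_univ_two, smul_add, hcomm, hcomm]
    rw [h6, h7]
  have hF : ∀ (m : S.M) (i : Fin 2), b.repr ((X 3 : MvPolynomial (Fin 4) k) •
      (X 3 : MvPolynomial (Fin 4) k) • m) i = Fp * b.repr m i := by
    intro m i
    rw [hw2, map_smul]; simp
  set fa := b.repr ((X 3 : MvPolynomial (Fin 4) k) • b 0) 0 with hfa
  set fc := b.repr ((X 3 : MvPolynomial (Fin 4) k) • b 0) 1 with hfc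
  set fd := b.repr ((X 3 : MvPolynomial (Fin 4) k) • b 1) 0 with hfd
  set fe := b.repr ((X 3 : MvPolynomial (Fin 4) k) • b 1) 1 with hfe
  have e00 : fa * fa + fd * fc = Fp := by
    have := hF (b 0) 0
    rw [hW, ← hfa, ← hfc] at this
    simpa using this
  have e10 : fc * fa + fe * fc = 0 := by
    have := hF (b 0) 1
    rw [hW, ← hfa, ← hfc] at this
    simpa using this
  have e01 : fa * fd + fd * fe = 0 := by
    have := hF (b 1) 0
    rw [hW, ← hfd, ← hfe] at this
    simpa using this
  have htr : fe = -fa := by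
    by_contra hne
    have hne' : fa + fe ≠ 0 := fun h0 => hne (by linear_combination h0)
    have hc0 : fc = 0 := by
      have : fc * (fa + fe) = 0 := by linear_combination e10
      exact (mul_eq_zero.1 this).resolve_right hne'
    rw [hc0] at e00
    exact not_square k P Q ind fa (by rw [← hFp, ← e00]; ring)
  have Ha : HomZ fa 3 := by
    have := hrepr (S.deg3 _ _ (hb 0)) 0
    rwa [show d 0 + 3 - d 0 = 3 by ring] at this
  have Hc : HomZ fc (d 0 + 3 - d 1) := hrepr (S.deg3 _ _ (hb 0)) 1
  have Hd : HomZ fd (d 1 + 3 - d 0) := hrepr (S.deg3 _ _ (hb 1)) 0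
  have hd0 : 0 ≤ d 0 := by
    by_contra hlt
    have hc0 : fc = 0 := homZ_eq_zero (by omega) Hc
    rw [hc0] at e00
    exact not_square k P Q ind fa (by rw [← hFp, ← e00]; ring)
  obtain ⟨e, he⟩ : ∃ e : ℕ, (e : ℤ) = 1 - d 0 := ⟨(1 - d 0).toNat, by omega⟩
  let D : Datum k :=
    { P := P
      Q := Q
      ind := ind
      e := e
      he := by omega
      fa := fa
      fc := fc
      fd := fd
      ha := Ha
      hc := by rw [show (3 - 2 * (e : ℤ)) = d 0 + 3 - d 1 by omega]; exact Hc
      hd := by rw [show (3 + 2 * (e : ℤ)) = d 1 + 3 - d 0 by omega]; exact Hd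
      rel := by rw [← hFp, ← e00]; ring }
  refine ⟨D, rfl, rfl, (b.equivFun.restrictScalars k : S.M ≃ₗ[k] (Fin 2 → R2 k)), ?_, ?_⟩
  · refine Fin.lastCases ?_ fun i => ?_
    · intro m
      change b.equivFun ((X 3 : MvPolynomial (Fin 4) k) • m) = D.rho (X 3) (b.equivFun m)
      rw [rho_X3]
      funext i
      rw [Module.Basis.equivFun_apply, hW]
      fin_cases i
      · change fa * b.repr m 0 + fd * b.repr m 1 = D.phi.mulVec (b.equivFun m) 0
        simp only [Datum.phi, D, Matrix.mulVec, dotProduct, Fin.sum_univ_two,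
          Module.Basis.equivFun_apply, Matrix.of_apply, Matrix.cons_val', Matrix.cons_val_zero,
          Matrix.cons_val_one, Matrix.cons_val_fin_one]
      · change fc * b.repr m 0 + fe * b.repr m 1 = D.phi.mulVec (b.equivFun m) 1
        simp only [Datum.phi, D, Matrix.mulVec, dotProduct, Fin.sum_univ_two,
          Module.Basis.equivFun_apply, Matrix.of_apply, Matrix.cons_val', Matrix.cons_val_zero,
          Matrix.cons_val_one, Matrix.cons_val_fin_one, htr]
    · intro m
      change b.equivFun ((X i.castSucc : MvPolynomial (Fin 4) k) • m) =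
        D.rho (X i.castSucc) (b.equivFun m)
      rw [rho_X, hlin, map_smul]
      rfl
  · intro n m hm
    change HomZ (b.repr m 0) (n - (1 - e)) ∧ HomZ (b.repr m 1) (n - (1 + e))
    refine ⟨?_, ?_⟩
    · have := hrepr hm 0
      rwa [show d 0 = 1 - (e : ℤ) by omega] at this
    · have := hrepr hm 1
      rwa [show d 1 = 1 + (e : ℤ) by omega] at this

end Pool.Agent.Work.MP_2dff99_ag
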