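import Pool.Agent.Work.MP_2dff99_ag.Sx

open MvPolynomial

namespace Pool.Agent.Work.MP_2dff99_ag

private theorem exists_indep {L : Type} [Field L] (v : Fin 3 → L) (hv : v ≠ 0) :
    ∃ Q : Fin 3 → L, LinearIndependent L ![v, Q] := by
  by_contra hcon
  push Not at hcon
  have h : ∀ Q : Fin 3 → L, ∃ c : L, c • v = Q := by
    intro Q
    have h1 := hcon Q
    rw [LinearIndependent.pair_iff' hv] at h1
    push Not at h1
    exact h1
  have h1 : Module.finrank L (Fin 3 → L) ≤ 1 := by
    apply finrank_le_one v
    exact h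
  rw [Module.finrank_fin_fun] at h1
  omega

private theorem eval_line_point {L : Type} [Field L] (P Q : Fin 3 → L) :
    eval ![1, 0] (sextic (lineVec P Q)) = sextic P := by
  rw [eval_sextic_line]
  congr 1
  funext i
  ring

private theorem form_split {k : Type} [CommRing k] (n : ℕ) (a : ℕ → k) :
    form (n + 1) a = C (a 0) * X 0 ^ (n + 1) + form n (fun i => a (i + 1)) * X 1 := by
  unfold form
  rw [Finset.sum_range_succ', add_comm, Finset.sum_mul]
  congr 1
  · simp
  · refine Finset.sum_congr rfl fun i hi => ?_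
    rw [Nat.add_sub_add_right, pow_succ, ← mul_assoc]

/-- a point of the surface gives a datum of type `(0, 2)` -/
theorem datum_of_point (L : Type) [Field L] (v : Fin 3 → L) (hv : v ≠ 0) (r : L)
    (h : - sextic v = r ^ 2) : Nonempty (Datum L) := by
  obtain ⟨Q, hQ⟩ := exists_indep v hv
  have h1 : HomZ (- sextic (lineVec v Q) - C (r ^ 2) * X 0 ^ 6) ((6 : ℕ) : ℤ) := by
    refine homZ_sub (homZ_neg (homZ_sextic_line v Q)) ?_
    exact homZ_mulE (homZ_C _) (homZ_pow (homZ_X 0) 6) (by norm_num)
  obtain ⟨a, ha⟩ := exists_form h1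
  rw [form_split] at ha
  have h2 : a 0 = 0 := by
    have h3 := congrArg (eval ![1, 0]) ha
    simp only [map_sub, map_neg, eval_line_point, map_mul, eval_C, map_pow, eval_X, map_add] at h3
    rw [h] at h3
    simpa using h3.symm
  rw [h2, map_zero, zero_mul, zero_add] at ha
  refine ⟨{ P := v, Q := Q, ind := hQ, e := 1, he := le_refl _, fa := C r * X 0 ^ 3, fc := X 1,
            fd := form 5 (fun i => a (i + 1)), ha := ?_, hc := ?_, hd := ?_, rel := ?_ }⟩
  · exact homZ_mulE (homZ_C _) (homZ_pow (homZ_X 0) 3) (by norm_num)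
  · exact homZ_X 1
  · exact homZ_form 5 _
  · rw [mul_comm (X 1), ← ha, map_pow]
    ring

private theorem hom_ext {L : Type} [Field L] [Infinite L] {p : R2 L} {n : ℕ}
    (hp : HomZ p n) (h : ∀ s : L, eval ![s, 1] p = 0) : p = 0 := by
  obtain ⟨a, rfl⟩ := exists_form hp
  have h1 : form n a * X 1 = 0 := by
    apply ext_eval
    intro s t
    rw [map_zero, map_mul, eval_X]
    by_cases ht : t = 0
    · rw [ht]
      simp
    · have h2 := h (s / t)
      rw [eval_form] at h2 ⊢
      have h3 : ∑ i ∈ Finset.range (n + 1), a i * s ^ (n - i) * t ^ i =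
          t ^ n * ∑ i ∈ Finset.range (n + 1), a i * (s / t) ^ (n - i) * 1 ^ i := by
        rw [Finset.mul_sum]
        refine Finset.sum_congr rfl fun i hi => ?_
        rw [Finset.mem_range] at hi
        have h4 : t ^ n = t ^ (n - i) * t ^ i := by
          rw [← pow_add]
          congr 1
          omega
        rw [h4, div_pow]
        have h5 : t ^ (n - i) ≠ 0 := pow_ne_zero _ ht
        field_simp
        ring
      rw [h3, h2, mul_zero, zero_mul]
  exact (mul_eq_zero.1 h1).resolve_right (X_ne_zero 1)

private theorem eval_cubic {L : Type} [Field L] (A : Polynomial L) (hA : A.natDegree ≤ 3)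
    (s : L) : eval ![s, 1] (form 3 (fun i => A.coeff (3 - i))) = A.eval s := by
  rw [eval_form, Polynomial.eval_eq_sum_range' (Nat.lt_succ_of_le hA)]
  simp only [Finset.sum_range_succ, Finset.sum_range_zero]
  simp
  ring

/-- three cubic forms give a datum of type `(1, 1)` -/
theorem datum_of_cubics (L : Type) [Field L] [Infinite L] (P Q : Fin 3 → L)
    (ind : LinearIndependent L ![P, Q]) (A B D : Polynomial L) (hA : A.natDegree ≤ 3)
    (hB : B.natDegree ≤ 3) (hD : D.natDegree ≤ 3)
    (h : ∀ s : L, A.eval s ^ 2 + B.eval s * D.eval s = - sextic (fun i => s * P i + Q i)) :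
    Nonempty (Datum L) := by
  have fA := homZ_form 3 (fun i => A.coeff (3 - i))
  have fB := homZ_form 3 (fun i => B.coeff (3 - i))
  have fD := homZ_form 3 (fun i => D.coeff (3 - i))
  refine ⟨{ P := P, Q := Q, ind := ind, e := 0, he := by omega,
            fa := form 3 (fun i => A.coeff (3 - i)), fc := form 3 (fun i => B.coeff (3 - i)),
            fd := form 3 (fun i => D.coeff (3 - i)), ha := fA, hc := ?_, hd := ?_, rel := ?_ }⟩
  · simpa using fB
  · simpa using fD
  · rw [← sub_eq_zero]
    apply hom_ext (n := 6)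
    · refine homZ_sub (homZ_add ?_ (homZ_mulE fB fD (by norm_num)))
        (homZ_neg (homZ_sextic_line P Q))
      rw [pow_two]
      exact homZ_mulE fA fA (by norm_num)
    · intro s
      rw [map_sub, map_add, map_pow, map_mul, map_neg, eval_cubic A hA, eval_cubic B hB,
        eval_cubic D hD, h, eval_sextic_line]
      simp only [one_mul, sub_self]

end Pool.Agent.Work.MP_2dff99_ag
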