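import Pool.Agent.Work.MP_2dff99_ag.Sx

open MvPolynomial

namespace Pool.Agent.Work.MP_2dff99_ag

private theorem smooth_poly {K : Type} [Field K] [Infinite K] {θ : Fin 3 → K} (h : Roots θ) :
    sextic (fun j : Fin 3 => (X j : MvPolynomial (Fin 3) K)) =
      C ((2 * (1 - θ 0)) ^ 2) * (X 0 + C (θ 0) * X 1 + C (θ 0 ^ 2) * X 2) ^ 6 +
      C ((2 * (1 - θ 1)) ^ 2) * (X 0 + C (θ 1) * X 1 + C (θ 1 ^ 2) * X 2) ^ 6 +
      C ((2 * (1 - θ 2)) ^ 2) * (X 0 + C (θ 2) * X 1 + C (θ 2 ^ 2) * X 2) ^ 6 +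
      C 11 * ((X 0 + C (θ 0) * X 1 + C (θ 0 ^ 2) * X 2) *
        (X 0 + C (θ 1) * X 1 + C (θ 1 ^ 2) * X 2) *
        (X 0 + C (θ 2) * X 1 + C (θ 2 ^ 2) * X 2)) ^ 2 := by
  apply MvPolynomial.funext
  intro x
  rw [sextic_map]
  simp only [eval_X, map_add, map_mul, map_pow, eval_C]
  rw [sextic_diag h, Fin.sum_univ_three, Fin.prod_univ_three]
  rfl

private theorem smooth_pderiv {K : Type} [Field K] [Infinite K] {θ : Fin 3 → K} (h : Roots θ)
    (w : Fin 3 → K) (j : Fin 3) :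
    eval w (pderiv j (sextic (fun j : Fin 3 => (X j : MvPolynomial (Fin 3) K)))) =
      ∑ i, (6 * (2 * (1 - θ i)) ^ 2 * xi (θ i) w ^ 5 + 22 * (∏ l, xi (θ l) w) *
        (xi (θ (i + 1)) w * xi (θ (i + 2)) w)) * θ i ^ (j : ℕ) := by
  rw [smooth_poly h, Fin.sum_univ_three, Fin.prod_univ_three]
  have e1 : (1 : Fin 3) + 1 = 2 := rfl
  have e2 : (1 : Fin 3) + 2 = 0 := rfl
  have e3 : (2 : Fin 3) + 1 = 0 := rfl
  have e4 : (2 : Fin 3) + 2 = 1 := rfl
  fin_cases j
  all_goals
    simp [Derivation.leibniz, Derivation.leibniz_pow, pderiv_X, xi, e1, e2, e3, e4]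
    ring

private theorem smooth_aux {K : Type} [Field K] [CharZero K] [IsAlgClosed K] (w : Fin 3 → K)
    (hw : ∀ j, eval w (pderiv j (sextic (fun j : Fin 3 => (X j : MvPolynomial (Fin 3) K)))) = 0) :
    w = 0 := by
  obtain ⟨θ, h⟩ := roots_exist K (by norm_num)
  have h1 : (fun i => 6 * (2 * (1 - θ i)) ^ 2 * xi (θ i) w ^ 5 + 22 * (∏ l, xi (θ l) w) *
        (xi (θ (i + 1)) w * xi (θ (i + 2)) w)) = 0 := by
    apply Matrix.eq_zero_of_vecMul_eq_zero (vand_det h)
    funext j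
    have := hw j
    rw [smooth_pderiv h] at this
    exact this
  have h2 := congrFun h1 0
  have h3 := congrFun h1 1
  have h4 := congrFun h1 2
  have e1 : (1 : Fin 3) + 1 = 2 := rfl
  have e2 : (1 : Fin 3) + 2 = 0 := rfl
  have e3 : (2 : Fin 3) + 1 = 0 := rfl
  have e4 : (2 : Fin 3) + 2 = 1 := rfl
  have hp := roots_prod h
  rw [Fin.prod_univ_three] at hp
  simp only [Fin.prod_univ_three, zero_add, e1, e2, e3, e4, Pi.zero_apply] at h2 h3 h4
  have hx := xi_inj h w
  have hθ : ∀ i, 1 - θ i ≠ 0 := by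
    intro i hi
    have h5 := h.root i
    rw [← sub_eq_zero.1 hi] at h5
    norm_num at h5
  have q0 := hθ 0
  have q1 := hθ 1
  have q2 := hθ 2
  have hP : xi (θ 0) w * xi (θ 1) w * xi (θ 2) w = 0 := by
    generalize xi (θ 0) w = x at *
    generalize xi (θ 1) w = y at *
    generalize xi (θ 2) w = z at *
    generalize 1 - θ 0 = a at *
    generalize 1 - θ 1 = b at *
    generalize 1 - θ 2 = c at *
    have p1 : 12 * a ^ 2 * x ^ 6 = -11 * (x * y * z) ^ 2 := by
      linear_combination x / 2 * h2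
    have p2 : 12 * b ^ 2 * y ^ 6 = -11 * (x * y * z) ^ 2 := by
      linear_combination y / 2 * h3
    have p3 : 12 * c ^ 2 * z ^ 6 = -11 * (x * y * z) ^ 2 := by
      linear_combination z / 2 * h4
    have p4 : (12 * a ^ 2 * x ^ 6) * (12 * b ^ 2 * y ^ 6) * (12 * c ^ 2 * z ^ 6) =
        (-11 * (x * y * z) ^ 2) * (-11 * (x * y * z) ^ 2) * (-11 * (x * y * z) ^ 2) := by
      rw [p1, p2, p3]
    have p5 : 3059 * (x * y * z) ^ 6 = 0 := by
      linear_combination p4 - 1728 * (x * y * z) ^ 6 * (a * b * c - 1) * hp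
    exact pow_eq_zero_iff (by norm_num) |>.1 ((mul_eq_zero.1 p5).resolve_left (by norm_num))
  rw [hP] at h2 h3 h4
  apply hx
  have key : ∀ q x : K, q ≠ 0 → 6 * (2 * q) ^ 2 * x ^ 5 = 0 → x = 0 := by
    intro q x hq hx
    have : 6 * (2 * q) ^ 2 ≠ 0 := by
      have : (2 : K) ≠ 0 := two_ne_zero
      have : (6 : K) ≠ 0 := by norm_num
      positivity
    exact pow_eq_zero_iff (by norm_num) |>.1 ((mul_eq_zero.1 hx).resolve_left this)
  have z0 : xi (θ 0) w = 0 := key _ _ q0 (by linear_combination h2)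
  have z1 : xi (θ 1) w = 0 := key _ _ q1 (by linear_combination h3)
  have z2 : xi (θ 2) w = 0 := key _ _ q2 (by linear_combination h4)
  intro i
  fin_cases i
  · exact z0
  · exact z1
  · exact z2

/-- the plane curve `sextic = 0` is smooth -/
theorem smooth_sextic (k : Type) [Field k] [CharZero k] (v : Fin 3 → k) (hv : v ≠ 0) :
    ∃ i : Fin 3, eval v (pderiv i (sextic (fun j : Fin 3 => (X j : MvPolynomial (Fin 3) k)))) ≠ 0 := by
  by_contra hcon
  push Not at hcon
  have : CharZero (AlgebraicClosure k) := charZero_of_injective_algebraMap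
    (FaithfulSMul.algebraMap_injective k (AlgebraicClosure k))
  apply hv
  have h := smooth_aux (fun i => algebraMap k (AlgebraicClosure k) (v i)) (by
    intro j
    have h1 : sextic (fun j : Fin 3 => (X j : MvPolynomial (Fin 3) (AlgebraicClosure k))) =
        MvPolynomial.map (algebraMap k (AlgebraicClosure k))
          (sextic (fun j : Fin 3 => (X j : MvPolynomial (Fin 3) k))) := by
      rw [sextic_map]
      simp
    rw [h1, pderiv_map, eval_map]
    have h2 := eval₂_comp (algebraMap k (AlgebraicClosure k)) v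
      (pderiv j (sextic (fun j : Fin 3 => (X j : MvPolynomial (Fin 3) k))))
    rw [hcon j, map_zero] at h2
    exact h2.symm)
  funext i
  have h2 := congrFun h i
  refine (FaithfulSMul.algebraMap_injective k (AlgebraicClosure k)) ?_
  exact h2.trans (map_zero _).symm

end Pool.Agent.Work.MP_2dff99_ag
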