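import Pool.Agent.Work.MP_2dff99_ag.HomZ
import Pool.Agent.Work.MP_2dff99_ag.SxE

open MvPolynomial

namespace Pool.Agent.Work.MP_2dff99_ag

theorem sextic_map {R S : Type*} [CommRing R] [CommRing S] (f : R →+* S) (v : Fin 3 → R) :
    f (sextic v) = sextic (fun i => f (v i)) := by
  rw [sextic_expand, sextic_expand]
  simp only [map_add, map_sub, map_mul, map_pow, map_ofNat]

theorem sextic_smul {R : Type*} [CommRing R] (c : R) (v : Fin 3 → R) :
    sextic (fun i => c * v i) = c ^ 6 * sextic v := by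
  rw [sextic_expand, sextic_expand]
  ring

theorem eval_sextic_line {k : Type} [CommRing k] (P Q : Fin 3 → k) (s t : k) :
    eval ![s, t] (sextic (lineVec P Q)) = sextic (fun i => s * P i + t * Q i) := by
  rw [sextic_map]
  congr 1
  funext i
  simp [lineVec]
  ring

theorem map_sextic_line {k K : Type} [CommRing k] [CommRing K] (f : k →+* K) (P Q : Fin 3 → k) :
    MvPolynomial.map f (sextic (lineVec P Q)) =
      sextic (lineVec (fun i => f (P i)) (fun i => f (Q i))) := by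
  rw [sextic_map]
  congr 1
  funext i
  simp [lineVec]

theorem homZ_mulE {k : Type} [CommRing k] {p q : R2 k} {a b n : ℤ} (hp : HomZ p a)
    (hq : HomZ q b) (h : a + b = n) : HomZ (p * q) n := by
  rw [← h]
  exact homZ_mul hp hq

theorem homC_ofNat {k : Type} [CommRing k] (n : ℕ) [n.AtLeastTwo] :
    (OfNat.ofNat n : R2 k).IsHomogeneous 0 := by
  rw [← map_ofNat (C : k →+* R2 k) n]
  exact isHomogeneous_C _ _

theorem homZ_line {k : Type} [CommRing k] (P Q : Fin 3 → k) (i : Fin 3) :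
    HomZ (lineVec P Q i) 1 := by
  unfold lineVec
  exact homZ_add (homZ_mulE (homZ_C _) (homZ_X _) (by norm_num))
    (homZ_mulE (homZ_C _) (homZ_X _) (by norm_num))

theorem homZ_sextic_line {k : Type} [CommRing k] (P Q : Fin 3 → k) :
    HomZ (sextic (lineVec P Q)) 6 := by
  have hv : ∀ i, (lineVec P Q i).IsHomogeneous 1 := fun i =>
    (homZ_iff _ 1).1 (homZ_line P Q i)
  refine (homZ_iff _ 6).2 ?_
  rw [sextic_expand]
  generalize lineVec P Q = v at hv ⊢
  have hc : ∀ (n : ℕ) [n.AtLeastTwo], (OfNat.ofNat n : R2 k).IsHomogeneous 0 :=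
    fun n _ => homC_ofNat n
  have m0 : (47 * v 0 ^ 6 : R2 k).IsHomogeneous 6 := ((hc 47).mul ((hv 0).pow 6))
  have m1 : (360 * v 0 ^ 5 * v 1 : R2 k).IsHomogeneous 6 := (((hc 360).mul ((hv 0).pow 5)).mul (hv 1))
  have m2 : (852 * v 0 ^ 5 * v 2 : R2 k).IsHomogeneous 6 := (((hc 852).mul ((hv 0).pow 5)).mul (hv 2))
  have m3 : (1734 * v 0 ^ 4 * v 1 ^ 2 : R2 k).IsHomogeneous 6 := (((hc 1734).mul ((hv 0).pow 4)).mul ((hv 1).pow 2))
  have m4 : (6414 * v 0 ^ 4 * v 1 * v 2 : R2 k).IsHomogeneous 6 := ((((hc 6414).mul ((hv 0).pow 4)).mul (hv 1)).mul (hv 2))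
  have m5 : (6894 * v 0 ^ 4 * v 2 ^ 2 : R2 k).IsHomogeneous 6 := (((hc 6894).mul ((hv 0).pow 4)).mul ((hv 2).pow 2))
  have m6 : (4342 * v 0 ^ 3 * v 1 ^ 3 : R2 k).IsHomogeneous 6 := (((hc 4342).mul ((hv 0).pow 3)).mul ((hv 1).pow 3))
  have m7 : (24804 * v 0 ^ 3 * v 1 ^ 2 * v 2 : R2 k).IsHomogeneous 6 := ((((hc 24804).mul ((hv 0).pow 3)).mul ((hv 1).pow 2)).mul (hv 2))
  have m8 : (45618 * v 0 ^ 3 * v 1 * v 2 ^ 2 : R2 k).IsHomogeneous 6 := ((((hc 45618).mul ((hv 0).pow 3)).mul (hv 1)).mul ((hv 2).pow 2))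
  have m9 : (30730 * v 0 ^ 3 * v 2 ^ 3 : R2 k).IsHomogeneous 6 := (((hc 30730).mul ((hv 0).pow 3)).mul ((hv 2).pow 3))
  have m10 : (6399 * v 0 ^ 2 * v 1 ^ 4 : R2 k).IsHomogeneous 6 := (((hc 6399).mul ((hv 0).pow 2)).mul ((hv 1).pow 4))
  have m11 : (46410 * v 0 ^ 2 * v 1 ^ 3 * v 2 : R2 k).IsHomogeneous 6 := ((((hc 46410).mul ((hv 0).pow 2)).mul ((hv 1).pow 3)).mul (hv 2))
  have m12 : (132345 * v 0 ^ 2 * v 1 ^ 2 * v 2 ^ 2 : R2 k).IsHomogeneous 6 := ((((hc 132345).mul ((hv 0).pow 2)).mul ((hv 1).pow 2)).mul ((hv 2).pow 2))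
  have m13 : (162450 * v 0 ^ 2 * v 1 * v 2 ^ 3 : R2 k).IsHomogeneous 6 := ((((hc 162450).mul ((hv 0).pow 2)).mul (hv 1)).mul ((hv 2).pow 3))
  have m14 : (78963 * v 0 ^ 2 * v 2 ^ 4 : R2 k).IsHomogeneous 6 := (((hc 78963).mul ((hv 0).pow 2)).mul ((hv 2).pow 4))
  have m15 : (4542 * v 0 * v 1 ^ 5 : R2 k).IsHomogeneous 6 := (((hc 4542).mul (hv 0)).mul ((hv 1).pow 5))
  have m16 : (44214 * v 0 * v 1 ^ 4 * v 2 : R2 k).IsHomogeneous 6 := ((((hc 44214).mul (hv 0)).mul ((hv 1).pow 4)).mul (hv 2))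
  have m17 : (163836 * v 0 * v 1 ^ 3 * v 2 ^ 2 : R2 k).IsHomogeneous 6 := ((((hc 163836).mul (hv 0)).mul ((hv 1).pow 3)).mul ((hv 2).pow 2))
  have m18 : (311892 * v 0 * v 1 ^ 2 * v 2 ^ 3 : R2 k).IsHomogeneous 6 := ((((hc 311892).mul (hv 0)).mul ((hv 1).pow 2)).mul ((hv 2).pow 3))
  have m19 : (288780 * v 0 * v 1 * v 2 ^ 4 : R2 k).IsHomogeneous 6 := ((((hc 288780).mul (hv 0)).mul (hv 1)).mul ((hv 2).pow 4))
  have m20 : (110070 * v 0 * v 2 ^ 5 : R2 k).IsHomogeneous 6 := (((hc 110070).mul (hv 0)).mul ((hv 2).pow 5))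
  have m21 : (1487 * v 1 ^ 6 : R2 k).IsHomogeneous 6 := ((hc 1487).mul ((hv 1).pow 6))
  have m22 : (16344 * v 1 ^ 5 * v 2 : R2 k).IsHomogeneous 6 := (((hc 16344).mul ((hv 1).pow 5)).mul (hv 2))
  have m23 : (77874 * v 1 ^ 4 * v 2 ^ 2 : R2 k).IsHomogeneous 6 := (((hc 77874).mul ((hv 1).pow 4)).mul ((hv 2).pow 2))
  have m24 : (192982 * v 1 ^ 3 * v 2 ^ 3 : R2 k).IsHomogeneous 6 := (((hc 192982).mul ((hv 1).pow 3)).mul ((hv 2).pow 3))
  have m25 : (274779 * v 1 ^ 2 * v 2 ^ 4 : R2 k).IsHomogeneous 6 := (((hc 274779).mul ((hv 1).pow 2)).mul ((hv 2).pow 4))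
  have m26 : (204774 * v 1 * v 2 ^ 5 : R2 k).IsHomogeneous 6 := (((hc 204774).mul (hv 1)).mul ((hv 2).pow 5))
  have m27 : (64595 * v 2 ^ 6 : R2 k).IsHomogeneous 6 := ((hc 64595).mul ((hv 2).pow 6))
  exact (((((((((((((((((((((((((((m0.sub m1).add m2).add m3).sub m4).add m5).sub m6).add m7).sub m8).add m9).add m10).sub m11).add m12).sub m13).add m14).sub m15).add m16).sub m17).add m18).sub m19).add m20).add m21).sub m22).add m23).sub m24).add m25).sub m26).add m27)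

/-- the linear form `v 0 + θ v 1 + θ ^ 2 v 2` -/
def xi {F : Type*} [CommRing F] (θ : F) (v : Fin 3 → F) : F := v 0 + θ * v 1 + θ ^ 2 * v 2

/-- `θ 0, θ 1, θ 2` are the three different roots of `X ^ 3 - 3 X + 1` -/
structure Roots {F : Type*} [Field F] (θ : Fin 3 → F) : Prop where
  root : ∀ i, θ i ^ 3 = 3 * θ i - 1
  inj : Function.Injective θ

theorem roots_sum {F : Type*} [Field F] {θ : Fin 3 → F} (h : Roots θ) :
    θ 0 + θ 1 + θ 2 = 0 ∧ θ 0 * θ 1 + θ 0 * θ 2 + θ 1 * θ 2 = -3 ∧ θ 0 * θ 1 * θ 2 = -1 := by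
  have h0 := h.root 0
  have h1 := h.root 1
  have h2 := h.root 2
  have n01 : θ 0 - θ 1 ≠ 0 := sub_ne_zero.2 (h.inj.ne (by decide))
  have n02 : θ 0 - θ 2 ≠ 0 := sub_ne_zero.2 (h.inj.ne (by decide))
  have n12 : θ 1 - θ 2 ≠ 0 := sub_ne_zero.2 (h.inj.ne (by decide))
  generalize θ 0 = a at *
  generalize θ 1 = b at *
  generalize θ 2 = c at *
  have e1 : a ^ 2 + a * b + b ^ 2 = 3 := by
    apply mul_left_cancel₀ n01
    linear_combination h0 - h1
  have e2 : a ^ 2 + a * c + c ^ 2 = 3 := by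
    apply mul_left_cancel₀ n02
    linear_combination h0 - h2
  have e3 : a + b + c = 0 := by
    apply mul_left_cancel₀ n12
    linear_combination e1 - e2
  have e4 : c = -a - b := by linear_combination e3
  refine ⟨e3, ?_, ?_⟩
  · rw [e4]
    linear_combination -e1
  · rw [e4]
    linear_combination h0 - a * e1

theorem roots_prod {F : Type*} [Field F] {θ : Fin 3 → F} (h : Roots θ) :
    ∏ i, (1 - θ i) = -1 := by
  obtain ⟨h1, h2, h3⟩ := roots_sum h
  rw [Fin.prod_univ_three]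
  linear_combination -h1 + h2 - h3

theorem roots_of_root {F : Type*} [Field F] (h3 : (3 : F) ≠ 0) (a : F) (ha : a ^ 3 = 3 * a - 1) :
    Roots ![a, a ^ 2 - 2, 2 - a - a ^ 2] := by
  have n1 : a ≠ a ^ 2 - 2 := by
    intro h
    apply h3
    linear_combination ha + (a + 1) * h
  have n2 : a ≠ 2 - a - a ^ 2 := by
    intro h
    have h4 : 3 * (a - 1) = 0 := by linear_combination ha - (a - 2) * h
    have h5 : a = 1 := sub_eq_zero.1 ((mul_eq_zero.1 h4).resolve_left h3)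
    rw [h5] at ha
    have h6 : (1 : F) = 0 := by linear_combination -ha
    exact one_ne_zero h6
  have n3 : a ^ 2 - 2 ≠ 2 - a - a ^ 2 := by
    intro h
    have h4 : a ^ 2 + 2 * a - 2 = 0 := by linear_combination a * h - 2 * ha
    have h5 : 3 * a = 0 := by linear_combination 2 * h4 - h
    have h6 : a = 0 := (mul_eq_zero.1 h5).resolve_left h3
    rw [h6] at ha
    have h7 : (1 : F) = 0 := by linear_combination ha
    exact one_ne_zero h7
  constructor
  · intro i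
    fin_cases i
    · exact ha
    · change (a ^ 2 - 2) ^ 3 = 3 * (a ^ 2 - 2) - 1
      linear_combination (a ^ 3 - 3 * a - 1) * ha
    · change (2 - a - a ^ 2) ^ 3 = 3 * (2 - a - a ^ 2) - 1
      linear_combination (-a ^ 3 - 3 * a ^ 2 + 3) * ha
  · intro i j hij
    fin_cases i <;> fin_cases j
    · rfl
    · exact absurd hij n1
    · exact absurd hij n2
    · exact absurd hij.symm n1
    · rfl
    · exact absurd hij n3
    · exact absurd hij.symm n2
    · exact absurd hij.symm n3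
    · rfl

theorem roots_exist (F : Type*) [Field F] [IsAlgClosed F] (h3 : (3 : F) ≠ 0) :
    ∃ θ : Fin 3 → F, Roots θ := by
  have hd : (Polynomial.X ^ 3 - Polynomial.C 3 * Polynomial.X + Polynomial.C 1 :
      Polynomial F).degree = 3 := by
    compute_degree!
  obtain ⟨a, ha⟩ := IsAlgClosed.exists_root (Polynomial.X ^ 3 -
    Polynomial.C 3 * Polynomial.X + Polynomial.C 1 : Polynomial F) (by rw [hd]; decide)
  rw [Polynomial.IsRoot.def] at ha
  simp only [Polynomial.eval_add, Polynomial.eval_sub, Polynomial.eval_mul, Polynomial.eval_pow,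
    Polynomial.eval_X, Polynomial.eval_C] at ha
  exact ⟨_, roots_of_root h3 a (by linear_combination ha)⟩

theorem roots_real : ∃ θ : Fin 3 → ℝ, Roots θ := by
  have hc : ContinuousOn (fun x : ℝ => x ^ 3 - 3 * x + 1) (Set.Icc 0 1) := by fun_prop
  have h1 := intermediate_value_Icc' (zero_le_one) hc
  obtain ⟨a, -, ha⟩ := h1 (show (0 : ℝ) ∈ Set.Icc _ _ by constructor <;> norm_num)
  simp only at ha
  exact ⟨_, roots_of_root (by norm_num) a (by linear_combination ha)⟩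

theorem vand_mul {F : Type*} [Field F] {θ : Fin 3 → F} (h : Roots θ) (v : Fin 3 → F) :
    Matrix.vandermonde θ * mulMat v =
      Matrix.diagonal (fun i => xi (θ i) v) * Matrix.vandermonde θ := by
  ext i j
  have hr := h.root i
  rw [Matrix.diagonal_mul, Matrix.mul_apply, Fin.sum_univ_three]
  generalize ht : θ i = t at hr
  fin_cases j
  · simp [Matrix.vandermonde_apply, mulMat, xi, ht]
  · simp [Matrix.vandermonde_apply, mulMat, xi, ht]
    linear_combination -v 2 * hr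
  · simp [Matrix.vandermonde_apply, mulMat, xi, ht]
    linear_combination (-v 1 - t * v 2) * hr

theorem vand_det {F : Type*} [Field F] {θ : Fin 3 → F} (h : Roots θ) :
    (Matrix.vandermonde θ).det ≠ 0 := Matrix.det_vandermonde_ne_zero_iff.2 h.inj

theorem vand_pow {F : Type*} [Field F] {θ : Fin 3 → F} (h : Roots θ) (v : Fin 3 → F) (n : ℕ) :
    Matrix.vandermonde θ * mulMat v ^ n =
      Matrix.diagonal (fun i => xi (θ i) v) ^ n * Matrix.vandermonde θ := by
  induction n with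
  | zero => simp
  | succ n ih =>
    rw [pow_succ, ← mul_assoc, ih, mul_assoc, vand_mul h, ← mul_assoc, ← pow_succ]

/-- the sextic in diagonal coordinates -/
theorem sextic_diag {F : Type*} [Field F] {θ : Fin 3 → F} (h : Roots θ) (v : Fin 3 → F) :
    sextic v = ∑ i, (2 * (1 - θ i)) ^ 2 * xi (θ i) v ^ 6 + 11 * (∏ i, xi (θ i) v) ^ 2 := by
  have hV : IsUnit (Matrix.vandermonde θ).det := isUnit_iff_ne_zero.2 (vand_det h)
  have h1 : Matrix.vandermonde θ * (mulMat ![1, -1, 0] ^ 2 * mulMat v ^ 6) =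
      Matrix.diagonal (fun i => (1 - θ i) ^ 2 * xi (θ i) v ^ 6) * Matrix.vandermonde θ := by
    rw [← mul_assoc, vand_pow h, mul_assoc, vand_pow h, ← mul_assoc, Matrix.diagonal_pow,
      Matrix.diagonal_pow, Matrix.diagonal_mul_diagonal]
    congr 2
    funext i
    simp [xi, sub_eq_add_neg]
  have h2 : (mulMat ![1, -1, 0] ^ 2 * mulMat v ^ 6 : Matrix (Fin 3) (Fin 3) F).trace =
      ∑ i, (1 - θ i) ^ 2 * xi (θ i) v ^ 6 := by
    have h3 : (mulMat ![1, -1, 0] ^ 2 * mulMat v ^ 6 : Matrix (Fin 3) (Fin 3) F) =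
        (Matrix.vandermonde θ)⁻¹ *
        (Matrix.diagonal (fun i => (1 - θ i) ^ 2 * xi (θ i) v ^ 6) * Matrix.vandermonde θ) := by
      rw [← h1, ← mul_assoc, Matrix.nonsing_inv_mul _ hV, one_mul]
    rw [h3, Matrix.trace_mul_comm, mul_assoc, Matrix.mul_nonsing_inv _ hV, mul_one,
      Matrix.trace_diagonal]
  have h4 : (mulMat v).det = ∏ i, xi (θ i) v := by
    have h5 := congrArg Matrix.det (vand_mul h v)
    rw [Matrix.det_mul, Matrix.det_mul, Matrix.det_diagonal, mul_comm] at h5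
    exact mul_right_cancel₀ (vand_det h) h5
  unfold sextic
  rw [h2, h4, Finset.mul_sum]
  congr 1
  refine Finset.sum_congr rfl fun i _ => ?_
  ring

theorem vand_vec {F : Type*} [Field F] (θ : Fin 3 → F) (v : Fin 3 → F) (i : Fin 3) :
    (Matrix.vandermonde θ).mulVec v i = xi (θ i) v := by
  simp [Matrix.mulVec, dotProduct, Fin.sum_univ_three, Matrix.vandermonde_apply, xi]

theorem xi_inj {F : Type*} [Field F] {θ : Fin 3 → F} (h : Roots θ) (v : Fin 3 → F)
    (hv : ∀ i, xi (θ i) v = 0) : v = 0 := by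
  apply Matrix.eq_zero_of_mulVec_eq_zero (vand_det h)
  funext i
  rw [vand_vec, hv]
  rfl

theorem xi_surj {F : Type*} [Field F] {θ : Fin 3 → F} (h : Roots θ) (y : Fin 3 → F) :
    ∃ v : Fin 3 → F, ∀ i, xi (θ i) v = y i := by
  have hV : IsUnit (Matrix.vandermonde θ).det := isUnit_iff_ne_zero.2 (vand_det h)
  refine ⟨(Matrix.vandermonde θ)⁻¹.mulVec y, fun i => ?_⟩
  rw [← vand_vec, Matrix.mulVec_mulVec, Matrix.mul_nonsing_inv _ hV, Matrix.one_mulVec]

theorem sextic_pos (v : Fin 3 → ℝ) (hv : v ≠ 0) : 0 < sextic v := by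
  obtain ⟨θ, h⟩ := roots_real
  rw [sextic_diag h]
  have h1 : ∃ i, xi (θ i) v ≠ 0 := by
    by_contra hcon
    push Not at hcon
    exact hv (xi_inj h v hcon)
  obtain ⟨i, hi⟩ := h1
  have h2 : θ i ≠ 1 := by
    intro h3
    have := h.root i
    rw [h3] at this
    norm_num at this
  have h3 : 0 < ∑ i, (2 * (1 - θ i)) ^ 2 * xi (θ i) v ^ 6 := by
    apply Finset.sum_pos'
    · intro j _
      positivity
    · refine ⟨i, Finset.mem_univ _, ?_⟩
      have h4 : 2 * (1 - θ i) ≠ 0 := mul_ne_zero two_ne_zero (sub_ne_zero.2 (Ne.symm h2))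
      positivity
  positivity

end Pool.Agent.Work.MP_2dff99_ag
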