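import Pool.Agent.Work.MP_2dff99_ag.NT

open MvPolynomial

namespace Pool.Agent.Work.MP_2dff99_ag

namespace Val

section hensel
variable {p : ℕ} [Fact p.Prime]

theorem norm_lt_of_toZMod {x : ℤ_[p]} (h : PadicInt.toZMod x = 0) : ‖x‖ < 1 := by
  have h1 : x ∈ RingHom.ker (PadicInt.toZMod : ℤ_[p] →+* ZMod p) := h
  rw [PadicInt.ker_toZMod, PadicInt.maximalIdeal_eq_span_p, Ideal.mem_span_singleton] at h1
  rw [PadicInt.norm_lt_one_iff_dvd]
  exact h1

theorem norm_eq_of_toZMod {x : ℤ_[p]} (h : PadicInt.toZMod x ≠ 0) : ‖x‖ = 1 := by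
  by_contra hne
  have h1 : ‖x‖ < 1 := lt_of_le_of_ne (PadicInt.norm_le_one x) hne
  rw [PadicInt.norm_lt_one_iff_dvd] at h1
  apply h
  obtain ⟨y, rfl⟩ := h1
  simp

theorem lift_exists (a : ZMod p) : ∃ x : ℤ_[p], PadicInt.toZMod x = a := by
  refine ⟨((a.val : ℕ) : ℤ_[p]), ?_⟩
  rw [map_natCast, ZMod.natCast_zmod_val]

theorem two_ne (h2 : p ≠ 2) : (2 : ZMod p) ≠ 0 := by
  intro h
  have h3 : ((2 : ℕ) : ZMod p) = 0 := by exact_mod_cast h
  rw [ZMod.natCast_eq_zero_iff] at h3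
  exact h2 ((Nat.prime_dvd_prime_iff_eq Fact.out Nat.prime_two).mp h3)

/-- Hensel for square roots -/
theorem sq_of_mod (h2 : p ≠ 2) (u : ℤ_[p]) (a : ZMod p) (ha : a ≠ 0)
    (h : PadicInt.toZMod u = a ^ 2) : ∃ r : ℤ_[p], r ^ 2 = u := by
  obtain ⟨x, hx⟩ := lift_exists a
  have hF : ‖(Polynomial.X ^ 2 - Polynomial.C u : Polynomial ℤ_[p]).aeval x‖ <
      ‖(Polynomial.X ^ 2 - Polynomial.C u : Polynomial ℤ_[p]).derivative.aeval x‖ ^ 2 := by
    have e1 : (Polynomial.X ^ 2 - Polynomial.C u : Polynomial ℤ_[p]).aeval x = x ^ 2 - u := by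
      simp
    have e2 : (Polynomial.X ^ 2 - Polynomial.C u : Polynomial ℤ_[p]).derivative.aeval x =
        2 * x := by
      simp [one_add_one_eq_two]
    rw [e1, e2]
    have e3 : ‖x ^ 2 - u‖ < 1 := by
      apply norm_lt_of_toZMod
      rw [map_sub, map_pow, hx, h, sub_self]
    have e4 : ‖2 * x‖ = 1 := by
      apply norm_eq_of_toZMod
      rw [map_mul, hx]
      have : PadicInt.toZMod (2 : ℤ_[p]) = (2 : ZMod p) := by
        exact_mod_cast map_natCast (PadicInt.toZMod : ℤ_[p] →+* ZMod p) 2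
      rw [this]
      exact mul_ne_zero (two_ne h2) ha
    rw [e4, one_pow]
    exact e3
  obtain ⟨z, hz, _⟩ := hensels_lemma hF
  refine ⟨z, ?_⟩
  have : z ^ 2 - u = 0 := by simpa using hz
  linear_combination this

theorem sq_one_sub (h2 : p ≠ 2) (e : ℚ_[p]) (he : ‖e‖ < 1) : ∃ r : ℚ_[p], r ^ 2 = 1 - e := by
  set e' : ℤ_[p] := ⟨e, he.le⟩ with he'
  have h0 : PadicInt.toZMod e' = 0 := by
    have h1 : e' ∈ RingHom.ker (PadicInt.toZMod : ℤ_[p] →+* ZMod p) := by
      rw [PadicInt.ker_toZMod, PadicInt.maximalIdeal_eq_span_p, Ideal.mem_span_singleton,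
        ← PadicInt.norm_lt_one_iff_dvd]
      exact he
    exact h1
  obtain ⟨r, hr⟩ := sq_of_mod h2 (1 - e') 1 one_ne_zero (by
    rw [map_sub, map_one, h0]
    ring)
  refine ⟨r, ?_⟩
  have := congrArg (fun x : ℤ_[p] => (x : ℚ_[p])) hr
  simpa using this

end hensel

section bil
variable {K : Type*} [Field K]

theorem bil_symm (β : Matrix (Fin 4) (Fin 4) K) (hs : β.IsSymm) (c d : Fin 4 → K) :
    dotProduct c (β.mulVec d) = dotProduct d (β.mulVec c) := by
  rw [Matrix.dotProduct_mulVec, ← Matrix.mulVec_transpose, hs.eq, dotProduct_comm]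

theorem bil_quad (β : Matrix (Fin 4) (Fin 4) K) (hs : β.IsSymm) (c d : Fin 4 → K) (x y : K) :
    dotProduct (x • c + y • d) (β.mulVec (x • c + y • d)) =
      x ^ 2 * dotProduct c (β.mulVec c) + 2 * x * y * dotProduct c (β.mulVec d) +
        y ^ 2 * dotProduct d (β.mulVec d) := by
  rw [Matrix.mulVec_add, Matrix.mulVec_smul, Matrix.mulVec_smul]
  simp only [add_dotProduct, dotProduct_add, smul_dotProduct, dotProduct_smul, smul_eq_mul]
  rw [bil_symm β hs d c]
  ring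

end bil

theorem bound {p : ℕ} [Fact p.Prime] (h2 : p ≠ 2) (β : Matrix (Fin 4) (Fin 4) ℚ_[p])
    (hs : β.IsSymm)
    (hstar : ∀ (c : Fin 4 → ℚ_[p]) (r : ℚ_[p]), dotProduct c (β.mulVec c) = r ^ 2 →
      β.mulVec c = 0) (c d : Fin 4 → ℚ_[p]) :
    ‖dotProduct c (β.mulVec d)‖ ^ 2 ≤
      ‖dotProduct c (β.mulVec c)‖ * ‖dotProduct d (β.mulVec d)‖ := by
  by_contra hcon
  push Not at hcon
  set B := dotProduct c (β.mulVec d) with hB
  set qc := dotProduct c (β.mulVec c) with hqc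
  set qd := dotProduct d (β.mulVec d) with hqd
  have hBpos : 0 < ‖B‖ ^ 2 := lt_of_le_of_lt (by positivity) hcon
  have hB0 : B ≠ 0 := by
    intro h
    rw [h, norm_zero] at hBpos
    norm_num at hBpos
  have hqc0 : qc ≠ 0 := by
    intro h
    have h1 := hstar c 0 (by rw [← hqc, h]; ring)
    apply hB0
    rw [hB, bil_symm β hs, h1, dotProduct_zero]
  obtain ⟨r, hr⟩ := sq_one_sub h2 (qc * qd / B ^ 2) (by
    rw [norm_div, norm_mul, norm_pow, div_lt_one hBpos]
    exact hcon)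
  set δ := B * r with hδ
  have hδ2 : δ ^ 2 = B ^ 2 - qc * qd := by
    rw [hδ, mul_pow, hr]
    field_simp
  have hzero : dotProduct ((-B + δ) • c + qc • d) (β.mulVec ((-B + δ) • c + qc • d)) = 0 ^ 2 := by
    rw [bil_quad β hs, ← hqc, ← hqd, ← hB]
    linear_combination qc * hδ2
  have h1 := hstar _ 0 hzero
  have h3 : dotProduct c (β.mulVec ((-B + δ) • c + qc • d)) = 0 := by
    rw [h1, dotProduct_zero]
  rw [Matrix.mulVec_add, Matrix.mulVec_smul, Matrix.mulVec_smul, dotProduct_add, dotProduct_smul,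
    dotProduct_smul, smul_eq_mul, smul_eq_mul, ← hqc, ← hB] at h3
  have h4 : qc * δ = 0 := by linear_combination h3
  have h5 : δ = 0 := (mul_eq_zero.mp h4).resolve_left hqc0
  rw [h5] at hδ2
  have h6 : ‖B‖ ^ 2 = ‖qc‖ * ‖qd‖ := by
    rw [← norm_pow, ← norm_mul]
    congr 1
    linear_combination -hδ2
  rw [h6] at hcon
  exact lt_irrefl _ hcon

/-- a quadratic form over a finite field without nonzero square values has rank at most one -/
theorem rank_one {p : ℕ} [Fact p.Prime] (h2 : p ≠ 2) (β : Matrix (Fin 4) (Fin 4) (ZMod p))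
    (hs : β.IsSymm)
    (hns : ∀ (c : Fin 4 → ZMod p) (r : ZMod p), r ≠ 0 → dotProduct c (β.mulVec c) ≠ r ^ 2) :
    ∃ (κ : ZMod p) (w : Fin 4 → ZMod p), ∀ i j, β i j = κ * (w i * w j) := by
  have h2' := two_ne h2
  by_cases hz : ∀ c, dotProduct c (β.mulVec c) = 0
  · refine ⟨0, 0, fun i j => ?_⟩
    have e1 := bil_quad β hs (Pi.single i 1) (Pi.single j 1) 1 1
    rw [hz, hz, hz] at e1
    have e2 : dotProduct (Pi.single i 1) (β.mulVec (Pi.single j 1)) = β i j := by
      simp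
    rw [e2] at e1
    have : 2 * β i j = 0 := by linear_combination -e1
    rw [(mul_eq_zero.mp this).resolve_left h2']
    simp
  · push Not at hz
    obtain ⟨u, hu⟩ := hz
    set k := dotProduct u (β.mulVec u) with hk
    have key : ∀ c, k * dotProduct c (β.mulVec c) = (dotProduct u (β.mulVec c)) ^ 2 := by
      intro c
      by_contra hne
      set B := dotProduct u (β.mulVec c) with hB
      set qc := dotProduct c (β.mulVec c) with hqc
      set D := B ^ 2 - k * qc with hD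
      have hD0 : D ≠ 0 := by
        intro h
        apply hne
        linear_combination -h
      obtain ⟨X, Y, hXY⟩ := FiniteField.exists_root_sum_quadratic
        (f := (Polynomial.X ^ 2 - Polynomial.C k : Polynomial (ZMod p)))
        (g := (Polynomial.C (-D) * Polynomial.X ^ 2 : Polynomial (ZMod p)))
        (Polynomial.degree_X_pow_sub_C (by norm_num) k)
        (Polynomial.degree_C_mul_X_pow 2 (neg_ne_zero.mpr hD0))
        (by
          rw [ZMod.card]
          exact Nat.odd_iff.mp ((Fact.out : p.Prime).odd_of_ne_two h2))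
      have hXY' : X ^ 2 - D * Y ^ 2 = k := by
        have : X ^ 2 - k + -D * Y ^ 2 = 0 := by simpa using hXY
        linear_combination this
      apply hns (((X - B * Y) / k) • u + Y • c) 1 one_ne_zero
      rw [bil_quad β hs, ← hk, ← hB, ← hqc]
      have : k * (((X - B * Y) / k) ^ 2 * k + 2 * ((X - B * Y) / k) * Y * B + Y ^ 2 * qc) =
          k * 1 ^ 2 := by
        have e1 : k * ((X - B * Y) / k) = X - B * Y := mul_div_cancel₀ _ hu
        have e2 : k * (((X - B * Y) / k) ^ 2 * k + 2 * ((X - B * Y) / k) * Y * B + Y ^ 2 * qc) =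
            (k * ((X - B * Y) / k)) ^ 2 + 2 * (k * ((X - B * Y) / k)) * Y * B + k * Y ^ 2 * qc := by
          ring
        rw [e2, e1]
        linear_combination hXY' + Y ^ 2 * hD
      exact mul_left_cancel₀ hu this
    refine ⟨k⁻¹, β.mulVec u, fun i j => ?_⟩
    have e1 := key (Pi.single i 1)
    have e2 := key (Pi.single j 1)
    have e3 := key ((1 : ZMod p) • Pi.single i 1 + (1 : ZMod p) • Pi.single j 1)
    rw [bil_quad β hs, Matrix.mulVec_add, Matrix.mulVec_smul, Matrix.mulVec_smul, dotProduct_add,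
      dotProduct_smul, dotProduct_smul] at e3
    have s1 : ∀ n, dotProduct u (β.mulVec (Pi.single n 1)) = β.mulVec u n := by
      intro n
      rw [bil_symm β hs]
      simp
    have s2 : dotProduct (Pi.single i 1) (β.mulVec (Pi.single j 1)) = β i j := by
      simp
    rw [s1] at e1 e2
    rw [s1, s1, s2] at e3
    simp only [smul_eq_mul, one_mul, one_pow, mul_one] at e3
    have e4 : 2 * (k * β i j - β.mulVec u i * β.mulVec u j) = 0 := by
      linear_combination e3 - e1 - e2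
    have e5 := (mul_eq_zero.mp e4).resolve_left h2'
    have e6 : k * β i j = β.mulVec u i * β.mulVec u j := by linear_combination e5
    rw [← e6, ← mul_assoc, inv_mul_cancel₀ hu, one_mul]

/-- the binary form `q (cub (X 0) (X 1))` for a form of rank one -/
theorem form_rank_one {k : Type} [CommRing k] (a : ℕ → k) (β : Matrix (Fin 4) (Fin 4) k)
    (h0 : β 0 0 = -a 0) (h1 : β 0 1 + β 1 0 = -a 1) (h2 : β 0 2 + β 1 1 + β 2 0 = -a 2)
    (h3 : β 0 3 + β 1 2 + β 2 1 + β 3 0 = -a 3) (h4 : β 1 3 + β 2 2 + β 3 1 = -a 4)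
    (h5 : β 2 3 + β 3 2 = -a 5) (h6 : β 3 3 = -a 6) (κ : k) (w : Fin 4 → k)
    (hw : ∀ i j, β i j = κ * (w i * w j)) :
    form 6 a = C (-κ) * (C (w 0) * X 0 ^ 3 + C (w 1) * X 0 ^ 2 * X 1 + C (w 2) * X 0 * X 1 ^ 2 +
      C (w 3) * X 1 ^ 3) ^ 2 := by
  rw [hw] at h0 h6
  rw [hw, hw] at h1 h5
  rw [hw, hw, hw] at h2 h4
  rw [hw, hw, hw, hw] at h3
  have a0 : a 0 = -(κ * (w 0 * w 0)) := by linear_combination h0
  have a1 : a 1 = -(κ * (w 0 * w 1) + κ * (w 1 * w 0)) := by linear_combination h1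
  have a2 : a 2 = -(κ * (w 0 * w 2) + κ * (w 1 * w 1) + κ * (w 2 * w 0)) := by
    linear_combination h2
  have a3 : a 3 = -(κ * (w 0 * w 3) + κ * (w 1 * w 2) + κ * (w 2 * w 1) + κ * (w 3 * w 0)) := by
    linear_combination h3
  have a4 : a 4 = -(κ * (w 1 * w 3) + κ * (w 2 * w 2) + κ * (w 3 * w 1)) := by
    linear_combination h4
  have a5 : a 5 = -(κ * (w 2 * w 3) + κ * (w 3 * w 2)) := by linear_combination h5
  have a6 : a 6 = -(κ * (w 3 * w 3)) := by linear_combination h6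
  unfold form
  simp only [Finset.sum_range_succ, Finset.sum_range_zero]
  rw [a0, a1, a2, a3, a4, a5, a6]
  simp only [map_neg, map_add, map_mul]
  ring

theorem core {p : ℕ} [Fact p.Prime] (h2 : p ≠ 2) (h3 : p ≠ 3) (h7 : p ≠ 7)
    (h11 : p ≠ 11) (h31 : p ≠ 31) (h43 : p ≠ 43) (P Q : Fin 3 → ℤ_[p]) (i j : Fin 3)
    (hPi : P i = 1) (hQi : Q i = 0) (hQj : Q j = 1) (β : Matrix (Fin 4) (Fin 4) ℚ_[p])
    (hs : β.IsSymm)
    (hβ : ∀ s t : ℚ_[p], dotProduct (cub s t) (β.mulVec (cub s t)) =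
      - sextic (fun n => s * (P n : ℚ_[p]) + t * (Q n : ℚ_[p]))) :
    ∃ (c : Fin 4 → ℚ_[p]) (r : ℚ_[p]), dotProduct c (β.mulVec c) = r ^ 2 ∧ β.mulVec c ≠ 0 := by
  by_contra hcon
  push Not at hcon
  have hstar := hcon
  -- the coefficients of the sextic on the line
  obtain ⟨a, ha⟩ := exists_form (n := 6) (by exact_mod_cast homZ_sextic_line P Q)
  have hval : ∀ s t : ℚ_[p], sextic (fun n => s * (P n : ℚ_[p]) + t * (Q n : ℚ_[p])) =
      ∑ n ∈ Finset.range (6 + 1), (a n : ℚ_[p]) * s ^ (6 - n) * t ^ n := by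
    intro s t
    have e1 := congrArg (MvPolynomial.map (algebraMap ℤ_[p] ℚ_[p])) ha
    rw [map_sextic_line, map_form] at e1
    have e2 := congrArg (eval ![s, t]) e1
    rw [eval_sextic_line, eval_form] at e2
    exact e2
  obtain ⟨m6, m5, m4, m3, m2, m1, m0⟩ := NT.poly7 (K := ℚ_[p])
    (β 3 3 + a 6) (β 2 3 + β 3 2 + a 5) (β 1 3 + β 2 2 + β 3 1 + a 4)
    (β 0 3 + β 1 2 + β 2 1 + β 3 0 + a 3) (β 0 2 + β 1 1 + β 2 0 + a 2)
    (β 0 1 + β 1 0 + a 1) (β 0 0 + a 0) (by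
      intro x
      have e1 := hβ x 1
      rw [hval x 1] at e1
      simp only [Finset.sum_range_succ, Finset.sum_range_zero] at e1
      simp [cub, dotProduct, Matrix.mulVec, Fin.sum_univ_four] at e1
      linear_combination e1)
  have sym : ∀ m n, β m n = β n m := fun m n => by
    have := hs.apply m n
    exact this.symm
  have hb : ∀ m n, ‖β m n‖ ^ 2 ≤ ‖β m m‖ * ‖β n n‖ := by
    intro m n
    have := bound h2 β hs hstar (Pi.single m 1) (Pi.single n 1)
    simpa using this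
  have na : ∀ n, ‖(a n : ℚ_[p])‖ ≤ 1 := fun n => PadicInt.norm_le_one (a n)
  have n00 : ‖β 0 0‖ ≤ 1 := by
    have : β 0 0 = -(a 0 : ℚ_[p]) := by linear_combination m0
    rw [this, norm_neg]
    exact na 0
  have n33 : ‖β 3 3‖ ≤ 1 := by
    have : β 3 3 = -(a 6 : ℚ_[p]) := by linear_combination m6
    rw [this, norm_neg]
    exact na 6
  have hmax : ∀ x y z : ℚ_[p], x = -(y + z) → ‖x‖ ≤ max ‖y‖ ‖z‖ := by
    intro x y z h
    rw [h, norm_neg]
    exact Padic.nonarchimedean y z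
  have h2le : ‖(2 : ℚ_[p])‖ ≤ 1 := by
    have e : ((2 : ℤ_[p]) : ℚ_[p]) = 2 := rfl
    rw [← e]
    exact (2 : ℤ_[p]).2
  have n11 : ‖β 1 1‖ ≤ max 1 ‖β 0 2‖ := by
    have e1 : β 1 1 = -((a 2 : ℚ_[p]) + 2 * β 0 2) := by
      rw [sym 2 0] at m2
      linear_combination m2
    refine (hmax _ _ _ e1).trans ?_
    apply max_le_max (na 2)
    rw [norm_mul]
    calc ‖(2 : ℚ_[p])‖ * ‖β 0 2‖ ≤ 1 * ‖β 0 2‖ := mul_le_mul_of_nonneg_right h2le (norm_nonneg _)
      _ = _ := one_mul _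
  have n22 : ‖β 2 2‖ ≤ max 1 ‖β 1 3‖ := by
    have e1 : β 2 2 = -((a 4 : ℚ_[p]) + 2 * β 1 3) := by
      rw [sym 3 1] at m4
      linear_combination m4
    refine (hmax _ _ _ e1).trans ?_
    apply max_le_max (na 4)
    rw [norm_mul]
    calc ‖(2 : ℚ_[p])‖ * ‖β 1 3‖ ≤ 1 * ‖β 1 3‖ := mul_le_mul_of_nonneg_right h2le (norm_nonneg _)
      _ = _ := one_mul _
  have n02 : ‖β 0 2‖ ^ 2 ≤ ‖β 2 2‖ := by
    calc ‖β 0 2‖ ^ 2 ≤ ‖β 0 0‖ * ‖β 2 2‖ := hb 0 2
      _ ≤ 1 * ‖β 2 2‖ := mul_le_mul_of_nonneg_right n00 (norm_nonneg _)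
      _ = _ := one_mul _
  have n13 : ‖β 1 3‖ ^ 2 ≤ ‖β 1 1‖ := by
    calc ‖β 1 3‖ ^ 2 ≤ ‖β 1 1‖ * ‖β 3 3‖ := hb 1 3
      _ ≤ ‖β 1 1‖ * 1 := mul_le_mul_of_nonneg_left n33 (norm_nonneg _)
      _ = _ := mul_one _
  have hdiag : ‖β 1 1‖ ≤ 1 ∧ ‖β 2 2‖ ≤ 1 := by
    by_contra hc
    have hx0 : 0 ≤ ‖β 1 1‖ := norm_nonneg _
    have hy0 : 0 ≤ ‖β 2 2‖ := norm_nonneg _
    have hz0 : 0 ≤ ‖β 0 2‖ := norm_nonneg _
    have hw0 : 0 ≤ ‖β 1 3‖ := norm_nonneg _
    rcases le_max_iff.mp n11 with c1 | c1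
    · rcases le_max_iff.mp n22 with c2 | c2
      · exact hc ⟨c1, c2⟩
      · have : ‖β 2 2‖ ≤ 1 := by nlinarith
        exact hc ⟨c1, this⟩
    · rcases le_max_iff.mp n22 with c2 | c2
      · have : ‖β 1 1‖ ≤ 1 := by nlinarith
        exact hc ⟨this, c2⟩
      · -- x <= z, z^2 <= y, y <= w, w^2 <= x
        have hx : ‖β 1 1‖ ≤ 1 := by
          by_contra h1
          push Not at h1
          have g1 : ‖β 1 1‖ ^ 2 ≤ ‖β 2 2‖ := by nlinarith
          have g2 : ‖β 2 2‖ ^ 2 ≤ ‖β 1 1‖ := by nlinarith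
          have g3 : (‖β 1 1‖ ^ 2) ^ 2 ≤ ‖β 2 2‖ ^ 2 := pow_le_pow_left₀ (by positivity) g1 2
          nlinarith [mul_pos (sub_pos.mpr h1) (sub_pos.mpr h1), sq_nonneg (‖β 1 1‖ ^ 2)]
        have hy : ‖β 2 2‖ ≤ 1 := by nlinarith
        exact hc ⟨hx, hy⟩
  have hall : ∀ m n, ‖β m n‖ ≤ 1 := by
    have hd : ∀ m, ‖β m m‖ ≤ 1 := by
      intro m
      fin_cases m
      · exact n00
      · exact hdiag.1
      · exact hdiag.2
      · exact n33
    intro m n
    have e1 : ‖β m n‖ ^ 2 ≤ 1 := by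
      refine (hb m n).trans ?_
      calc ‖β m m‖ * ‖β n n‖ ≤ 1 * 1 := mul_le_mul (hd m) (hd n) (norm_nonneg _) zero_le_one
        _ = 1 := one_mul 1
    have e2 := norm_nonneg (β m n)
    nlinarith
  -- integral matrix and its reduction
  set β0 : Matrix (Fin 4) (Fin 4) ℤ_[p] := fun m n => ⟨β m n, hall m n⟩ with hβ0
  have hβ0c : ∀ m n, ((β0 m n : ℤ_[p]) : ℚ_[p]) = β m n := fun m n => rfl
  have hinj : Function.Injective (fun x : ℤ_[p] => (x : ℚ_[p])) := Subtype.val_injective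
  set βb : Matrix (Fin 4) (Fin 4) (ZMod p) := β0.map PadicInt.toZMod with hβb
  have hβbs : βb.IsSymm := by
    ext m n
    simp only [hβb, Matrix.transpose_apply, Matrix.map_apply]
    congr 1
    apply hinj
    exact sym n m
  have hns : ∀ (c : Fin 4 → ZMod p) (r : ZMod p), r ≠ 0 → dotProduct c (βb.mulVec c) ≠ r ^ 2 := by
    intro c r hr hc
    choose c0 hc0 using fun n => lift_exists (p := p) (c n)
    have e1 : PadicInt.toZMod (dotProduct c0 (β0.mulVec c0)) = r ^ 2 := by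
      rw [← hc]
      simp only [dotProduct, Matrix.mulVec, map_sum, map_mul, hc0, hβb, Matrix.map_apply]
    obtain ⟨z, hz⟩ := sq_of_mod h2 _ r hr e1
    have e2 : dotProduct (fun n => (c0 n : ℚ_[p])) (β.mulVec (fun n => (c0 n : ℚ_[p]))) =
        (z : ℚ_[p]) ^ 2 := by
      have := congrArg (fun x : ℤ_[p] => (x : ℚ_[p])) hz
      simp only [PadicInt.coe_pow] at this
      rw [this]
      simp only [dotProduct, Matrix.mulVec, PadicInt.coe_sum, PadicInt.coe_mul, hβ0c]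
    have e3 := hstar _ _ e2
    rw [e3, dotProduct_zero] at e2
    have e4 : (z : ℚ_[p]) = 0 := pow_eq_zero_iff two_ne_zero |>.mp e2.symm
    have e5 : z = 0 := hinj (by simpa using e4)
    rw [e5] at hz
    rw [← hz] at e1
    simp at e1
    exact hr (pow_eq_zero_iff two_ne_zero |>.mp e1.symm)
  obtain ⟨κ, w, hw⟩ := rank_one h2 βb hβbs hns
  -- relations in characteristic p
  have hred : ∀ (x y : ℤ_[p]), (x : ℚ_[p]) = y → PadicInt.toZMod x = PadicInt.toZMod y :=
    fun x y h => congrArg _ (hinj h)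
  have f0 : βb 0 0 = -PadicInt.toZMod (a 0) := by
    have := hred (β0 0 0) (-a 0) (by push_cast; rw [hβ0c]; linear_combination m0)
    simpa [hβb] using this
  have f1 : βb 0 1 + βb 1 0 = -PadicInt.toZMod (a 1) := by
    have := hred (β0 0 1 + β0 1 0) (-a 1) (by
      push_cast; rw [hβ0c, hβ0c]; linear_combination m1)
    simpa [hβb] using this
  have f2 : βb 0 2 + βb 1 1 + βb 2 0 = -PadicInt.toZMod (a 2) := by
    have := hred (β0 0 2 + β0 1 1 + β0 2 0) (-a 2) (by
      push_cast; rw [hβ0c, hβ0c, hβ0c]; linear_combination m2)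
    simpa [hβb] using this
  have f3 : βb 0 3 + βb 1 2 + βb 2 1 + βb 3 0 = -PadicInt.toZMod (a 3) := by
    have := hred (β0 0 3 + β0 1 2 + β0 2 1 + β0 3 0) (-a 3) (by
      push_cast; rw [hβ0c, hβ0c, hβ0c, hβ0c]; linear_combination m3)
    simpa [hβb] using this
  have f4 : βb 1 3 + βb 2 2 + βb 3 1 = -PadicInt.toZMod (a 4) := by
    have := hred (β0 1 3 + β0 2 2 + β0 3 1) (-a 4) (by
      push_cast; rw [hβ0c, hβ0c, hβ0c]; linear_combination m4)
    simpa [hβb] using this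
  have f5 : βb 2 3 + βb 3 2 = -PadicInt.toZMod (a 5) := by
    have := hred (β0 2 3 + β0 3 2) (-a 5) (by
      push_cast; rw [hβ0c, hβ0c]; linear_combination m5)
    simpa [hβb] using this
  have f6 : βb 3 3 = -PadicInt.toZMod (a 6) := by
    have := hred (β0 3 3) (-a 6) (by push_cast; rw [hβ0c]; linear_combination m6)
    simpa [hβb] using this
  have hform := form_rank_one (fun n => PadicInt.toZMod (a n)) βb f0 f1 f2 f3 f4 f5 f6 κ w hw
  -- no tritangent lines
  have hpn : ∀ q : ℕ, q.Prime → p ≠ q → ((q : ℕ) : ZMod p) ≠ 0 := by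
    intro q hq hpq h
    rw [ZMod.natCast_eq_zero_iff] at h
    exact hpq ((Nat.prime_dvd_prime_iff_eq Fact.out hq).mp h)
  have k2 := hpn 2 Nat.prime_two h2
  have k3 := hpn 3 Nat.prime_three h3
  have k7 := hpn 7 (by norm_num) h7
  have k11 := hpn 11 (by norm_num) h11
  have k31 := hpn 31 (by norm_num) h31
  have k43 := hpn 43 (by norm_num) h43
  refine no_tritangent (ZMod p) (by exact_mod_cast k3) ?_ ?_
    (fun n => PadicInt.toZMod (P n)) (fun n => PadicInt.toZMod (Q n)) ?_ (-κ)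
    (C (w 0) * X 0 ^ 3 + C (w 1) * X 0 ^ 2 * X 1 + C (w 2) * X 0 * X 1 ^ 2 +
      C (w 3) * X 1 ^ 3) ?_
  · have : (9331 : ZMod p) = ((7 : ℕ) : ZMod p) * ((31 : ℕ) : ZMod p) * ((43 : ℕ) : ZMod p) := by
      norm_num
    rw [this]
    exact mul_ne_zero (mul_ne_zero k7 k31) k43
  · have : (2310616 : ZMod p) = ((2 : ℕ) : ZMod p) ^ 3 * ((7 : ℕ) : ZMod p) *
        ((11 : ℕ) : ZMod p) ^ 3 * ((31 : ℕ) : ZMod p) := by
      norm_num
    rw [this]
    exact mul_ne_zero (mul_ne_zero (mul_ne_zero (pow_ne_zero 3 k2) k7) (pow_ne_zero 3 k11)) k31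
  · rw [LinearIndependent.pair_iff]
    intro s t hst
    have g1 := congrFun hst i
    have g2 := congrFun hst j
    simp only [Pi.add_apply, Pi.smul_apply, smul_eq_mul, Pi.zero_apply, hPi, hQi, map_one,
      map_zero, mul_one, mul_zero, add_zero] at g1
    rw [g1] at g2
    simp only [Pi.add_apply, Pi.smul_apply, smul_eq_mul, Pi.zero_apply, hQj, map_one,
      mul_one, zero_mul, zero_add] at g2
    exact ⟨g1, g2⟩
  · rw [← map_sextic_line, ha, map_form]
    exact hform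

theorem conj {K : Type*} [Field K] (β ρ : Matrix (Fin 4) (Fin 4) K) (c : Fin 4 → K) :
    dotProduct c ((ρ.transpose * β * ρ).mulVec c) =
      dotProduct (ρ.mulVec c) (β.mulVec (ρ.mulVec c)) := by
  rw [← Matrix.mulVec_mulVec, ← Matrix.mulVec_mulVec, Matrix.dotProduct_mulVec,
    Matrix.vecMul_transpose]

/-- the substitution `s = a s' + c t'`, `t = d t'` on cubic monomials -/
def rho {K : Type*} [Field K] (a c d : K) : Matrix (Fin 4) (Fin 4) K :=
  !![a ^ 3, 3 * a ^ 2 * c, 3 * a * c ^ 2, c ^ 3;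
    0, a ^ 2 * d, 2 * a * c * d, c ^ 2 * d;
    0, 0, a * d ^ 2, c * d ^ 2;
    0, 0, 0, d ^ 3]

theorem rho_cub {K : Type*} [Field K] (a c d s t : K) :
    (rho a c d).mulVec (cub s t) = cub (a * s + c * t) (d * t) := by
  funext n
  fin_cases n <;> simp [rho, cub, Matrix.mulVec, dotProduct, Fin.sum_univ_four] <;> ring

end Val

/-- the local argument at the primes of good reduction without tritangent lines -/
theorem split_generic (p : ℕ) [Fact p.Prime] (h2 : p ≠ 2) (h3 : p ≠ 3) (h7 : p ≠ 7)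
    (h11 : p ≠ 11) (h31 : p ≠ 31) (h43 : p ≠ 43) : SplitProp ℚ_[p] := by
  intro P Q ind β hs hβ
  rw [LinearIndependent.pair_iff] at ind
  obtain ⟨i, hi⟩ := Finite.exists_max (fun n => ‖P n‖)
  have hPi : P i ≠ 0 := by
    intro h0
    have hP : ∀ n, P n = 0 := by
      intro n
      have := hi n
      rw [h0, norm_zero] at this
      exact norm_le_zero_iff.mp this
    have := ind 1 0 (by funext n; simp [hP n])
    exact one_ne_zero this.1
  set Q1 : Fin 3 → ℚ_[p] := fun n => Q n - Q i * (P n / P i) with hQ1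
  obtain ⟨j, hj⟩ := Finite.exists_max (fun n => ‖Q1 n‖)
  have hQ1j : Q1 j ≠ 0 := by
    intro h0
    have hQ : ∀ n, Q1 n = 0 := by
      intro n
      have := hj n
      rw [h0, norm_zero] at this
      exact norm_le_zero_iff.mp this
    have := ind (-(Q i / P i)) 1 (by
      funext n
      have h := hQ n
      simp only [hQ1] at h
      simp only [Pi.add_apply, Pi.smul_apply, smul_eq_mul, Pi.zero_apply]
      linear_combination h)
    exact one_ne_zero this.2
  have hPn : ∀ n, ‖P n / P i‖ ≤ 1 := by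
    intro n
    rw [norm_div, div_le_one (norm_pos_iff.mpr hPi)]
    exact hi n
  have hQn : ∀ n, ‖Q1 n / Q1 j‖ ≤ 1 := by
    intro n
    rw [norm_div, div_le_one (norm_pos_iff.mpr hQ1j)]
    exact hj n
  set P' : Fin 3 → ℤ_[p] := fun n => ⟨P n / P i, hPn n⟩ with hP'
  set Q' : Fin 3 → ℤ_[p] := fun n => ⟨Q1 n / Q1 j, hQn n⟩ with hQ'
  set a := 1 / P i with ha
  set c := -(Q i / (P i * Q1 j)) with hc
  set d := 1 / Q1 j with hd
  obtain ⟨c', r, h1, h2'⟩ := Val.core h2 h3 h7 h11 h31 h43 P' Q' i j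
    (by
      apply Subtype.ext
      simp only [hP']
      rw [div_self hPi]
      rfl)
    (by
      apply Subtype.ext
      simp only [hQ', hQ1]
      rw [div_self hPi]
      simp)
    (by
      apply Subtype.ext
      simp only [hQ']
      rw [div_self hQ1j]
      rfl)
    ((Val.rho a c d).transpose * β * Val.rho a c d)
    (by
      unfold Matrix.IsSymm
      rw [Matrix.transpose_mul, Matrix.transpose_mul, Matrix.transpose_transpose, hs.eq,
        Matrix.mul_assoc])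
    (by
      intro s t
      rw [Val.conj, Val.rho_cub, hβ]
      congr 2
      funext n
      have e1 : ((P' n : ℤ_[p]) : ℚ_[p]) = P n / P i := rfl
      have e2 : ((Q' n : ℤ_[p]) : ℚ_[p]) = Q1 n / Q1 j := rfl
      rw [e1, e2]
      have e3 : Q1 n / Q1 j = c * P n + d * Q n := by
        simp only [hc, hd]
        have e4 : Q1 n = Q n - Q i * (P n / P i) := rfl
        rw [e4]
        field_simp
        ring
      rw [e3, ha]
      ring)
  refine ⟨(Val.rho a c d).mulVec c', r, ?_, ?_⟩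
  · rw [← Val.conj]
    exact h1
  · intro h0
    apply h2'
    rw [← Matrix.mulVec_mulVec, ← Matrix.mulVec_mulVec, h0, Matrix.mulVec_zero]

end Pool.Agent.Work.MP_2dff99_ag
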